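import Mathlib

/-!
# Prefix sums of the Legendre symbol: basic facts

Exact second moments of the Legendre walk, a bathtub inequality, and the relation between the
zero counts `Z_p(a)` and the level counts of the walk started at `0`.
-/

open Finset

namespace Pool.Agent.Lib_helper96.Legendre

/-- clip to `[-R, R]` -/
noncomputable def clip (R y : ℝ) : ℝ := max (-R) (min R y)

noncomputable def F (R y : ℝ) : ℝ := y ^ 3 / 3 - R ^ 2 * y

noncomputable def H (R y : ℝ) : ℝ := F R (clip R y)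

lemma clip_lo (R y : ℝ) (hR : 0 < R) (h : y ≤ -R) : clip R y = -R := by
  unfold clip
  rw [min_eq_right (by linarith), max_eq_left h]

lemma clip_mid (R y : ℝ) (h1 : -R ≤ y) (h2 : y ≤ R) : clip R y = y := by
  unfold clip
  rw [min_eq_right h2, max_eq_right h1]

lemma clip_hi (R y : ℝ) (hR : 0 < R) (h : R ≤ y) : clip R y = R := by
  unfold clip
  rw [min_eq_left h, max_eq_right (by linarith)]

lemma clip_mem (R y : ℝ) (hR : 0 < R) : -R ≤ clip R y ∧ clip R y ≤ R := by
  unfold clip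
  constructor
  · exact le_max_left _ _
  · exact max_le (by linarith) (min_le_left _ _)

lemma clip_mono (R : ℝ) {a b : ℝ} (h : a ≤ b) : clip R a ≤ clip R b := by
  unfold clip
  exact max_le_max le_rfl (min_le_min le_rfl h)

lemma F_anti (R a b : ℝ) (h1 : -R ≤ a) (h : a ≤ b) (h2 : b ≤ R) : F R b ≤ F R a := by
  unfold F
  have e : (a ^ 3 / 3 - R ^ 2 * a) - (b ^ 3 / 3 - R ^ 2 * b) =
    (b - a) * ((R - a) * (R + a) + (R - b) * (R + b) + (R ^ 2 - a * b)) / 3 := by ring
  have h3 : 0 ≤ (R - a) * (R + a) := mul_nonneg (by linarith) (by linarith)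
  have h4 : 0 ≤ (R - b) * (R + b) := mul_nonneg (by linarith) (by linarith)
  have h5 : 0 ≤ R ^ 2 - a * b := by nlinarith [sq_nonneg (a - b), sq_nonneg (a+b)]
  have h6 : 0 ≤ (b - a) * ((R - a) * (R + a) + (R - b) * (R + b) + (R ^ 2 - a * b)) / 3 := by
    apply div_nonneg (mul_nonneg (by linarith) (by linarith)) (by norm_num)
  linarith

lemma H_anti (R : ℝ) (hR : 0 < R) {a b : ℝ} (h : a ≤ b) : H R b ≤ H R a :=
  F_anti R _ _ (clip_mem R a hR).1 (clip_mono R h) (clip_mem R b hR).2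

lemma H_lower (R : ℝ) (hR : 0 < R) (y : ℝ) : -(2 / 3) * R ^ 3 ≤ H R y := by
  obtain ⟨h1, h2⟩ := clip_mem R y hR
  unfold H F
  set c := clip R y
  have e : c ^ 3 / 3 - R ^ 2 * c + 2 / 3 * R ^ 3 = (R - c) ^ 2 * (c + 2 * R) / 3 := by ring
  have : 0 ≤ (R - c) ^ 2 * (c + 2 * R) / 3 :=
    div_nonneg (mul_nonneg (sq_nonneg _) (by linarith)) (by norm_num)
  linarith

lemma H_upper (R : ℝ) (hR : 0 < R) (y : ℝ) : H R y ≤ (2 / 3) * R ^ 3 := by
  obtain ⟨h1, h2⟩ := clip_mem R y hR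
  unfold H F
  set c := clip R y
  have e : 2 / 3 * R ^ 3 - (c ^ 3 / 3 - R ^ 2 * c) = (R + c) ^ 2 * (2 * R - c) / 3 := by ring
  have : 0 ≤ (R + c) ^ 2 * (2 * R - c) / 3 :=
    div_nonneg (mul_nonneg (sq_nonneg _) (by linarith)) (by norm_num)
  linarith

/-- `F - H` is monotone -/
lemma D_mono (R : ℝ) (hR : 0 < R) {a b : ℝ} (h : a ≤ b) : F R a - H R a ≤ F R b - H R b := by
  have lo : ∀ y, y ≤ -R → F R y - H R y = (y + R) ^ 2 * (y - 2 * R) / 3 := by
    intro y hy; unfold H; rw [clip_lo R y hR hy]; unfold F; ring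
  have mid : ∀ y, -R ≤ y → y ≤ R → F R y - H R y = 0 := by
    intro y h1 h2; unfold H; rw [clip_mid R y h1 h2]; ring
  have hi : ∀ y, R ≤ y → F R y - H R y = (y - R) ^ 2 * (y + 2 * R) / 3 := by
    intro y hy; unfold H; rw [clip_hi R y hR hy]; unfold F; ring
  have lo0 : ∀ y, y ≤ -R → F R y - H R y ≤ 0 := by
    intro y hy; rw [lo y hy]
    have := mul_nonneg (sq_nonneg (y + R)) (by linarith : 0 ≤ 2 * R - y)
    nlinarith
  have hi0 : ∀ y, R ≤ y → 0 ≤ F R y - H R y := by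
    intro y hy; rw [hi y hy]
    exact div_nonneg (mul_nonneg (sq_nonneg (y - R)) (by linarith)) (by norm_num)
  rcases le_total a (-R) with ha | ha
  · rcases le_total b (-R) with hb | hb
    · rw [lo a ha, lo b hb]
      have e : (b + R) ^ 2 * (b - 2 * R) / 3 - (a + R) ^ 2 * (a - 2 * R) / 3 =
        (b - a) * ((-R - a) * (R - a) + (-R - b) * (R - b) + (a * b - R ^ 2)) / 3 := by ring
      have h3 : 0 ≤ (-R - a) * (R - a) := mul_nonneg (by linarith) (by linarith)
      have h4 : 0 ≤ (-R - b) * (R - b) := mul_nonneg (by linarith) (by linarith)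
      have h5 : 0 ≤ a * b - R ^ 2 := by nlinarith
      have h6 : 0 ≤ (b - a) * ((-R - a) * (R - a) + (-R - b) * (R - b) + (a * b - R ^ 2)) / 3 := by
        apply div_nonneg (mul_nonneg (by linarith) (by linarith)) (by norm_num)
      linarith
    · rcases le_total b R with hb2 | hb2
      · rw [mid b hb hb2]; exact lo0 a ha
      · exact (lo0 a ha).trans (hi0 b hb2)
  · rcases le_total a R with ha2 | ha2
    · rw [mid a ha ha2]
      rcases le_total b R with hb2 | hb2
      · rw [mid b (ha.trans h) hb2]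
      · exact hi0 b hb2
    · have hb2 : R ≤ b := ha2.trans h
      rw [hi a ha2, hi b hb2]
      have e : (b - R) ^ 2 * (b + 2 * R) / 3 - (a - R) ^ 2 * (a + 2 * R) / 3 =
        (b - a) * ((a - R) * (a + R) + (b - R) * (b + R) + (a * b - R ^ 2)) / 3 := by ring
      have h3 : 0 ≤ (a - R) * (a + R) := mul_nonneg (by linarith) (by linarith)
      have h4 : 0 ≤ (b - R) * (b + R) := mul_nonneg (by linarith) (by linarith)
      have h5 : 0 ≤ a * b - R ^ 2 := by nlinarith
      have h6 : 0 ≤ (b - a) * ((a - R) * (a + R) + (b - R) * (b + R) + (a * b - R ^ 2)) / 3 := by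
        apply div_nonneg (mul_nonneg (by linarith) (by linarith)) (by norm_num)
      linarith

lemma bathtub (s : Finset ℕ) (u : ℕ → ℕ) (K M : ℕ) (hu : ∀ n ∈ s, u n ≤ K)
    (hM : ∀ v, (s.filter (fun n => u n = v)).card ≤ M) (μ R : ℝ) (hR : 0 < R) :
    -(4 / 3) * (M : ℝ) * R ^ 3 ≤ ∑ n ∈ s, (((u n : ℝ) - μ) ^ 2 + 1 / 12 - R ^ 2) := by
  set G : ℕ → ℝ := fun v => H R ((v : ℝ) - 1 / 2 - μ) with hG
  have hg : ∀ v : ℕ, G (v + 1) - G v ≤ ((v : ℝ) - μ) ^ 2 + 1 / 12 - R ^ 2 := by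
    intro v
    have h := D_mono R hR (a := (v : ℝ) - 1 / 2 - μ) (b := ((v + 1 : ℕ) : ℝ) - 1 / 2 - μ)
      (by push_cast; linarith)
    have e : F R (((v + 1 : ℕ) : ℝ) - 1 / 2 - μ) - F R ((v : ℝ) - 1 / 2 - μ) =
        ((v : ℝ) - μ) ^ 2 + 1 / 12 - R ^ 2 := by
      unfold F; push_cast; ring
    simp only [hG]
    linarith
  have hg0 : ∀ v : ℕ, G (v + 1) - G v ≤ 0 := by
    intro v
    have := H_anti R hR (a := (v : ℝ) - 1 / 2 - μ) (b := ((v + 1 : ℕ) : ℝ) - 1 / 2 - μ)
      (by push_cast; linarith)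
    simp only [hG]
    linarith
  have h1 : ∑ n ∈ s, (G (u n + 1) - G (u n)) ≤ ∑ n ∈ s, (((u n : ℝ) - μ) ^ 2 + 1 / 12 - R ^ 2) :=
    Finset.sum_le_sum (fun n _ => hg (u n))
  have h2 : ∑ n ∈ s, (G (u n + 1) - G (u n)) =
      ∑ v ∈ Finset.range (K + 1), ((s.filter (fun n => u n = v)).card : ℝ) * (G (v + 1) - G v) := by
    rw [← Finset.sum_fiberwise_of_maps_to (t := Finset.range (K + 1)) (g := u)
      (fun n hn => Finset.mem_range.2 (Nat.lt_succ_of_le (hu n hn)))]
    apply Finset.sum_congr rfl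
    intro v _
    rw [Finset.sum_congr rfl (g := fun _ => G (v + 1) - G v)]
    · rw [Finset.sum_const, nsmul_eq_mul]
    · intro n hn
      rw [(Finset.mem_filter.1 hn).2]
  have h3 : ∑ v ∈ Finset.range (K + 1), (M : ℝ) * (G (v + 1) - G v) ≤
      ∑ v ∈ Finset.range (K + 1), ((s.filter (fun n => u n = v)).card : ℝ) * (G (v + 1) - G v) := by
    apply Finset.sum_le_sum
    intro v _
    have := hM v
    have h' : ((s.filter (fun n => u n = v)).card : ℝ) ≤ M := by exact_mod_cast this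
    exact mul_le_mul_of_nonpos_right h' (hg0 v)
  rw [← Finset.mul_sum, Finset.sum_range_sub] at h3
  have h4 := H_lower R hR (((K + 1 : ℕ) : ℝ) - 1 / 2 - μ)
  have h5 := H_upper R hR (((0 : ℕ) : ℝ) - 1 / 2 - μ)
  have h6 : -(4 / 3) * R ^ 3 ≤ G (K + 1) - G 0 := by
    simp only [hG]; linarith
  have h7 : (M : ℝ) * (-(4 / 3) * R ^ 3) ≤ (M : ℝ) * (G (K + 1) - G 0) :=
    mul_le_mul_of_nonneg_left h6 (Nat.cast_nonneg M)
  calc -(4 / 3) * (M : ℝ) * R ^ 3 = (M : ℝ) * (-(4 / 3) * R ^ 3) := by ring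
    _ ≤ _ := h7
    _ ≤ _ := h3
    _ = _ := h2.symm
    _ ≤ _ := h1

variable (p : ℕ) [Fact p.Prime]

/-- prefix sums of the Legendre symbol -/
def Psi (a : ZMod p) (t : ℕ) : ℤ := ∑ j ∈ Finset.range (t + 1), quadraticChar (ZMod p) (a + j)

lemma ringChar_ne (hp : p ≠ 2) : ringChar (ZMod p) ≠ 2 := by
  rw [ZMod.ringChar_zmod_n]; exact hp

lemma sum_chi (hp : p ≠ 2) : ∑ x : ZMod p, quadraticChar (ZMod p) x = 0 :=
  quadraticChar_sum_zero (ringChar_ne p hp)

lemma sum_chi_sq (hp : p ≠ 2) : ∑ x : ZMod p, quadraticChar (ZMod p) x * quadraticChar (ZMod p) x = (p : ℤ) - 1 := by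
  have h : ∀ x : ZMod p, quadraticChar (ZMod p) x * quadraticChar (ZMod p) x = if x = 0 then 0 else 1 := by
    intro x
    by_cases hx : x = 0
    · simp [hx]
    · rw [if_neg hx, ← sq]
      exact quadraticChar_sq_one hx
  simp_rw [h]
  rw [Finset.sum_ite]
  simp only [Finset.sum_const_zero, zero_add, Finset.sum_const, nsmul_eq_mul, mul_one]
  rw [Finset.filter_ne' , Finset.card_erase_of_mem (Finset.mem_univ _), Finset.card_univ, ZMod.card]
  have : 1 ≤ p := (Fact.out : p.Prime).one_le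
  push_cast [Nat.cast_sub this]; ring

lemma sum_chi_shift (hp : p ≠ 2) (d : ZMod p) (hd : d ≠ 0) :
    ∑ x : ZMod p, quadraticChar (ZMod p) x * quadraticChar (ZMod p) (x + d) = -1 := by
  have h1 : ∑ x : ZMod p, quadraticChar (ZMod p) x * quadraticChar (ZMod p) (x + d) =
      ∑ x ∈ (Finset.univ.erase (0 : ZMod p)), quadraticChar (ZMod p) (1 + d * x⁻¹) := by
    rw [← Finset.add_sum_erase _ _ (Finset.mem_univ (0 : ZMod p))]
    simp only [MulChar.map_zero, zero_mul, zero_add]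
    apply Finset.sum_congr rfl
    intro x hx
    have hx0 : x ≠ 0 := Finset.ne_of_mem_erase hx
    have : x + d = x * (1 + d * x⁻¹) := by field_simp
    rw [this, map_mul, ← mul_assoc, ← sq, quadraticChar_sq_one hx0, one_mul]
  rw [h1]
  have h2 : ∑ x ∈ (Finset.univ.erase (0 : ZMod p)), quadraticChar (ZMod p) (1 + d * x⁻¹) =
      ∑ y ∈ (Finset.univ.erase (1 : ZMod p)), quadraticChar (ZMod p) y := by
    refine Finset.sum_bij' (fun x _ => 1 + d * x⁻¹) (fun y _ => d * (y - 1)⁻¹) ?_ ?_ ?_ ?_ ?_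
    · intro x hx
      have hx0 : x ≠ 0 := Finset.ne_of_mem_erase hx
      simp [hx0, hd]
    · intro y hy
      have hy1 : y ≠ 1 := Finset.ne_of_mem_erase hy
      have : y - 1 ≠ 0 := sub_ne_zero.2 hy1
      simp [this, hd]
    · intro x hx
      have hx0 : x ≠ 0 := Finset.ne_of_mem_erase hx
      field_simp
      simp [hd]
    · intro y hy
      have hy1 : y ≠ 1 := Finset.ne_of_mem_erase hy
      have : y - 1 ≠ 0 := sub_ne_zero.2 hy1
      field_simp
      ring
    · intro x hx; rfl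
  rw [h2]
  have h3 := Finset.add_sum_erase Finset.univ (fun y : ZMod p => quadraticChar (ZMod p) y) (Finset.mem_univ (1 : ZMod p))
  simp only [map_one] at h3
  rw [sum_chi p hp] at h3
  linarith


/-- second moment of the sums over `h` consecutive residues -/
lemma sum_window_sq (hp : p ≠ 2) (h : ℕ) (hh : h ≤ p) :
    ∑ x : ZMod p, (∑ j ∈ Finset.range h, quadraticChar (ZMod p) (x + j)) ^ 2 = (h : ℤ) * (p - h) := by
  have e1 : ∀ x : ZMod p, (∑ j ∈ Finset.range h, quadraticChar (ZMod p) (x + j)) ^ 2 =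
      ∑ i ∈ Finset.range h, ∑ j ∈ Finset.range h,
        quadraticChar (ZMod p) (x + i) * quadraticChar (ZMod p) (x + j) := by
    intro x
    rw [sq, Finset.sum_mul_sum]
  simp_rw [e1]
  rw [Finset.sum_comm]
  have e2 : ∀ i ∈ Finset.range h, ∑ x : ZMod p, ∑ j ∈ Finset.range h,
      quadraticChar (ZMod p) (x + i) * quadraticChar (ZMod p) (x + j) = (p : ℤ) - h := by
    intro i hi
    rw [Finset.sum_comm]
    have e3 : ∀ j ∈ Finset.range h, ∑ x : ZMod p,
        quadraticChar (ZMod p) (x + i) * quadraticChar (ZMod p) (x + j) =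
        if j = i then (p : ℤ) - 1 else -1 := by
      intro j hj
      have sh : ∑ x : ZMod p, quadraticChar (ZMod p) (x + i) * quadraticChar (ZMod p) (x + j) =
          ∑ x : ZMod p, quadraticChar (ZMod p) x * quadraticChar (ZMod p) (x + ((j : ZMod p) - i)) := by
        rw [← Equiv.sum_comp (Equiv.addRight (i : ZMod p))
          (fun x => quadraticChar (ZMod p) x * quadraticChar (ZMod p) (x + ((j : ZMod p) - i)))]
        apply Finset.sum_congr rfl
        intro x _
        simp only [Equiv.coe_addRight]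
        congr 2
        ring
      rw [sh]
      split_ifs with hij
      · subst hij
        simp only [sub_self, add_zero]
        exact sum_chi_sq p hp
      · apply sum_chi_shift p hp
        rw [sub_ne_zero]
        intro heq
        apply hij
        have := (ZMod.natCast_eq_natCast_iff' j i p).1 heq
        rw [Finset.mem_range] at hi hj
        rwa [Nat.mod_eq_of_lt (by omega), Nat.mod_eq_of_lt (by omega)] at this
    have e4 : ∀ j : ℕ, (if j = i then (p : ℤ) - 1 else -1) = (if j = i then (p : ℤ) else 0) - 1 := by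
      intro j; split_ifs <;> ring
    rw [Finset.sum_congr rfl e3]
    simp_rw [e4]
    rw [Finset.sum_sub_distrib, Finset.sum_ite_eq' (Finset.range h) i (fun _ => (p : ℤ)), if_pos hi]
    simp
  rw [Finset.sum_congr rfl e2]
  simp
  ring

lemma Psi_add (a : ZMod p) (n h : ℕ) :
    Psi p a (n + h) - Psi p a n = ∑ j ∈ Finset.range h, quadraticChar (ZMod p) (a + (n + 1 : ℕ) + j) := by
  unfold Psi
  have : n + h + 1 = (n + 1) + h := by ring
  rw [this, Finset.sum_range_add]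
  rw [add_sub_cancel_left]
  apply Finset.sum_congr rfl
  intro j _
  push_cast
  congr 1
  ring

lemma sum_range_zmod (f : ZMod p → ℤ) : ∑ n ∈ Finset.range p, f (n : ZMod p) = ∑ x : ZMod p, f x := by
  have hp : p ≠ 0 := (Fact.out : p.Prime).ne_zero
  have : NeZero p := ⟨hp⟩
  refine Finset.sum_bij' (fun n _ => (n : ZMod p)) (fun x _ => x.val) ?_ ?_ ?_ ?_ ?_
  · intro n _; exact Finset.mem_univ _
  · intro x _; exact Finset.mem_range.2 (ZMod.val_lt x)
  · intro n hn; exact ZMod.val_cast_of_lt (Finset.mem_range.1 hn)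
  · intro x _; exact ZMod.natCast_zmod_val x
  · intro n _; rfl

/-- Fact A -/
lemma sum_incr_sq (hp : p ≠ 2) (h : ℕ) (hh : h ≤ p) :
    ∑ n ∈ Finset.range p, (Psi p 0 (n + h) - Psi p 0 n) ^ 2 = (h : ℤ) * (p - h) := by
  have e : ∀ n ∈ Finset.range p, (Psi p 0 (n + h) - Psi p 0 n) ^ 2 =
      (fun x : ZMod p => (∑ j ∈ Finset.range h, quadraticChar (ZMod p) ((x + 1) + j)) ^ 2) (n : ZMod p) := by
    intro n _
    rw [Psi_add]
    simp only [zero_add, Nat.cast_add, Nat.cast_one]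
  have e' := sum_range_zmod p
    (fun x : ZMod p => (∑ j ∈ Finset.range h, quadraticChar (ZMod p) ((x + 1) + j)) ^ 2)
  rw [Finset.sum_congr rfl e]
  refine e'.trans ?_
  rw [← sum_window_sq p hp h hh]
  exact Equiv.sum_comp (Equiv.addRight (1 : ZMod p))
    (fun x => (∑ j ∈ Finset.range h, quadraticChar (ZMod p) (x + j)) ^ 2)

/-- periodicity -/
lemma Psi_period (hp : p ≠ 2) (a : ZMod p) (n : ℕ) : Psi p a (n + p) = Psi p a n := by
  have h := Psi_add p a n p
  have h2 := sum_range_zmod p (fun x => quadraticChar (ZMod p) (a + (n + 1 : ℕ) + x))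
  rw [h2] at h
  have h3 : ∑ x : ZMod p, quadraticChar (ZMod p) (a + (n + 1 : ℕ) + x) = 0 := by
    rw [← sum_chi p hp]
    exact Equiv.sum_comp (Equiv.addLeft (a + (n + 1 : ℕ) : ZMod p)) (fun x => quadraticChar (ZMod p) x)
  rw [h3] at h
  linarith

omit [Fact p.Prime] in
lemma sum_shift_periodic (f : ℕ → ℤ) (hf : ∀ n, f (n + p) = f n) (m : ℕ) :
    ∑ h ∈ Finset.range p, f (m + h) = ∑ h ∈ Finset.range p, f h := by
  induction m with
  | zero => simp
  | succ m ih =>
    rw [← ih]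
    have e1 : ∑ h ∈ Finset.range p, f (m + 1 + h) = ∑ h ∈ Finset.range p, f (m + (h + 1)) := by
      apply Finset.sum_congr rfl; intro h _; congr 1; ring
    rw [e1]
    have e2 := Finset.sum_range_succ' (fun h => f (m + h)) p
    have e3 := Finset.sum_range_succ (fun h => f (m + h)) p
    rw [e3] at e2
    have e4 : f (m + p) = f (m + 0) := by rw [hf]; simp
    linarith

/-- Fact B: the exact sum over all pairs -/
lemma sum_pairs (hp : p ≠ 2) :
    6 * ∑ n ∈ Finset.range p, ∑ m ∈ Finset.range p, (Psi p 0 m - Psi p 0 n) ^ 2 =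
      (p : ℤ) * ((p : ℤ) ^ 2 - 1) := by
  have e1 : ∀ n ∈ Finset.range p, ∑ m ∈ Finset.range p, (Psi p 0 m - Psi p 0 n) ^ 2 =
      ∑ h ∈ Finset.range p, (Psi p 0 (n + h) - Psi p 0 n) ^ 2 := by
    intro n _
    exact (sum_shift_periodic p (fun m => (Psi p 0 m - Psi p 0 n) ^ 2)
      (fun m => by simp only [Psi_period p hp]) n).symm
  rw [Finset.sum_congr rfl e1, Finset.sum_comm]
  have e2 : ∀ h ∈ Finset.range p, ∑ n ∈ Finset.range p, (Psi p 0 (n + h) - Psi p 0 n) ^ 2 =
      (h : ℤ) * (p - h) := fun h hh => sum_incr_sq p hp h (Finset.mem_range.1 hh).le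
  rw [Finset.sum_congr rfl e2]
  have e3 : ∀ q P : ℕ, 6 * ∑ h ∈ Finset.range q, (h : ℤ) * (P - h) =
      (q : ℤ) * (q - 1) * (3 * P - (2 * q - 1)) := by
    intro q P
    induction q with
    | zero => simp
    | succ q ih =>
      rw [Finset.sum_range_succ, mul_add, ih]; push_cast; ring
  rw [e3 p p]; ring


lemma abs_Psi_le (a : ZMod p) (n : ℕ) : |Psi p a n| ≤ n + 1 := by
  unfold Psi
  refine (Finset.abs_sum_le_sum_abs _ _).trans ?_
  have h : ∀ j ∈ Finset.range (n + 1), |quadraticChar (ZMod p) (a + j)| ≤ 1 := by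
    intro j _
    by_cases hx : (a + j : ZMod p) = 0
    · rw [hx]; simp
    · rcases quadraticChar_dichotomy hx with h | h <;> rw [h] <;> simp
  refine (Finset.sum_le_sum h).trans ?_
  simp

lemma main_bound (hp : p ≠ 2) (M : ℕ)
    (hM : ∀ h : ℤ, ((Finset.range p).filter (fun t => Psi p 0 t = h)).card ≤ M) : p < M ^ 2 := by
  have hpp : p.Prime := Fact.out
  have hp2 := hpp.two_le
  set u : ℕ → ℕ := fun n => (Psi p 0 n + p).toNat with hu
  have hnn : ∀ n ∈ Finset.range p, 0 ≤ Psi p 0 n + p := by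
    intro n hn
    have h1 := (abs_le.1 (abs_Psi_le p 0 n)).1
    have h2 : (n : ℤ) + 1 ≤ p := by exact_mod_cast Finset.mem_range.1 hn
    linarith
  have hcast : ∀ n ∈ Finset.range p, ((u n : ℕ) : ℤ) = Psi p 0 n + p := fun n hn =>
    Int.toNat_of_nonneg (hnn n hn)
  have huK : ∀ n ∈ Finset.range p, u n ≤ 2 * p := by
    intro n hn
    have h1 := (abs_le.1 (abs_Psi_le p 0 n)).2
    have h2 : (n : ℤ) + 1 ≤ p := by exact_mod_cast Finset.mem_range.1 hn
    have h3 := hcast n hn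
    omega
  have huM : ∀ v, ((Finset.range p).filter (fun n => u n = v)).card ≤ M := by
    intro v
    refine (Finset.card_le_card ?_).trans (hM ((v : ℤ) - p))
    intro n hn
    rw [Finset.mem_filter] at hn ⊢
    refine ⟨hn.1, ?_⟩
    have := hcast n hn.1
    rw [hn.2] at this
    linarith
  have hMpos : 0 < M := by
    rcases Nat.eq_zero_or_pos M with h0 | h0
    · exfalso
      have h1 := hM (Psi p 0 0)
      have h2 : 0 < ((Finset.range p).filter (fun t => Psi p 0 t = Psi p 0 0)).card :=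
        Finset.card_pos.2 ⟨0, Finset.mem_filter.2 ⟨Finset.mem_range.2 hpp.pos, rfl⟩⟩
      omega
    · exact h0
  -- real versions
  have hpR : (0 : ℝ) < p := by exact_mod_cast hpp.pos
  have hMR : (0 : ℝ) < M := by exact_mod_cast hMpos
  set U : ℝ := ∑ n ∈ Finset.range p, (u n : ℝ) with hU
  set V : ℝ := ∑ n ∈ Finset.range p, (u n : ℝ) ^ 2 with hV
  have hpairs : 12 * ((p : ℝ) * V - U ^ 2) = (p : ℝ) * ((p : ℝ) ^ 2 - 1) := by
    have h := sum_pairs p hp
    have hR : (6 : ℝ) * ∑ n ∈ Finset.range p, ∑ m ∈ Finset.range p, ((u m : ℝ) - u n) ^ 2 =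
        (p : ℝ) * ((p : ℝ) ^ 2 - 1) := by
      have e : ∑ n ∈ Finset.range p, ∑ m ∈ Finset.range p, ((u m : ℝ) - u n) ^ 2 =
          ((∑ n ∈ Finset.range p, ∑ m ∈ Finset.range p, (Psi p 0 m - Psi p 0 n) ^ 2 : ℤ) : ℝ) := by
        push_cast
        apply Finset.sum_congr rfl
        intro n hn
        apply Finset.sum_congr rfl
        intro m hm
        have h1 : (u m : ℝ) = (Psi p 0 m : ℝ) + p := by exact_mod_cast hcast m hm
        have h2 : (u n : ℝ) = (Psi p 0 n : ℝ) + p := by exact_mod_cast hcast n hn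
        rw [h1, h2]; ring
      rw [e]; exact_mod_cast h
    have e2 : ∑ n ∈ Finset.range p, ∑ m ∈ Finset.range p, ((u m : ℝ) - u n) ^ 2 =
        2 * ((p : ℝ) * V - U ^ 2) := by
      have e3 : ∀ n m : ℕ, ((u m : ℝ) - u n) ^ 2 = (u m : ℝ) ^ 2 - 2 * (u n : ℝ) * (u m : ℝ) + (u n : ℝ) ^ 2 := by
        intros; ring
      simp_rw [e3, Finset.sum_add_distrib, Finset.sum_sub_distrib, ← Finset.mul_sum, Finset.sum_const,
        Finset.card_range, nsmul_eq_mul]
      rw [← hU, ← hV, ← Finset.mul_sum, ← hV]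
      rw [← Finset.sum_mul, ← Finset.mul_sum, ← hU]
      ring
    rw [e2] at hR
    linarith
  have hb := bathtub (Finset.range p) u (2 * p) M huK huM (U / p) ((p : ℝ) / (2 * M)) (by positivity)
  have hsum : ∑ n ∈ Finset.range p, (((u n : ℝ) - U / p) ^ 2 + 1 / 12 - ((p : ℝ) / (2 * M)) ^ 2) =
      (V - U ^ 2 / p) + p * (1 / 12 - ((p : ℝ) / (2 * M)) ^ 2) := by
    have e3 : ∀ n : ℕ, (((u n : ℝ) - U / p) ^ 2 + 1 / 12 - ((p : ℝ) / (2 * M)) ^ 2) =
        (u n : ℝ) ^ 2 - 2 * (U / p) * (u n : ℝ) + ((U / p) ^ 2 + 1 / 12 - ((p : ℝ) / (2 * M)) ^ 2) := by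
      intros; ring
    simp_rw [e3]
    rw [Finset.sum_add_distrib, Finset.sum_sub_distrib, ← Finset.mul_sum, ← hU, ← hV,
      Finset.sum_const, Finset.card_range, nsmul_eq_mul]
    field_simp
    ring
  rw [hsum] at hb
  have hvar : V - U ^ 2 / p = ((p : ℝ) ^ 2 - 1) / 12 := by
    field_simp
    linarith
  rw [hvar] at hb
  have hfinal : (p : ℝ) ^ 3 ≤ (M : ℝ) ^ 2 * ((p : ℝ) ^ 2 + p - 1) := by
    have e1 : -(4 / 3) * (M : ℝ) * ((p : ℝ) / (2 * M)) ^ 3 = -(p : ℝ) ^ 3 / (6 * (M : ℝ) ^ 2) := by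
      field_simp; norm_num
    have e2 : (p : ℝ) * (1 / 12 - ((p : ℝ) / (2 * M)) ^ 2) = p / 12 - (p : ℝ) ^ 3 / (4 * (M : ℝ) ^ 2) := by
      field_simp; ring
    rw [e1, e2] at hb
    have e3 : (p : ℝ) ^ 3 / (4 * (M : ℝ) ^ 2) + -(p : ℝ) ^ 3 / (6 * (M : ℝ) ^ 2) =
        (p : ℝ) ^ 3 / (12 * (M : ℝ) ^ 2) := by
      field_simp; ring
    have e4 : (p : ℝ) ^ 3 / (12 * (M : ℝ) ^ 2) ≤ ((p : ℝ) ^ 2 - 1) / 12 + p / 12 := by linarith
    rw [div_le_iff₀ (by positivity)] at e4
    linarith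
  have hN : p ^ 3 + M ^ 2 ≤ M ^ 2 * (p ^ 2 + p) := by
    have : (p : ℝ) ^ 3 + (M : ℝ) ^ 2 ≤ (M : ℝ) ^ 2 * ((p : ℝ) ^ 2 + p) := by linarith
    exact_mod_cast this
  by_contra hcon
  push Not at hcon
  have hne : M ^ 2 ≠ p := by
    intro h
    have : ¬ IsSquare p := hpp.prime.not_isSquare
    exact this ⟨M, by rw [← h]; ring⟩
  have hlt : M ^ 2 + 1 ≤ p := by omega
  obtain ⟨q, hq⟩ : ∃ q, p = M ^ 2 + 1 + q := ⟨p - (M ^ 2 + 1), by omega⟩
  have h5 : 1 ≤ p ^ 2 + p := by nlinarith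
  have h6 : (M ^ 2 + 1) * (p ^ 2 + p) ≤ p * (p ^ 2 + p) := Nat.mul_le_mul_right _ hlt
  nlinarith


/-- `Z_p(a)`: the number of `0 ≤ t ≤ p-1` with `Ψ(a,t) = 0`. -/
def Z (a : ZMod p) : ℕ := ((Finset.range p).filter (fun t => Psi p a t = 0)).card

/-- number of `0 ≤ t ≤ p-1` with `Ψ(0,t) = h`. -/
def level (h : ℤ) : ℕ := ((Finset.range p).filter (fun t => Psi p 0 t = h)).card

/-- `M_p`: the maximal size of a level set of `t ↦ Ψ(0,t)`. -/
noncomputable def M : ℕ := ⨆ h : ℤ, level p h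

lemma level_le (h : ℤ) : level p h ≤ p := by
  unfold level
  exact (Finset.card_filter_le _ _).trans (by simp)

lemma bdd_level : BddAbove (Set.range (level p)) := by
  refine ⟨p, ?_⟩
  rintro _ ⟨h, rfl⟩
  exact level_le p h

lemma level_le_M (h : ℤ) : level p h ≤ M p := le_ciSup (bdd_level p) h

lemma card_shift_periodic (P : ℕ → Prop) [DecidablePred P] (hP : ∀ n, P (n + p) ↔ P n) (m : ℕ) :
    ((Finset.range p).filter (fun t => P (m + t))).card = ((Finset.range p).filter P).card := by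
  have h := sum_shift_periodic p (fun n => if P n then 1 else 0) (fun n => by simp only [hP]) m
  have e1 : ((((Finset.range p).filter (fun t => P (m + t))).card : ℕ) : ℤ) =
      ∑ t ∈ Finset.range p, (if P (m + t) then 1 else 0) := by
    rw [Finset.card_filter]; push_cast; rfl
  have e2 : ((((Finset.range p).filter P).card : ℕ) : ℤ) =
      ∑ t ∈ Finset.range p, (if P t then 1 else 0) := by
    rw [Finset.card_filter]; push_cast; rfl
  have : ((((Finset.range p).filter (fun t => P (m + t))).card : ℕ) : ℤ) =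
      ((((Finset.range p).filter P).card : ℕ) : ℤ) := by rw [e1, e2]; exact h
  exact_mod_cast this

/-- `Ψ(a, t) = Ψ(0, b + t) - Ψ(0, b - 1)` when `b ≡ a`, `b ≥ 1`; here with `b = s + 1`. -/
lemma Psi_base (s t : ℕ) : Psi p ((s + 1 : ℕ) : ZMod p) t = Psi p 0 (s + 1 + t) - Psi p 0 s := by
  have h := Psi_add p 0 s (t + 1)
  have e : s + (t + 1) = s + 1 + t := by ring
  rw [e] at h
  rw [h]
  unfold Psi
  apply Finset.sum_congr rfl
  intro j _
  congr 1
  ring

lemma Z_eq_level (hp : p ≠ 2) (s : ℕ) : Z p ((s + 1 : ℕ) : ZMod p) = level p (Psi p 0 s) := by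
  unfold Z level
  rw [← card_shift_periodic p (fun n => Psi p 0 n = Psi p 0 s) (fun n => by rw [Psi_period p hp]) (s + 1)]
  congr 1
  apply Finset.filter_congr
  intro t _
  rw [Psi_base]
  constructor
  · intro h; linarith
  · intro h; linarith

/-- every `Z_p(a)` is a level count -/
lemma Z_le_M (hp : p ≠ 2) (a : ZMod p) : Z p a ≤ M p := by
  have hp0 : p ≠ 0 := (Fact.out : p.Prime).ne_zero
  have : NeZero p := ⟨hp0⟩
  have hp1 : 1 ≤ p := (Fact.out : p.Prime).one_le
  have ha : a = ((a.val + p - 1 + 1 : ℕ) : ZMod p) := by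
    have : a.val + p - 1 + 1 = a.val + p := by omega
    rw [this]; push_cast; rw [ZMod.natCast_zmod_val]; simp
  rw [ha, Z_eq_level p hp]
  exact level_le_M p _

lemma exists_Z (hp : p ≠ 2) : ∃ a : ZMod p, Z p a = M p := by
  -- the supremum is attained at some level `h`
  obtain ⟨h, hh⟩ : ∃ h, level p h = M p := by
    have := Nat.sSup_mem (Set.range_nonempty (level p)) (bdd_level p)
    obtain ⟨h, hh⟩ := this
    exact ⟨h, hh⟩
  have hpos : 0 < level p h := by
    rw [hh]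
    have h1 : 0 < level p (Psi p 0 0) :=
      Finset.card_pos.2 ⟨0, Finset.mem_filter.2 ⟨Finset.mem_range.2 (Fact.out : p.Prime).pos, rfl⟩⟩
    exact lt_of_lt_of_le h1 (level_le_M p _)
  obtain ⟨s, hs⟩ := Finset.card_pos.1 hpos
  rw [Finset.mem_filter] at hs
  refine ⟨((s + 1 : ℕ) : ZMod p), ?_⟩
  rw [Z_eq_level p hp, hs.2, hh]

end Pool.Agent.Lib_helper96.Legendre

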