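import Mathlib

set_option autoImplicit false

namespace Pool.Agent.HopfZG

open SemidirectProduct

section Basic

variable (K : Type) [Group K]

/-- `K` acts on the free group on the set `K` by left translation of the generators. -/
def transl : K →* MulAut (FreeGroup K) where
  toFun k := FreeGroup.freeGroupCongr (Equiv.mulLeft k)
  map_one' := by
    ext x
    induction x using FreeGroup.induction_on with
    | C1 => simp
    | of y => simp
    | inv_of y h => simp
    | mul a b ha hb => simp only [map_mul, ha, hb]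
  map_mul' k l := by
    ext x
    induction x using FreeGroup.induction_on with
    | C1 => simp
    | of y => simp [mul_assoc]
    | inv_of y h => simp [mul_assoc]
    | mul a b ha hb => simp only [map_mul, ha, hb]

/-- The free product `K * ℤ`, realised as `FreeGroup K ⋊ K`. -/
abbrev FH : Type := FreeGroup K ⋊[transl K] K

variable {K}

@[simp] lemma transl_of (k l : K) : transl K k (FreeGroup.of l) = FreeGroup.of (k * l) := by
  simp [transl]

/-- The generator of the infinite cyclic free factor. -/
def rr : FH K := inl (FreeGroup.of 1)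

lemma inl_of (k : K) : (inl (FreeGroup.of k) : FH K) = inr k * rr * (inr k)⁻¹ := by
  rw [rr, ← map_inv, ← inl_aut, transl_of, mul_one]

variable {M : Type*} [Group M]

/-- universal property of `K * ℤ` -/
def liftH (f : K →* M) (m : M) : FH K →* M :=
  SemidirectProduct.lift (FreeGroup.lift fun k => f k * m * (f k)⁻¹) f (by
    intro g
    ext x
    simp [mul_assoc])

@[simp] lemma liftH_inr (f : K →* M) (m : M) (k : K) : liftH f m (inr k) = f k := by
  simp [liftH]

@[simp] lemma liftH_rr (f : K →* M) (m : M) : liftH f m rr = m := by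
  simp [liftH, rr]

lemma homH_ext {f g : FH K →* M} (h1 : ∀ k, f (inr k) = g (inr k)) (h2 : f rr = g rr) :
    f = g := by
  apply SemidirectProduct.hom_ext
  · ext k
    simp [inl_of, h1, h2]
  · ext k
    exact h1 k

lemma subgroup_eq_top {S : Subgroup (FH K)} (h1 : ∀ k, inr k ∈ S) (h2 : rr ∈ S) : S = ⊤ := by
  have h3 : ∀ x : FreeGroup K, (inl x : FH K) ∈ S := by
    intro x
    induction x using FreeGroup.induction_on with
    | C1 => simp [S.one_mem]
    | of y =>
      rw [inl_of]
      exact S.mul_mem (S.mul_mem (h1 y) h2) (S.inv_mem (h1 y))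
    | inv_of y h =>
      rw [map_inv]
      exact S.inv_mem h
    | mul a b ha hb =>
      rw [map_mul]
      exact S.mul_mem ha hb
  rw [eq_top_iff]
  intro x _
  rw [← inl_left_mul_inr_right x]
  exact S.mul_mem (h3 _) (h1 _)

end Basic


section
variable {α : Type} [DecidableEq α]

lemma toWord_mk_of_isReduced {L : List (α × Bool)} (h : FreeGroup.IsReduced L) :
    (FreeGroup.mk L).toWord = L := by
  rw [FreeGroup.toWord_mk]; exact h.reduce_eq

omit [DecidableEq α] in
lemma mk_single_mem_zpowers (a : α) (b : Bool) :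
    ∃ j : ℤ, (FreeGroup.mk [(a, b)] : FreeGroup α) = FreeGroup.of a ^ j := by
  cases b
  · refine ⟨-1, ?_⟩
    rw [zpow_neg, zpow_one]
    rfl
  · refine ⟨1, ?_⟩
    rw [zpow_one]
    rfl

lemma commute_of_pow_aux (a : α) (n : ℕ) (hn : 0 < n) :
    ∀ (N : ℕ) (w : FreeGroup α), w.toWord.length ≤ N → Commute (FreeGroup.of a ^ n) w →
      ∃ j : ℤ, w = FreeGroup.of a ^ j := by
  intro N
  induction N with
  | zero =>
    intro w hw _
    refine ⟨0, ?_⟩
    rw [zpow_zero, ← FreeGroup.toWord_eq_nil_iff]
    exact List.length_eq_zero_iff.1 (by omega)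
  | succ N ih =>
    intro w hw hc
    by_cases h1 : w = 1
    · exact ⟨0, by simpa using h1⟩
    have hne : w.toWord ≠ [] := by rwa [Ne, FreeGroup.toWord_eq_nil_iff]
    have hred : FreeGroup.IsReduced w.toWord := FreeGroup.isReduced_toWord
    -- first letter
    by_cases hfirst : ∃ b L, w.toWord = (a, b) :: L
    · obtain ⟨b, L, hL⟩ := hfirst
      have hLred : FreeGroup.IsReduced L := by
        rw [hL] at hred
        exact List.IsChain.tail hred
      have hw' : w = FreeGroup.mk [(a, b)] * FreeGroup.mk L := by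
        rw [FreeGroup.mul_mk, List.singleton_append, ← hL, FreeGroup.mk_toWord]
      obtain ⟨j, hj⟩ := mk_single_mem_zpowers a b
      have hc' : Commute (FreeGroup.of a ^ n) (FreeGroup.mk L) := by
        have e : FreeGroup.mk L = (FreeGroup.of a ^ j)⁻¹ * w := by
          rw [hw', hj]; group
        rw [e]
        refine Commute.mul_right ?_ hc
        exact ((Commute.refl (FreeGroup.of a)).pow_left n).zpow_right j |>.inv_right
      obtain ⟨i, hi⟩ := ih (FreeGroup.mk L) (by
        rw [toWord_mk_of_isReduced hLred]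
        rw [hL] at hw
        simp at hw
        omega) hc'
      exact ⟨j + i, by rw [hw', hj, hi, zpow_add]⟩
    by_cases hlast : ∃ b L, w.toWord = L ++ [(a, b)]
    · obtain ⟨b, L, hL⟩ := hlast
      have hLred : FreeGroup.IsReduced L := by
        rw [hL] at hred
        exact List.IsChain.left_of_append hred
      have hw' : w = FreeGroup.mk L * FreeGroup.mk [(a, b)] := by
        rw [FreeGroup.mul_mk, ← hL, FreeGroup.mk_toWord]
      obtain ⟨j, hj⟩ := mk_single_mem_zpowers a b
      have hc' : Commute (FreeGroup.of a ^ n) (FreeGroup.mk L) := by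
        have e : FreeGroup.mk L = w * (FreeGroup.of a ^ j)⁻¹ := by
          rw [hw', hj]; group
        rw [e]
        refine Commute.mul_right hc ?_
        exact ((Commute.refl (FreeGroup.of a)).pow_left n).zpow_right j |>.inv_right
      obtain ⟨i, hi⟩ := ih (FreeGroup.mk L) (by
        rw [toWord_mk_of_isReduced hLred]
        rw [hL] at hw
        simp at hw
        omega) hc'
      exact ⟨i + j, by rw [hw', hj, hi, zpow_add]⟩
    exfalso
    have hr1 : FreeGroup.IsReduced (List.replicate n (a, true) ++ w.toWord) := by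
      have hrep : FreeGroup.IsReduced (List.replicate n (a, true)) := by
        have := FreeGroup.isReduced_toWord (x := FreeGroup.of a ^ n)
        rwa [FreeGroup.toWord_of_pow] at this
      refine List.IsChain.append hrep hred ?_
      intro x hx y hy hxy
      exfalso
      have hx' : x = (a, true) := List.eq_of_mem_replicate (List.mem_of_getLast? hx)
      obtain ⟨L, hL⟩ : ∃ L, w.toWord = y :: L := by
        cases hh : w.toWord with
        | nil => exact absurd hh hne
        | cons z L =>
          rw [hh] at hy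
          simp at hy
          exact ⟨L, by rw [hy]⟩
      apply hfirst
      refine ⟨y.2, L, ?_⟩
      rw [hL]
      congr 1
      rw [hx'] at hxy
      exact Prod.ext hxy.symm rfl
    have hr2 : FreeGroup.IsReduced (w.toWord ++ List.replicate n (a, true)) := by
      have hrep : FreeGroup.IsReduced (List.replicate n (a, true)) := by
        have := FreeGroup.isReduced_toWord (x := FreeGroup.of a ^ n)
        rwa [FreeGroup.toWord_of_pow] at this
      refine List.IsChain.append hred hrep ?_
      intro x hx y hy hxy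
      exfalso
      have hy' : y = (a, true) := List.eq_of_mem_replicate (List.mem_of_mem_head? hy)
      apply hlast
      refine ⟨x.2, w.toWord.dropLast, ?_⟩
      have h5 : w.toWord.getLast hne = x := by
        rw [List.getLast?_eq_some_getLast hne] at hx
        simpa using hx
      conv_lhs => rw [← List.dropLast_append_getLast hne]
      rw [h5]
      congr 2
      rw [hy'] at hxy
      exact Prod.ext hxy rfl
    have e1 : (FreeGroup.of a ^ n * w).toWord = List.replicate n (a, true) ++ w.toWord := by
      rw [FreeGroup.toWord_mul, FreeGroup.toWord_of_pow]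
      exact hr1.reduce_eq
    have e2 : (w * FreeGroup.of a ^ n).toWord = w.toWord ++ List.replicate n (a, true) := by
      rw [FreeGroup.toWord_mul, FreeGroup.toWord_of_pow]
      exact hr2.reduce_eq
    rw [hc.eq, e2] at e1
    obtain ⟨m, rfl⟩ : ∃ m, n = m + 1 := ⟨n - 1, by omega⟩
    cases hh : w.toWord with
    | nil => exact hne hh
    | cons z L =>
      rw [hh] at e1
      rw [List.replicate_succ] at e1
      simp only [List.cons_append] at e1
      have := (List.cons.inj e1).1
      apply hfirst
      exact ⟨true, L, by rw [hh, this]⟩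

/-- Centralisers of powers of a generator in a free group. -/
lemma commute_of_zpow (a : α) (n : ℤ) (hn : n ≠ 0) (w : FreeGroup α)
    (h : Commute (FreeGroup.of a ^ n) w) : ∃ j : ℤ, w = FreeGroup.of a ^ j := by
  rcases Int.natAbs_eq n with h1 | h1
  · rw [h1, zpow_natCast] at h
    exact commute_of_pow_aux a _ (Int.natAbs_pos.2 hn) _ w le_rfl h
  · rw [h1, zpow_neg, zpow_natCast, Commute.inv_left_iff] at h
    exact commute_of_pow_aux a _ (Int.natAbs_pos.2 hn) _ w le_rfl h
end
section
variable {α β : Type} [DecidableEq α] [DecidableEq β]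

lemma norm_hom_le (f : FreeGroup α →* FreeGroup β) (h : ∀ a, (f (FreeGroup.of a)).norm ≤ 1)
    (x : FreeGroup α) : (f x).norm ≤ x.norm := by
  have key : ∀ L : List (α × Bool), (f (FreeGroup.mk L)).norm ≤ L.length := by
    intro L
    induction L with
    | nil =>
      have : (FreeGroup.mk [] : FreeGroup α) = 1 := rfl
      rw [this, map_one]
      simp
    | cons a L ih =>
      have e : (FreeGroup.mk (a :: L) : FreeGroup α) = FreeGroup.mk [a] * FreeGroup.mk L := by
        rw [FreeGroup.mul_mk]; rfl
      rw [e, map_mul]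
      have h1 : (f (FreeGroup.mk [a])).norm ≤ 1 := by
        obtain ⟨a, b⟩ := a
        cases b
        · have : (FreeGroup.mk [(a, false)] : FreeGroup α) = (FreeGroup.of a)⁻¹ := rfl
          rw [this, map_inv, FreeGroup.norm_inv_eq]
          exact h a
        · exact h a
      calc _ ≤ (f (FreeGroup.mk [a])).norm + (f (FreeGroup.mk L)).norm :=
            FreeGroup.norm_mul_le _ _
        _ ≤ 1 + L.length := by omega
        _ = (a :: L).length := by simp; omega
  have := key x.toWord
  rwa [FreeGroup.mk_toWord] at this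
end

section
variable {K : Type} [Group K] [DecidableEq K]

/-- letterwise inversion -/
def iota : FreeGroup K →* FreeGroup K := FreeGroup.lift fun a => (FreeGroup.of a)⁻¹

omit [Group K] [DecidableEq K] in
@[simp] lemma iota_of (a : K) : iota (FreeGroup.of a) = (FreeGroup.of a)⁻¹ := by simp [iota]

omit [Group K] [DecidableEq K] in
lemma iota_iota (x : FreeGroup K) : iota (iota x) = x := by
  have : (iota.comp iota : FreeGroup K →* FreeGroup K) = MonoidHom.id _ := by
    ext a
    simp
  exact DFunLike.congr_fun this x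

omit [Group K] in
lemma norm_iota (x : FreeGroup K) : (iota x).norm = x.norm := by
  apply le_antisymm
  · exact norm_hom_le iota (by simp) x
  · conv_lhs => rw [← iota_iota x]
    exact norm_hom_le iota (by simp) _

lemma norm_transl (k : K) (x : FreeGroup K) : (transl K k x).norm = x.norm := by
  apply le_antisymm
  · exact norm_hom_le (transl K k).toMonoidHom (fun a => by
      show (transl K k (FreeGroup.of a)).norm ≤ 1
      rw [transl_of, FreeGroup.norm_of]) x
  · have h := norm_hom_le (transl K k⁻¹).toMonoidHom (fun a => by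
      show (transl K k⁻¹ (FreeGroup.of a)).norm ≤ 1
      rw [transl_of, FreeGroup.norm_of]) (transl K k x)
    have e : (transl K k⁻¹).toMonoidHom (transl K k x) = x := by
      show transl K k⁻¹ (transl K k x) = x
      rw [← MulAut.mul_apply, ← map_mul]
      simp
    rwa [e] at h

omit [DecidableEq K] in
lemma iota_transl (k : K) (x : FreeGroup K) : iota (transl K k x) = transl K k (iota x) := by
  have : iota.comp (transl K k).toMonoidHom = (transl K k).toMonoidHom.comp iota := by
    ext a
    simp
  exact DFunLike.congr_fun this x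

/-- The ball of radius `N` in the free group. -/
abbrev Ball (K : Type) [DecidableEq K] (N : ℕ) : Type := {x : FreeGroup K // x.norm ≤ N}

instance (N : ℕ) [Finite K] : Finite (Ball K N) := by
  have h1 : (Set.univ : Set (List (K × Bool))) = Set.univ := rfl
  have h2 := List.finite_length_le (K × Bool) N
  have : Finite {l : List (K × Bool) | l.length ≤ N} := h2
  refine Finite.of_injective (β := {l : List (K × Bool) | l.length ≤ N})
    (fun x => ⟨x.1.toWord, x.2⟩) ?_
  intro x y hxy
  apply Subtype.ext
  apply FreeGroup.toWord_injective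
  exact congrArg Subtype.val hxy

/-- The partial left multiplication, completed by letterwise inversion. -/
def stepFun (N : ℕ) (s : K) (x : Ball K N) : Ball K N :=
  if h : (FreeGroup.of s * x.1).norm ≤ N then ⟨FreeGroup.of s * x.1, h⟩
  else ⟨iota x.1, by rw [norm_iota]; exact x.2⟩

omit [Group K] in
lemma stepFun_injective (N : ℕ) (s : K) : Function.Injective (stepFun (K := K) N s) := by
  have key : ∀ x y : Ball K N, (FreeGroup.of s * x.1).norm ≤ N →
      ¬ (FreeGroup.of s * y.1).norm ≤ N → FreeGroup.of s * x.1 ≠ iota y.1 := by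
    intro x y hx hy hxy
    apply hy
    rw [← norm_iota, map_mul, iota_of, ← hxy, inv_mul_cancel_left]
    exact x.2
  intro x y hxy
  unfold stepFun at hxy
  split_ifs at hxy with h1 h2 h2
  · have := congrArg Subtype.val hxy
    exact Subtype.ext (mul_left_cancel this)
  · exact absurd (congrArg Subtype.val hxy) (key x y h1 h2)
  · exact absurd (congrArg Subtype.val hxy).symm (key y x h2 h1)
  · have := congrArg Subtype.val hxy
    apply Subtype.ext
    have h3 := congrArg iota this
    simpa only [iota_iota] using h3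

noncomputable def stepPerm [Finite K] (N : ℕ) (s : K) : Equiv.Perm (Ball K N) :=
  Equiv.ofBijective (stepFun N s) (Finite.injective_iff_bijective.1 (stepFun_injective N s))

def ballAct (N : ℕ) : K →* Equiv.Perm (Ball K N) where
  toFun k :=
    { toFun := fun x => ⟨transl K k x.1, by rw [norm_transl]; exact x.2⟩
      invFun := fun x => ⟨transl K k⁻¹ x.1, by rw [norm_transl]; exact x.2⟩
      left_inv := fun x => by
        apply Subtype.ext
        show transl K k⁻¹ (transl K k x.1) = x.1
        rw [← MulAut.mul_apply, ← map_mul]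
        simp
      right_inv := fun x => by
        apply Subtype.ext
        show transl K k (transl K k⁻¹ x.1) = x.1
        rw [← MulAut.mul_apply, ← map_mul]
        simp }
  map_one' := by
    ext x
    show transl K 1 x.1 = x.1
    simp
  map_mul' k l := by
    ext x
    show transl K (k * l) x.1 = transl K k (transl K l x.1)
    simp

lemma ballAct_stepFun (N : ℕ) (k s : K) (x : Ball K N) :
    ballAct N k (stepFun N s x) = stepFun N (k * s) (ballAct N k x) := by
  have e : ∀ y : FreeGroup K, FreeGroup.of (k * s) * transl K k y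
      = transl K k (FreeGroup.of s * y) := by
    intro y
    rw [map_mul, transl_of]
  unfold stepFun
  by_cases h : (FreeGroup.of s * x.1).norm ≤ N
  · rw [dif_pos h, dif_pos]
    · apply Subtype.ext
      show transl K k (FreeGroup.of s * x.1) = FreeGroup.of (k * s) * transl K k x.1
      rw [e]
    · show (FreeGroup.of (k * s) * transl K k x.1).norm ≤ N
      rw [e, norm_transl]
      exact h
  · rw [dif_neg h, dif_neg]
    · apply Subtype.ext
      show transl K k (iota x.1) = iota (transl K k x.1)
      rw [iota_transl]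
    · show ¬ (FreeGroup.of (k * s) * transl K k x.1).norm ≤ N
      rw [e, norm_transl]
      exact h

/-- The action of `K * ℤ` on the ball. -/
noncomputable def ballHom [Finite K] (N : ℕ) : FH K →* Equiv.Perm (Ball K N) :=
  liftH (ballAct N) (stepPerm N 1)

lemma ballHom_of [Finite K] (N : ℕ) (s : K) :
    ballHom N (inl (FreeGroup.of s)) = stepPerm N s := by
  rw [inl_of, map_mul, map_mul, map_inv, ballHom, liftH_inr, liftH_rr, mul_inv_eq_iff_eq_mul]
  refine Equiv.ext fun x => ?_
  simp only [Equiv.Perm.mul_apply]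
  show ballAct N s (stepFun N 1 x) = stepFun N s (ballAct N s x)
  rw [ballAct_stepFun, mul_one]

lemma ballHom_eval [Finite K] (N : ℕ) (L : List (K × Bool)) (hL : FreeGroup.IsReduced L)
    (hN : L.length ≤ N) :
    ballHom N (inl (FreeGroup.mk L)) ⟨1, by simp⟩
      = ⟨FreeGroup.mk L, le_trans FreeGroup.norm_mk_le hN⟩ := by
  induction L with
  | nil =>
    have : (FreeGroup.mk [] : FreeGroup K) = 1 := rfl
    simp only [this, map_one]
    rfl
  | cons a L ih =>
    have hL' : FreeGroup.IsReduced L := List.IsChain.tail hL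
    have hN' : L.length ≤ N := by simp at hN; omega
    have e : (FreeGroup.mk (a :: L) : FreeGroup K) = FreeGroup.mk [a] * FreeGroup.mk L := by
      rw [FreeGroup.mul_mk]; rfl
    have e2 : ballHom N (inl (FreeGroup.mk (a :: L))) ⟨1, by simp⟩
        = ballHom N (inl (FreeGroup.mk [a]))
          ⟨FreeGroup.mk L, le_trans FreeGroup.norm_mk_le hN'⟩ := by
      rw [e, map_mul, map_mul, Equiv.Perm.mul_apply, ih hL' hN']
    rw [e2]
    obtain ⟨a, b⟩ := a
    have hn : (FreeGroup.mk ((a, b) :: L)).norm ≤ N := le_trans FreeGroup.norm_mk_le hN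
    cases b
    · have e3 : (FreeGroup.mk [(a, false)] : FreeGroup K) = (FreeGroup.of a)⁻¹ := rfl
      rw [e3, map_inv, map_inv, ballHom_of, Equiv.Perm.inv_eq_iff_eq]
      show _ = stepFun N a _
      unfold stepFun
      have e4 : FreeGroup.of a * FreeGroup.mk ((a, false) :: L) = FreeGroup.mk L := by
        rw [e, e3, mul_inv_cancel_left]
      rw [dif_pos (by rw [e4]; exact le_trans FreeGroup.norm_mk_le hN')]
      apply Subtype.ext
      exact e4.symm
    · have e3 : (FreeGroup.mk [(a, true)] : FreeGroup K) = FreeGroup.of a := rfl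
      rw [e3, ballHom_of]
      show stepFun N a _ = _
      unfold stepFun
      have e4 : FreeGroup.of a * FreeGroup.mk L = FreeGroup.mk ((a, true) :: L) := by
        rw [e, e3]
      rw [dif_pos (by show (FreeGroup.of a * FreeGroup.mk L).norm ≤ N; rw [e4]; exact hn)]
      apply Subtype.ext
      exact e4

end

/-- `K * ℤ` is residually finite for finite `K`. -/
lemma resFinite_FH {K : Type} [Group K] [Finite K] (x : FH K) (hx : x ≠ 1) :
    ∃ (P : Type) (_ : Group P) (_ : Finite P) (f : FH K →* P), f x ≠ 1 := by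
  classical
  by_cases h : x.right = 1
  · refine ⟨Equiv.Perm (Ball K x.left.norm), inferInstance, inferInstance,
      ballHom x.left.norm, ?_⟩
    intro h1
    apply hx
    have e : x = inl (FreeGroup.mk x.left.toWord) := by
      rw [FreeGroup.mk_toWord]
      conv_lhs => rw [← inl_left_mul_inr_right x]
      rw [h, map_one, mul_one]
    have h2 := ballHom_eval x.left.norm x.left.toWord FreeGroup.isReduced_toWord le_rfl
    rw [← e, h1] at h2
    have h3 := congrArg Subtype.val h2
    have h4 : (1 : FreeGroup K) = FreeGroup.mk x.left.toWord := h3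
    rw [e, ← h4, map_one]
  · exact ⟨K, inferInstance, inferInstance, rightHom, by simpa using h⟩

section
variable {K : Type} [Group K]

/-- the exponent of the letter `k` -/
noncomputable def expo (k : K) : FreeGroup K →* Multiplicative ℤ :=
  by
    classical
    exact FreeGroup.lift fun l => if l = k then Multiplicative.ofAdd 1 else 1

omit [Group K] in
lemma expo_self (k : K) : expo k (FreeGroup.of k) = Multiplicative.ofAdd 1 := by
  simp [expo]

omit [Group K] in
lemma expo_ne {k l : K} (h : l ≠ k) : expo k (FreeGroup.of l) = 1 := by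
  simp [expo, h]

omit [Group K] in
lemma of_zpow_eq {k l : K} {i j : ℤ} (h : (FreeGroup.of k : FreeGroup K) ^ i = FreeGroup.of l ^ j)
    (hi : i ≠ 0) : k = l := by
  by_contra hkl
  have h1 := congrArg (expo k) h
  rw [map_zpow, map_zpow, expo_self, expo_ne (Ne.symm hkl), one_zpow] at h1
  have h2 := congrArg Multiplicative.toAdd h1
  simp at h2
  exact hi h2

lemma rr_zpow (i : ℤ) : (rr : FH K) ^ i = inl (FreeGroup.of 1 ^ i) := by
  rw [rr, map_zpow]

lemma rr_zpow_eq_one {i : ℤ} (h : (rr : FH K) ^ i = 1) : i = 0 := by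
  have h1 := congrArg (liftH (1 : K →* Multiplicative ℤ) (Multiplicative.ofAdd 1)) h
  rw [map_zpow, liftH_rr, MonoidHom.map_one] at h1
  have h2 := congrArg Multiplicative.toAdd h1
  simpa using h2

/-- The centraliser of a nontrivial power of `r` in `K * ⟨r⟩` is `⟨r⟩`. -/
lemma commute_rr_zpow {i : ℤ} (hi : i ≠ 0) {x : FH K} (h : Commute (rr ^ i) x) :
    ∃ j : ℤ, x = rr ^ j := by
  classical
  have h1 : x * rr ^ i = rr ^ i * x := h.eq.symm
  rw [rr_zpow] at h1
  have h2 := congrArg SemidirectProduct.left h1
  simp only [mul_left, left_inl, right_inl] at h2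
  rw [map_one, MulAut.one_apply, map_zpow, transl_of, mul_one] at h2
  have h3 : x.right = 1 := by
    have h4 : x.left * FreeGroup.of x.right ^ i * (x.left)⁻¹ = FreeGroup.of 1 ^ i := by
      rw [h2]; group
    have h5 := congrArg (expo 1) h4
    rw [map_mul, map_mul, map_inv, mul_right_comm, mul_inv_cancel, one_mul, map_zpow, map_zpow,
      expo_self] at h5
    by_contra hne
    rw [expo_ne hne, one_zpow] at h5
    have h6 := congrArg Multiplicative.toAdd h5
    simp at h6
    exact hi h6.symm
  rw [h3] at h2
  obtain ⟨j, hj⟩ := commute_of_zpow (1 : K) i hi x.left h2.symm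
  refine ⟨j, ?_⟩
  rw [rr_zpow, ← hj]
  conv_lhs => rw [← inl_left_mul_inr_right x, h3, map_one, mul_one]

lemma conj_rr_zpow {k : K} (hk : k ≠ 1) {l l' : ℤ}
    (h : inr k * (rr : FH K) ^ l * (inr k)⁻¹ = rr ^ l') : l = 0 := by
  rw [rr_zpow, rr_zpow, ← map_inv, ← inl_aut, map_zpow, transl_of, mul_one, inl_inj] at h
  by_contra hl
  exact hk (of_zpow_eq h hl)

/-- `K * ℤ` has no nontrivial finite normal subgroups. -/
lemma finite_normal_eq_bot (N : Subgroup (FH K)) [hN : N.Normal] [Finite N] : N = ⊥ := by
  rw [Subgroup.eq_bot_iff_forall]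
  intro x hx
  have hfin : Finite (MulAut N) := Finite.of_injective (fun e : MulAut N => (e : N → N))
    DFunLike.coe_injective
  have h1 : IsOfFinOrder (MulAut.conjNormal (H := N) (rr : FH K)) := isOfFinOrder_of_finite _
  obtain ⟨i, hi, h2⟩ := isOfFinOrder_iff_pow_eq_one.1 h1
  rw [← map_pow] at h2
  have h3 : (rr : FH K) ^ i * x * (rr ^ i)⁻¹ = x := by
    have h4 := congrArg Subtype.val (DFunLike.congr_fun h2 ⟨x, hx⟩)
    rw [MulAut.conjNormal_apply] at h4
    exact h4
  have h5 : Commute ((rr : FH K) ^ (i : ℤ)) x := by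
    rw [zpow_natCast]
    exact mul_inv_eq_iff_eq_mul.1 h3
  obtain ⟨j, hj⟩ := commute_rr_zpow (by exact_mod_cast hi.ne') h5
  have h6 : IsOfFinOrder (⟨x, hx⟩ : N) := isOfFinOrder_of_finite _
  obtain ⟨m, hm, h7⟩ := isOfFinOrder_iff_pow_eq_one.1 h6
  have h8 : x ^ m = 1 := congrArg Subtype.val h7
  rw [hj, ← zpow_natCast, ← zpow_mul] at h8
  have h9 := rr_zpow_eq_one h8
  have h10 : j = 0 := by
    rcases mul_eq_zero.1 h9 with h | h
    · exact h
    · exfalso
      have : m = 0 := by exact_mod_cast h
      omega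
  rw [hj, h10, zpow_zero]

end

/-- vanishing of `H¹` in coprime order -/
lemma cocycle_trivial {K W : Type} [Group K] [Finite K] [CommGroup W]
    (ρ : K →* MulAut W) (hcop : (Nat.card W).Coprime (Nat.card K)) (c : K → W)
    (hc : ∀ k l, c (k * l) = c k * ρ k (c l)) : ∃ w : W, ∀ k, c k = w * (ρ k w)⁻¹ := by
  classical
  cases nonempty_fintype K
  set s : W := ∏ l, c l with hs
  have h1 : ∀ k, s = c k ^ Nat.card K * ρ k s := by
    intro k
    have e1 : ∏ l, c (k * l) = s := Equiv.prod_comp (Equiv.mulLeft k) c
    have e2 : ∏ l, c (k * l) = c k ^ Nat.card K * ρ k s := by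
      rw [Finset.prod_congr rfl (fun l _ => hc k l), Finset.prod_mul_distrib, Finset.prod_const,
        Finset.card_univ, Nat.card_eq_fintype_card, hs, map_prod]
    rw [← e2, e1]
  obtain ⟨w, hws⟩ : ∃ w : W, w ^ Nat.card K = s :=
    ⟨(powCoprime hcop).symm s, (powCoprime hcop).apply_symm_apply s⟩
  refine ⟨w, fun k => ?_⟩
  apply (powCoprime hcop).injective
  show c k ^ Nat.card K = (w * (ρ k w)⁻¹) ^ Nat.card K
  rw [mul_pow, inv_pow, ← map_pow, hws, eq_mul_inv_iff_mul_eq]
  exact (h1 k).symm

lemma comm_aux {W : Type} [CommGroup W] {w w₁ a b : W} (h : w * a⁻¹ = w₁ * b⁻¹) :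
    a * b⁻¹ = w * w₁⁻¹ := by
  rw [mul_inv_eq_iff_eq_mul] at h ⊢
  subst h
  have : w₁ * b⁻¹ * a * w₁⁻¹ * b = (w₁ * w₁⁻¹) * (b⁻¹ * b) * a := by ac_rfl
  rw [this, mul_inv_cancel, inv_mul_cancel, one_mul, one_mul]

section Semi
variable {W H : Type} [CommGroup W] [Group H] {ρ : H →* MulAut W}

lemma conj_inl (y : W ⋊[ρ] H) (v : W) : y * inl v * y⁻¹ = inl (ρ y.right v) := by
  conv_lhs => rw [← inl_left_mul_inr_right y]
  have e : inl y.left * inr y.right * inl v * (inl y.left * inr y.right)⁻¹
      = (inl y.left : W ⋊[ρ] H) * (inr y.right * inl v * (inr y.right)⁻¹) * (inl y.left)⁻¹ := by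
    group
  rw [e, ← map_inv inr, ← inl_aut, ← map_inv inl, ← map_mul, ← map_mul]
  congr 1
  rw [mul_comm y.left, mul_assoc, mul_inv_cancel, mul_one]

end Semi

section Counting
variable {K K' W : Type} [Group K] [Group K'] [CommGroup W]

/-- endomorphisms of `W ⋊ (K' * ℤ)` over `K' * ℤ` -/
noncomputable def twistEnd (ρ : FH K' →* MulAut W) (ε : Bool) (w w' : W) :
    W ⋊[ρ] FH K' →* W ⋊[ρ] FH K' :=
  SemidirectProduct.lift (if ε then inl else 1)
    (liftH ((MulAut.conj (inl w : W ⋊[ρ] FH K')).toMonoidHom.comp (inr.comp inr)) (⟨w', rr⟩)) (by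
      intro g
      ext1 v
      have h1 : ∀ g : FH K', (liftH ((MulAut.conj (inl w : W ⋊[ρ] FH K')).toMonoidHom.comp
          (inr.comp inr)) (⟨w', rr⟩ : W ⋊[ρ] FH K') g).right = g := by
        intro g
        have : (rightHom.comp (liftH ((MulAut.conj (inl w : W ⋊[ρ] FH K')).toMonoidHom.comp
          (inr.comp inr)) (⟨w', rr⟩ : W ⋊[ρ] FH K'))) = MonoidHom.id _ := by
          apply homH_ext
          · intro k
            simp
          · simp
        exact DFunLike.congr_fun this g
      cases ε
      · simp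
      · simp only [if_true, MonoidHom.comp_apply, MulEquiv.coe_toMonoidHom, MulAut.conj_apply]
        rw [conj_inl, h1])

@[simp] lemma twistEnd_right (ρ : FH K' →* MulAut W) (ε : Bool) (w w' : W)
    (x : W ⋊[ρ] FH K') : (twistEnd ρ ε w w' x).right = x.right := by
  have : rightHom.comp (twistEnd ρ ε w w') = rightHom := by
    apply SemidirectProduct.hom_ext
    · ext1 v
      cases ε
      · simp [twistEnd]
      · simp [twistEnd]
    · apply homH_ext
      · intro k
        simp [twistEnd]
      · simp [twistEnd]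
  exact DFunLike.congr_fun this x

lemma twistEnd_inl_false (ρ : FH K' →* MulAut W) (w w' v : W) :
    twistEnd ρ false w w' (inl v) = 1 := by
  simp [twistEnd]

lemma twistEnd_inl_true (ρ : FH K' →* MulAut W) (w w' v : W) :
    twistEnd ρ true w w' (inl v) = inl v := by
  simp [twistEnd]

lemma twistEnd_inr (ρ : FH K' →* MulAut W) (ε : Bool) (w w' : W) (k : K') :
    (twistEnd ρ ε w w' (inr (inr k))).left = w * (ρ (inr k) w)⁻¹ := by
  simp [twistEnd]

lemma twistEnd_rr (ρ : FH K' →* MulAut W) (ε : Bool) (w w' : W) :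
    (twistEnd ρ ε w w' (inr rr)).left = w' := by
  simp [twistEnd]

lemma twistEnd_injective [Nontrivial W] (ρ : FH K' →* MulAut W)
    (hfix : ∀ w : W, (∀ k : K', ρ (inr k) w = w) → w = 1) :
    Function.Injective (fun p : Bool × W × W => twistEnd ρ p.1 p.2.1 p.2.2) := by
  rintro ⟨ε, w, w'⟩ ⟨ε₁, w₁, w₁'⟩ h
  simp only at h
  have h1 : w' = w₁' := by
    rw [← twistEnd_rr ρ ε w w', h, twistEnd_rr]
  have h2 : w = w₁ := by
    have h3 : w * w₁⁻¹ = 1 := by
      apply hfix
      intro k
      have h4 : w * (ρ (inr k) w)⁻¹ = w₁ * (ρ (inr k) w₁)⁻¹ := by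
        rw [← twistEnd_inr ρ ε w w', h, twistEnd_inr]
      rw [map_mul, map_inv]
      exact comm_aux h4
    exact mul_inv_eq_one.1 h3
  have h6 : ε = ε₁ := by
    obtain ⟨v, hv⟩ := exists_ne (1 : W)
    have h7 := DFunLike.congr_fun h (inl v)
    cases ε <;> cases ε₁
    · rfl
    · rw [twistEnd_inl_false, twistEnd_inl_true] at h7
      exact absurd (inl_injective (h7.symm.trans (map_one inl).symm)) hv
    · rw [twistEnd_inl_false, twistEnd_inl_true] at h7
      exact absurd (inl_injective (h7.trans (map_one inl).symm)) hv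
    · rfl
  rw [h1, h2, h6]

theorem no_surj [Finite K] [Finite W] [Nontrivial W] (ρ : FH K' →* MulAut W)
    (hcop : (Nat.card W).Coprime (Nat.card K))
    (hfix : ∀ w : W, (∀ k : K', ρ (inr k) w = w) → w = 1)
    (q : FH K →* W ⋊[ρ] FH K') : ¬ Function.Surjective q := by
  classical
  intro hq
  -- lifts of the projection
  let S : Type := {l : FH K →* W ⋊[ρ] FH K' // ∀ x, (l x).right = (q x).right}
  have hS : ∀ l : S, ∃ w : W, ∀ k : K,
      (l.1 (inr k)).left = w * (ρ (q (inr k)).right w)⁻¹ := by
    intro l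
    refine cocycle_trivial (ρ.comp (rightHom.comp (q.comp inr))) hcop
      (fun k => (l.1 (inr k)).left) ?_
    intro k k'
    rw [map_mul, map_mul, mul_left, l.2]
    rfl
  choose w hw using hS
  let g : S → W × W := fun l => (w l, (l.1 rr).left)
  have hg : Function.Injective g := by
    intro l l' hll
    have e1 : w l = w l' := congrArg Prod.fst hll
    have e2 : (l.1 rr).left = (l'.1 rr).left := congrArg Prod.snd hll
    apply Subtype.ext
    apply homH_ext
    · intro k
      apply SemidirectProduct.ext
      · rw [hw l k, hw l' k, e1]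
      · rw [l.2, l'.2]
    · apply SemidirectProduct.ext
      · exact e2
      · rw [l.2, l'.2]
  let f : Bool × W × W → S := fun p => ⟨(twistEnd ρ p.1 p.2.1 p.2.2).comp q, fun x => by simp⟩
  have hf : Function.Injective f := by
    intro p p' hpp
    apply twistEnd_injective ρ hfix
    have h1 : (twistEnd ρ p.1 p.2.1 p.2.2).comp q = (twistEnd ρ p'.1 p'.2.1 p'.2.2).comp q :=
      congrArg Subtype.val hpp
    exact (MonoidHom.cancel_right hq).1 h1
  have h1 := Nat.card_le_card_of_injective (g ∘ f) (hg.comp hf)
  rw [Nat.card_prod, Nat.card_prod, Nat.card_eq_fintype_card (α := Bool), Fintype.card_bool] at h1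
  have h2 : 0 < Nat.card W := Nat.card_pos
  nlinarith [Nat.mul_pos h2 h2]

end Counting

section Malcev

/-- Malcev: residually finite groups with finitely many homs to each finite group are Hopfian -/
lemma hopfian_of_resFinite {Y : Type} [Group Y]
    (hfin : ∀ (P : Type) [Group P] [Finite P], Finite (Y →* P))
    (hres : ∀ y : Y, y ≠ 1 → ∃ (P : Type) (_ : Group P) (_ : Finite P) (f : Y →* P), f y ≠ 1)
    (f : Y →* Y) (hf : Function.Surjective f) : Function.Injective f := by
  rw [injective_iff_map_eq_one]
  intro y hy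
  by_contra hne
  obtain ⟨P, _, _, g, hg⟩ := hres y hne
  have := hfin P
  have h1 : Function.Injective (fun u : Y →* P => u.comp f) := fun u v huv =>
    (MonoidHom.cancel_right hf).1 huv
  obtain ⟨u, hu⟩ := (Finite.injective_iff_surjective.1 h1) g
  apply hg
  rw [← hu]
  simp [hy]

variable {K C : Type} [Group K] [Finite K] [CommGroup C] [Finite C] (ρ : FH K →* MulAut C)

lemma finite_hom_Y (P : Type) [Group P] [Finite P] : Finite (C ⋊[ρ] FH K →* P) := by
  refine Finite.of_injective
    (fun f : C ⋊[ρ] FH K →* P => ((fun c : C => f (inl c)), (fun k : K => f (inr (inr k))),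
      f (inr rr))) ?_
  intro f g hfg
  simp only [Prod.mk.injEq] at hfg
  apply SemidirectProduct.hom_ext
  · ext c
    exact congrFun hfg.1 c
  · exact homH_ext (fun k => congrFun hfg.2.1 k) hfg.2.2

lemma resFinite_Y (y : C ⋊[ρ] FH K) (hy : y ≠ 1) :
    ∃ (P : Type) (_ : Group P) (_ : Finite P) (f : C ⋊[ρ] FH K →* P), f y ≠ 1 := by
  by_cases h : y.right = 1
  · have hfin : Finite (MulAut C) := Finite.of_injective (fun e : MulAut C => (e : C → C))
      DFunLike.coe_injective
    have hfin2 : Finite (C ⋊[MonoidHom.id (MulAut C)] MulAut C) :=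
      Finite.of_equiv _ (SemidirectProduct.equivProd).symm
    refine ⟨C ⋊[MonoidHom.id (MulAut C)] MulAut C, inferInstance, inferInstance,
      SemidirectProduct.map (MonoidHom.id C) ρ (fun g => rfl), ?_⟩
    intro h1
    apply hy
    have h2 := congrArg SemidirectProduct.left h1
    exact SemidirectProduct.ext h2 h
  · obtain ⟨P, i1, i2, f, hf⟩ := resFinite_FH y.right h
    exact ⟨P, i1, i2, f.comp rightHom, by simpa using hf⟩

theorem hopfian_Y (f : C ⋊[ρ] FH K →* C ⋊[ρ] FH K) (hf : Function.Surjective f) :
    Function.Injective f :=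
  hopfian_of_resFinite (fun P _ _ => finite_hom_Y ρ P) (resFinite_Y ρ) f hf

end Malcev

section Indec
variable {K C : Type} [Group K] [CommGroup C] {ρ : FH K →* MulAut C}

lemma indec_aux [Nontrivial K] (hfix : ∀ c : C, (∀ k : K, ρ (inr k) c = c) → c = 1)
    (N₁ N₂ : Subgroup (C ⋊[ρ] FH K)) (hcomm : ∀ a ∈ N₁, ∀ b ∈ N₂, a * b = b * a)
    (hgen : ∀ y, ∃ a ∈ N₁, ∃ b ∈ N₂, y = a * b) {i : ℤ} (hi : i ≠ 0)
    {a : C ⋊[ρ] FH K} (ha : a ∈ N₁) (har : a.right = rr ^ i) : N₂ = ⊥ := by
  obtain ⟨k, hk⟩ := exists_ne (1 : K)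
  have h1 : ∀ b ∈ N₂, ∃ l : ℤ, b.right = rr ^ l := by
    intro b hb
    apply commute_rr_zpow hi
    have := congrArg SemidirectProduct.right (hcomm a ha b hb)
    rw [mul_right, mul_right, har] at this
    exact this
  have hconj : ∀ y, ∀ b ∈ N₂, y * b * y⁻¹ ∈ N₂ := by
    intro y b hb
    obtain ⟨a', ha', b', hb', rfl⟩ := hgen y
    have h2 : b' * b * b'⁻¹ ∈ N₂ := N₂.mul_mem (N₂.mul_mem hb' hb) (N₂.inv_mem hb')
    have h3 : a' * b' * b * (a' * b')⁻¹ = b' * b * b'⁻¹ := by
      have h4 := hcomm a' ha' _ h2
      calc a' * b' * b * (a' * b')⁻¹ = (a' * (b' * b * b'⁻¹)) * a'⁻¹ := by group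
        _ = _ := by rw [h4, mul_inv_cancel_right]
    rw [h3]
    exact h2
  have h2 : ∀ b ∈ N₂, b.right = 1 := by
    intro b hb
    obtain ⟨l, hl⟩ := h1 b hb
    obtain ⟨l', hl'⟩ := h1 _ (hconj (inr (inr k)) b hb)
    rw [mul_right, mul_right, inv_right, right_inr, hl] at hl'
    rw [hl, conj_rr_zpow hk hl', zpow_zero]
  rw [Subgroup.eq_bot_iff_forall]
  intro b hb
  have hb' : b = inl b.left := by
    conv_lhs => rw [← inl_left_mul_inr_right b, h2 b hb, map_one, mul_one]
  have h3 : b.left = 1 := by
    apply hfix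
    intro k
    obtain ⟨a', ha', b', hb2, h4⟩ := hgen (inr (inr k))
    have h5 : a'.right = inr k := by
      have := congrArg SemidirectProduct.right h4
      rw [right_inr, mul_right, h2 b' hb2, mul_one] at this
      exact this.symm
    have h6 : a' * b * a'⁻¹ = b := by rw [hcomm a' ha' b hb, mul_inv_cancel_right]
    rw [hb', conj_inl, h5] at h6
    exact inl_injective h6
  rw [hb', h3, map_one]

/-- `C ⋊ (K * ℤ)` is not generated by two nontrivial commuting subgroups. -/
theorem indec [Nontrivial K] (hfix : ∀ c : C, (∀ k : K, ρ (inr k) c = c) → c = 1)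
    (N₁ N₂ : Subgroup (C ⋊[ρ] FH K)) (hcomm : ∀ a ∈ N₁, ∀ b ∈ N₂, a * b = b * a)
    (hgen : ∀ y, ∃ a ∈ N₁, ∃ b ∈ N₂, y = a * b) : N₁ = ⊥ ∨ N₂ = ⊥ := by
  obtain ⟨a, ha, b, hb, hab⟩ := hgen (inr rr)
  have h1 : rr = a.right * b.right := congrArg SemidirectProduct.right hab
  have h2 : a.right * b.right = b.right * a.right :=
    congrArg SemidirectProduct.right (hcomm a ha b hb)
  have h3 : ∃ i : ℤ, a.right = rr ^ i := by
    apply commute_rr_zpow (i := 1) one_ne_zero
    rw [zpow_one]
    show rr * a.right = a.right * rr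
    rw [h1, mul_assoc, ← h2]
  obtain ⟨i, hi⟩ := h3
  by_cases hi0 : i = 0
  · left
    rw [hi, hi0, zpow_zero, one_mul] at h1
    refine indec_aux hfix N₂ N₁ (fun a ha b hb => (hcomm b hb a ha).symm) ?_
      (i := 1) one_ne_zero hb (by rw [zpow_one, h1])
    intro y
    obtain ⟨a, ha, b, hb, h⟩ := hgen y
    exact ⟨b, hb, a, ha, by rw [h, hcomm a ha b hb]⟩
  · right
    exact indec_aux hfix N₁ N₂ hcomm hgen hi0 ha hi

end Indec
end Pool.Agent.HopfZG
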