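import Mathlib
import Pool.Agent.Lib_helper96.HopfFree

set_option autoImplicit false

namespace Pool.Agent.HopfZG

open SemidirectProduct

/-- componentwise automorphisms of a product -/
def piAut {I : Type} (V : I → Type) [∀ i, CommGroup (V i)] :
    (∀ i, MulAut (V i)) →* MulAut (∀ i, V i) where
  toFun f := MulEquiv.piCongrRight f
  map_one' := rfl
  map_mul' _ _ := rfl

@[simp] lemma piAut_apply {I : Type} (V : I → Type) [∀ i, CommGroup (V i)]
    (f : ∀ i, MulAut (V i)) (c : ∀ i, V i) (i : I) : piAut V f c i = f i (c i) := rfl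

section Defs

variable (V : ℕ → Bool → Type) [∀ j b, CommGroup (V j b)]
  (Γ : ℕ → Type) [∀ j, Group (Γ j)]
  (α : ∀ j b, Γ j →* MulAut (V j b)) (θ : ∀ j b, MulAut (V j b))

/-- `K_n`, the product of the first `n + 1` groups `Γ_j` -/
abbrev KK (n : ℕ) : Type := ∀ j : Fin (n + 1), Γ j

/-- `C_n`, the product of the first `n + 1` groups `V_j` -/
abbrev CC (n : ℕ) : Type := ∀ j : Fin (n + 1), ∀ b : Bool, V j b

variable {V Γ}

/-- action of `K_n * ⟨r⟩` on the coordinate `(j, b)` of `C_n` -/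
def rhoc (n : ℕ) (j : Fin (n + 1)) (b : Bool) : FH (KK Γ n) →* MulAut (V j b) :=
  liftH ((α j b).comp (Pi.evalMonoidHom (fun j : Fin (n + 1) => Γ j) j))
    (if (j : ℕ) = n then θ j b else 1)

/-- action of `K_n * ⟨r⟩` on `C_n` -/
def rho (n : ℕ) : FH (KK Γ n) →* MulAut (CC V n) :=
  (piAut (fun j : Fin (n + 1) => ∀ b : Bool, V j b)).comp
    (MonoidHom.pi fun j => (piAut (fun b : Bool => V j b)).comp
      (MonoidHom.pi fun b => rhoc α θ n j b))

@[simp] lemma rho_apply (n : ℕ) (h : FH (KK Γ n)) (c : CC V n) (j : Fin (n + 1)) (b : Bool) :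
    rho α θ n h c j b = rhoc α θ n j b h (c j b) := rfl

@[simp] lemma rhoc_inr (n : ℕ) (j : Fin (n + 1)) (b : Bool) (k : KK Γ n) :
    rhoc α θ n j b (inr k) = α j b (k j) := by
  simp [rhoc]

lemma rhoc_rr_ne (n : ℕ) (j : Fin (n + 1)) (b : Bool) (h : (j : ℕ) ≠ n) :
    rhoc α θ n j b rr = 1 := by
  simp [rhoc, h]

lemma rhoc_rr_last (n : ℕ) (b : Bool) : rhoc α θ n (Fin.last n) b rr = θ n b := by
  simp [rhoc]

/-- the group `Y_n` -/
abbrev YY (n : ℕ) : Type := CC V n ⋊[rho α θ n] FH (KK Γ n)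

/-- The standing hypotheses. -/
structure Good : Prop where
  fix : ∀ j b (v : V j b), (∀ γ, α j b γ v = v) → v = 1
  trans : ∀ j b (v w : V j b), v ≠ 1 → w ≠ 1 → ∃ γ, α j b γ v = w
  nontriv : ∀ j b, Nontrivial (V j b)
  card : ∀ j b j' b', Nat.card (V j b) = Nat.card (V j' b') → j = j' ∧ b = b'
  cop : ∀ j b j', (Nat.card (V j b)).Coprime (Nat.card (Γ j'))
  comm : ∀ j (γ γ' : Γ j), (∀ v, α j false γ v = v) → (∀ v, α j false γ' v = v) →
    ∀ v, α j true γ (α j true γ' v) = α j true γ' (α j true γ v)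
  theta : ∀ j, θ j false = 1
  noncomm : ∀ j, ∃ γ : Γ j, (∀ v, α j false γ v = v) ∧
    ∃ v, θ j true (α j true γ v) ≠ α j true γ (θ j true v)

variable {α θ}

lemma fix_CC (hG : Good α θ) (n : ℕ) (c : CC V n)
    (h : ∀ k : KK Γ n, rho α θ n (inr k) c = c) : c = 1 := by
  funext j b
  apply hG.fix
  intro γ
  have h1 := congrFun (congrFun (h (Pi.mulSingle j γ)) j) b
  rw [rho_apply, rhoc_inr, Pi.mulSingle_eq_same] at h1
  exact h1

lemma nontrivial_KK (hG : Good α θ) (n : ℕ) : Nontrivial (KK Γ n) := by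
  have h1 : Nontrivial (Γ n) := by
    by_contra hn
    rw [not_nontrivial_iff_subsingleton] at hn
    have := hG.nontriv n true
    obtain ⟨v, hv⟩ := exists_ne (1 : V n true)
    apply hv
    apply hG.fix
    intro γ
    rw [Subsingleton.elim γ 1, map_one, MulAut.one_apply]
  obtain ⟨γ, hγ⟩ := exists_ne (1 : Γ n)
  refine ⟨Pi.mulSingle (Fin.last n) γ, 1, ?_⟩
  intro h
  apply hγ
  have := congrFun h (Fin.last n)
  rw [Pi.mulSingle_eq_same] at this
  exact this

end Defs

section Surj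

variable {V : ℕ → Bool → Type} [∀ j b, CommGroup (V j b)] [∀ j b, Finite (V j b)]
  {Γ : ℕ → Type} [∀ j, Group (Γ j)] [∀ j, Finite (Γ j)]
  {α : ∀ j b, Γ j →* MulAut (V j b)} {θ : ∀ j b, MulAut (V j b)}

variable {m n : ℕ} (f : YY α θ m →* YY α θ n)

omit [∀ j, Finite (Γ j)] in
lemma right_f_inl (hf : Function.Surjective f) (c : CC V m) : (f (inl c)).right = 1 := by
  let g : YY α θ m →* FH (KK Γ n) := rightHom.comp f
  have hg : Function.Surjective g := rightHom_surjective.comp hf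
  let R : Subgroup (YY α θ m) := (inl : CC V m →* YY α θ m).range
  have hR : R.Normal := by
    show ((inl : CC V m →* YY α θ m).range).Normal
    rw [range_inl_eq_ker_rightHom]
    infer_instance
  have hN : (R.map g).Normal := hR.map g hg
  have hfin : Finite (R.map g) := by
    have : Finite R := Finite.Set.finite_range (inl : CC V m →* YY α θ m)
    have h2 : Finite (g '' (R : Set (YY α θ m))) := Finite.Set.finite_image _ _
    exact h2
  have h1 := finite_normal_eq_bot (R.map g)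
  have h2 : g (inl c) ∈ R.map g := Subgroup.mem_map_of_mem g ⟨c, rfl⟩
  rw [h1, Subgroup.mem_bot] at h2
  exact h2

/-- the induced map on the finite normal subgroups -/
def fC (hC : ∀ c, (f (inl c)).right = 1) : CC V m →* CC V n where
  toFun c := (f (inl c)).left
  map_one' := by simp
  map_mul' x y := by
    rw [map_mul, map_mul, mul_left, hC x, map_one, MulAut.one_apply]

omit [∀ j b, Finite (V j b)] [∀ j, Finite (Γ j)] in
lemma f_inl (hC : ∀ c, (f (inl c)).right = 1) (c : CC V m) : f (inl c) = inl (fC f hC c) := by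
  apply SemidirectProduct.ext
  · rfl
  · exact hC c

/-- the induced map on the quotients -/
def fH : FH (KK Γ m) →* FH (KK Γ n) := rightHom.comp (f.comp inr)

omit [∀ j, Finite (Γ j)] in
lemma fH_surjective (hf : Function.Surjective f) : Function.Surjective (fH f) := by
  intro h
  obtain ⟨y, hy⟩ := hf (inr h)
  refine ⟨y.right, ?_⟩
  have h1 := congrArg SemidirectProduct.right hy
  rw [← inl_left_mul_inr_right y, map_mul, mul_right, right_f_inl f hf, one_mul,
    right_inr] at h1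
  exact h1

omit [∀ j b, Finite (V j b)] [∀ j, Finite (Γ j)] in
lemma fC_equiv (hC : ∀ c, (f (inl c)).right = 1) (h : FH (KK Γ m)) (c : CC V m) :
    fC f hC (rho α θ m h c) = rho α θ n (fH f h) (fC f hC c) := by
  apply inl_injective (φ := rho α θ n)
  rw [← f_inl, inl_aut, map_mul, map_mul, map_inv, map_inv, f_inl f hC, conj_inl]
  rfl

/-- Some coordinate of `C_m` is mapped nontrivially to the coordinate `(n, b)` of `C_n`. -/
lemma exists_coord (hG : Good α θ) (hf : Function.Surjective f)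
    (hC : ∀ c, (f (inl c)).right = 1) (b : Bool) :
    ∃ (j : Fin (m + 1)) (b' : Bool) (v : V j b'),
      fC f hC (Pi.mulSingle j (Pi.mulSingle b' v)) (Fin.last n) b ≠ 1 := by
  by_contra hcon
  push Not at hcon
  -- evaluation at the coordinate
  let π : CC V n →* V n b := (Pi.evalMonoidHom (fun b : Bool => V n b) b).comp
    (Pi.evalMonoidHom (fun j : Fin (n + 1) => ∀ b : Bool, V j b) (Fin.last n))
  have h1 : π.comp (fC f hC) = 1 := by
    apply MonoidHom.functions_ext'
    intro j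
    apply MonoidHom.functions_ext'
    intro b'
    ext v
    exact hcon j b' v
  let ρ' : FH (KK Γ n) →* MulAut (V n b) := rhoc α θ n (Fin.last n) b
  let P : YY α θ n →* V n b ⋊[ρ'] FH (KK Γ n) :=
    SemidirectProduct.map π (MonoidHom.id _) (fun g => rfl)
  have hP : Function.Surjective P := by
    intro y
    refine ⟨⟨Pi.mulSingle (Fin.last n) (Pi.mulSingle b y.left), y.right⟩, ?_⟩
    apply SemidirectProduct.ext
    · show (Pi.mulSingle (Fin.last n) (Pi.mulSingle b y.left) : CC V n) (Fin.last n) b = y.left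
      simp
    · rfl
  let q : FH (KK Γ m) →* V n b ⋊[ρ'] FH (KK Γ n) := (P.comp f).comp inr
  have hq : Function.Surjective q := by
    intro y
    obtain ⟨y', hy'⟩ := (hP.comp hf) y
    refine ⟨y'.right, ?_⟩
    rw [← hy']
    have e : y' = inl y'.left * inr y'.right := (inl_left_mul_inr_right y').symm
    have e2 : P (f (inl y'.left)) = 1 := by
      rw [f_inl f hC]
      apply SemidirectProduct.ext
      · exact DFunLike.congr_fun h1 y'.left
      · rfl
    show P (f (inr y'.right)) = P (f y')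
    conv_rhs => rw [e, map_mul, map_mul, e2, one_mul]
  have := hG.nontriv n b
  refine no_surj ρ' ?_ ?_ q hq
  · rw [Nat.card_pi]
    exact Nat.Coprime.prod_right fun j _ => hG.cop n b j
  · intro w hw
    apply hG.fix
    intro γ
    have h2 := hw (Pi.mulSingle (Fin.last n) γ)
    have h3 : rhoc α θ n (Fin.last n) b (inr (Pi.mulSingle (Fin.last n) γ)) w = w := h2
    rw [rhoc_inr, Pi.mulSingle_eq_same] at h3
    exact h3

/-- The isomorphism onto the coordinate `(n, b)`: the coordinate `(j, b')` that is mapped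
nontrivially has `j = n`, `b' = b`, and the map is bijective and equivariant. -/
lemma exists_iso (hG : Good α θ) (hf : Function.Surjective f) (b : Bool) :
    ∃ (j : Fin (m + 1)) (b' : Bool), (j : ℕ) = n ∧ b' = b ∧ ∃ β : V j b' →* V n b,
      Function.Bijective β ∧ ∀ (h : FH (KK Γ m)) (v : V j b'),
        β (rhoc α θ m j b' h v) = rhoc α θ n (Fin.last n) b (fH f h) (β v) := by
  have hC := right_f_inl f hf
  obtain ⟨j, b', v₀, hv₀⟩ := exists_coord f hG hf hC b
  let κ : V j b' →* CC V m := (MonoidHom.mulSingle (fun j : Fin (m + 1) => ∀ b : Bool, V j b) j).comp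
    (MonoidHom.mulSingle (fun b : Bool => V j b) b')
  let π : CC V n →* V n b := (Pi.evalMonoidHom (fun b : Bool => V n b) b).comp
    (Pi.evalMonoidHom (fun j : Fin (n + 1) => ∀ b : Bool, V j b) (Fin.last n))
  let β : V j b' →* V n b := π.comp ((fC f hC).comp κ)
  have hκ : ∀ (h : FH (KK Γ m)) (v : V j b'), κ (rhoc α θ m j b' h v) = rho α θ m h (κ v) := by
    intro h v
    funext i c
    show (Pi.mulSingle j (Pi.mulSingle b' (rhoc α θ m j b' h v)) : CC V m) i c
      = rho α θ m h (Pi.mulSingle j (Pi.mulSingle b' v)) i c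
    rw [rho_apply]
    by_cases hi : i = j
    · subst hi
      rw [Pi.mulSingle_eq_same, Pi.mulSingle_eq_same]
      by_cases hc : c = b'
      · subst hc
        rw [Pi.mulSingle_eq_same, Pi.mulSingle_eq_same]
      · rw [Pi.mulSingle_eq_of_ne hc, Pi.mulSingle_eq_of_ne hc, map_one]
    · rw [Pi.mulSingle_eq_of_ne hi, Pi.mulSingle_eq_of_ne hi, Pi.one_apply, map_one]
  have hβ : ∀ (h : FH (KK Γ m)) (v : V j b'),
      β (rhoc α θ m j b' h v) = rhoc α θ n (Fin.last n) b (fH f h) (β v) := by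
    intro h v
    show π (fC f hC (κ (rhoc α θ m j b' h v))) = _
    rw [hκ, fC_equiv]
    rfl
  have hβ0 : β v₀ ≠ 1 := hv₀
  have hinj : Function.Injective β := by
    rw [injective_iff_map_eq_one]
    intro v hv
    by_contra hne
    have hv₀1 : v₀ ≠ 1 := by
      intro h
      apply hβ0
      rw [h, map_one]
    obtain ⟨γ, hγ⟩ := hG.trans j b' v v₀ hne hv₀1
    apply hβ0
    rw [← hγ]
    have h1 := hβ (inr (Pi.mulSingle j γ)) v
    rw [rhoc_inr, Pi.mulSingle_eq_same, hv, map_one] at h1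
    exact h1
  have hsurj : Function.Surjective β := by
    intro w
    by_cases hw : w = 1
    · exact ⟨1, by rw [map_one, hw]⟩
    obtain ⟨γ, hγ⟩ := hG.trans n b (β v₀) w hβ0 hw
    obtain ⟨h, hh⟩ := fH_surjective f hf (inr (Pi.mulSingle (Fin.last n) γ))
    refine ⟨rhoc α θ m j b' h v₀, ?_⟩
    rw [hβ, hh, rhoc_inr, Pi.mulSingle_eq_same]
    exact hγ
  obtain ⟨h1, h2⟩ := hG.card j b' n b (Nat.card_congr (Equiv.ofBijective β ⟨hinj, hsurj⟩))
  exact ⟨j, b', h1, h2, β, ⟨hinj, hsurj⟩, hβ⟩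

/-- A surjection `Y_m → Y_n` forces `m = n`. -/
theorem surj_eq (hG : Good α θ) (hf : Function.Surjective f) : m = n := by
  obtain ⟨j₁, b₁, hj₁, hb₁, β₁, hβ₁, he₁⟩ := exists_iso f hG hf true
  obtain ⟨j₂, b₂, hj₂, hb₂, β₂, hβ₂, he₂⟩ := exists_iso f hG hf false
  subst hb₁ hb₂
  obtain rfl : j₁ = j₂ := Fin.ext (hj₁.trans hj₂.symm)
  subst hj₁
  by_contra hmn
  -- the projection to `Γ_j`
  have hmn' : (j₁ : ℕ) ≠ m := fun h => hmn h.symm
  let pr : FH (KK Γ m) →* Γ j₁ := liftH (Pi.evalMonoidHom (fun j : Fin (m + 1) => Γ j) j₁) 1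
  have hpr : ∀ (b : Bool) (h : FH (KK Γ m)), rhoc α θ m j₁ b h = α j₁ b (pr h) := by
    intro b h
    have : rhoc α θ m j₁ b = (α j₁ b).comp pr := by
      apply homH_ext
      · intro k
        rw [rhoc_inr]
        simp [pr]
      · rw [rhoc_rr_ne α θ m j₁ b hmn']
        simp [pr]
    rw [this]
    rfl
  obtain ⟨γ₀, hγ₀, v, hv⟩ := hG.noncomm j₁
  obtain ⟨h₁, hh₁⟩ := fH_surjective f hf rr
  obtain ⟨h₂, hh₂⟩ := fH_surjective f hf (inr (Pi.mulSingle (Fin.last j₁) γ₀))
  have hγ₁ : ∀ w, α j₁ false (pr h₁) w = w := by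
    intro w
    apply hβ₂.1
    rw [← hpr, he₂, hh₁, rhoc_rr_last, hG.theta, MulAut.one_apply]
  have hγ₂ : ∀ w, α j₁ false (pr h₂) w = w := by
    intro w
    apply hβ₂.1
    rw [← hpr, he₂, hh₂, rhoc_inr, Pi.mulSingle_eq_same]
    exact hγ₀ _
  have hcomm := hG.comm j₁ (pr h₁) (pr h₂) hγ₁ hγ₂
  obtain ⟨w, rfl⟩ := hβ₁.2 v
  apply hv
  have e1 : ∀ w, θ j₁ true (β₁ w) = β₁ (α j₁ true (pr h₁) w) := by
    intro w
    rw [← hpr, he₁, hh₁, rhoc_rr_last]
  have e2 : ∀ w, α j₁ true γ₀ (β₁ w) = β₁ (α j₁ true (pr h₂) w) := by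
    intro w
    rw [← hpr, he₁, hh₂, rhoc_inr, Pi.mulSingle_eq_same]
    rfl
  rw [e2 w, e1, e1, hcomm, e2]

end Surj

end Pool.Agent.HopfZG
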