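import Mathlib
import Pool.Agent.Lib_helper96.HopfGroup

set_option autoImplicit false

namespace Pool.Agent.HopfZG

section RP

variable (Y : ℕ → Type) [∀ n, Group (Y n)]

/-- the restricted direct product -/
def RP : Subgroup (∀ n, Y n) where
  carrier := {x | ∃ N, ∀ n, N ≤ n → x n = 1}
  one_mem' := ⟨0, fun _ _ => rfl⟩
  mul_mem' := by
    rintro x y ⟨N, hN⟩ ⟨M, hM⟩
    refine ⟨max N M, fun n hn => ?_⟩
    rw [Pi.mul_apply, hN n (le_trans (le_max_left _ _) hn), hM n (le_trans (le_max_right _ _) hn),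
      one_mul]
  inv_mem' := by
    rintro x ⟨N, hN⟩
    exact ⟨N, fun n hn => by rw [Pi.inv_apply, hN n hn, inv_one]⟩

variable {Y}

/-- inclusion of a factor -/
def iot (n : ℕ) : Y n →* RP Y where
  toFun y := ⟨Pi.mulSingle n y, n + 1, fun m hm => Pi.mulSingle_eq_of_ne (by omega) _⟩
  map_one' := Subtype.ext (Pi.mulSingle_one n)
  map_mul' x y := Subtype.ext (Pi.mulSingle_mul n x y)

/-- projection to a factor -/
def prj (n : ℕ) : RP Y →* Y n := (Pi.evalMonoidHom Y n).comp (RP Y).subtype

@[simp] lemma prj_apply (n : ℕ) (x : RP Y) : prj n x = x.1 n := rfl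

@[simp] lemma iot_same (n : ℕ) (y : Y n) : (iot n y).1 n = y := Pi.mulSingle_eq_same n y

lemma iot_ne {n m : ℕ} (h : m ≠ n) (y : Y n) : (iot n y).1 m = 1 := Pi.mulSingle_eq_of_ne h y

lemma ext_RP {x y : RP Y} (h : ∀ n, x.1 n = y.1 n) : x = y := Subtype.ext (funext h)

lemma iot_comm (n : ℕ) (y : Y n) (x : RP Y) (hx : x.1 n = 1) : iot n y * x = x * iot n y := by
  apply ext_RP
  intro m
  show (iot n y).1 m * x.1 m = x.1 m * (iot n y).1 m
  by_cases h : m = n
  · subst h
    rw [hx, one_mul, mul_one]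
  · rw [iot_ne h, one_mul, mul_one]

lemma iot_split (n : ℕ) (x : RP Y) : ∃ x' : RP Y, x'.1 n = 1 ∧ x = iot n (x.1 n) * x' ∧
    ∀ m, x.1 m = 1 → x'.1 m = 1 := by
  refine ⟨(iot n (x.1 n))⁻¹ * x, ?_, ?_, ?_⟩
  · show ((iot n (x.1 n)).1 n)⁻¹ * x.1 n = 1
    rw [iot_same, inv_mul_cancel]
  · rw [mul_inv_cancel_left]
  · intro m hm
    show ((iot n (x.1 n)).1 m)⁻¹ * x.1 m = 1
    by_cases h : m = n
    · subst h
      rw [iot_same, inv_mul_cancel]
    · rw [iot_ne h, hm, inv_one, one_mul]

lemma mem_of_iot_mem (S : Subgroup (RP Y)) (h : ∀ n y, iot n y ∈ S) : S = ⊤ := by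
  have key : ∀ (N : ℕ) (x : RP Y), (∀ n, N ≤ n → x.1 n = 1) → x ∈ S := by
    intro N
    induction N with
    | zero =>
      intro x hx
      have : x = 1 := ext_RP fun n => hx n (Nat.zero_le _)
      rw [this]
      exact S.one_mem
    | succ N ih =>
      intro x hx
      obtain ⟨x', h1, h2, h3⟩ := iot_split N x
      rw [h2]
      refine S.mul_mem (h N _) (ih x' ?_)
      intro n hn
      rcases hn.eq_or_lt with h4 | h4
      · rw [← h4]; exact h1
      · exact h3 n (hx n h4)
  rw [eq_top_iff]
  intro x _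
  obtain ⟨N, hN⟩ := x.2
  exact key N x hN

theorem hopfian_RP
    (hindec : ∀ (n : ℕ) (N₁ N₂ : Subgroup (Y n)), (∀ a ∈ N₁, ∀ b ∈ N₂, a * b = b * a) →
      (∀ y, ∃ a ∈ N₁, ∃ b ∈ N₂, y = a * b) → N₁ = ⊥ ∨ N₂ = ⊥)
    (hnt : ∀ n, Nontrivial (Y n))
    (hsurj : ∀ (m n : ℕ) (f : Y m →* Y n), Function.Surjective f → m = n)
    (hhopf : ∀ (n : ℕ) (f : Y n →* Y n), Function.Surjective f → Function.Injective f)
    (ψ : RP Y →* RP Y) (hψ : Function.Surjective ψ) : Function.Injective ψ := by
  rw [injective_iff_map_eq_one]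
  intro x hx
  apply ext_RP
  intro n
  let p : RP Y →* Y n := (prj n).comp ψ
  have hp : Function.Surjective p := by
    intro y
    obtain ⟨g, hg⟩ := hψ (iot n y)
    refine ⟨g, ?_⟩
    show (ψ g).1 n = y
    rw [hg, iot_same]
  have key : ∀ m, (∀ y, p (iot m y) = 1) ∨ (∀ x : RP Y, x.1 m = 1 → p x = 1) := by
    intro m
    have hd : (p.comp (iot m)).range = ⊥ ∨ (prj m).ker.map p = ⊥ := by
      apply hindec
      · rintro _ ⟨y, rfl⟩ _ ⟨x, hx, rfl⟩
        show p (iot m y) * p x = p x * p (iot m y)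
        rw [← map_mul, iot_comm m y x hx, map_mul]
      · intro y
        obtain ⟨g, rfl⟩ := hp y
        obtain ⟨g', h1, h2, -⟩ := iot_split m g
        refine ⟨p (iot m (g.1 m)), ⟨_, rfl⟩, p g', Subgroup.mem_map_of_mem p h1, ?_⟩
        rw [← map_mul, ← h2]
    rcases hd with h | h
    · left
      intro y
      have : p (iot m y) ∈ (p.comp (iot m)).range := ⟨y, rfl⟩
      rw [h] at this
      exact this
    · right
      intro x hx
      have : p x ∈ (prj m).ker.map p := Subgroup.mem_map_of_mem p (show prj m x = 1 from hx)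
      rw [h] at this
      exact this
  obtain ⟨m, y₀, hy₀⟩ : ∃ m, ∃ y, p (iot m y) ≠ 1 := by
    by_contra hcon
    push Not at hcon
    have h1 : p.ker = ⊤ := mem_of_iot_mem p.ker hcon
    obtain ⟨y, hy⟩ := exists_ne (1 : Y n)
    obtain ⟨g, hg⟩ := hp y
    apply hy
    rw [← hg]
    have : g ∈ p.ker := by rw [h1]; trivial
    exact this
  have h2 : ∀ x : RP Y, x.1 m = 1 → p x = 1 := by
    rcases key m with h | h
    · exact absurd (h y₀) hy₀
    · exact h
  have h3 : ∀ x : RP Y, p x = p (iot m (x.1 m)) := by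
    intro x
    obtain ⟨x', h4, h5, -⟩ := iot_split m x
    conv_lhs => rw [h5]
    rw [map_mul, h2 x' h4, mul_one]
  have h4 : Function.Surjective (p.comp (iot m)) := by
    intro y
    obtain ⟨g, rfl⟩ := hp y
    exact ⟨g.1 m, (h3 g).symm⟩
  obtain rfl := hsurj m n _ h4
  have h5 := hhopf m _ h4
  have h6 : (p.comp (iot m)) (x.1 m) = 1 := by
    show p (iot m (x.1 m)) = 1
    rw [← h3]
    show (ψ x).1 m = 1
    rw [hx]
    rfl
  exact (injective_iff_map_eq_one _).1 h5 _ h6

end RP

section Glue

variable {Y : ℕ → Type} [∀ n, Group (Y n)] {M : Type} [Monoid M] (f : ∀ n, Y n →* M)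

/-- partial products -/
def PN (x : ∀ n, Y n) : ℕ → M
  | 0 => 1
  | N + 1 => PN x N * f N (x N)

variable {f}

lemma PN_comm (hf : ∀ m n, m ≠ n → ∀ x y, Commute (f m x) (f n y)) (x : ∀ n, Y n) (m : ℕ)
    (y : Y m) : ∀ N, N ≤ m → Commute (PN f x N) (f m y)
  | 0, _ => Commute.one_left _
  | N + 1, h => Commute.mul_left (PN_comm hf x m y N (by omega)) (hf N m (by omega) _ _)

lemma PN_mul (hf : ∀ m n, m ≠ n → ∀ x y, Commute (f m x) (f n y)) (x y : ∀ n, Y n) :
    ∀ N, PN f (x * y) N = PN f x N * PN f y N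
  | 0 => (one_mul 1).symm
  | N + 1 => by
    show PN f (x * y) N * f N (x N * y N) = PN f x N * f N (x N) * (PN f y N * f N (y N))
    rw [PN_mul hf x y N, map_mul]
    have h := (PN_comm hf y N (x N) N le_rfl).eq
    calc PN f x N * PN f y N * (f N (x N) * f N (y N))
        = PN f x N * (PN f y N * f N (x N)) * f N (y N) := by simp only [mul_assoc]
      _ = PN f x N * (f N (x N) * PN f y N) * f N (y N) := by rw [h]
      _ = _ := by simp only [mul_assoc]

lemma PN_stable (x : ∀ n, Y n) (N : ℕ) (hx : ∀ n, N ≤ n → x n = 1) :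
    ∀ M, N ≤ M → PN f x M = PN f x N := by
  intro M hM
  induction M, hM using Nat.le_induction with
  | base => rfl
  | succ M hM ih =>
    show PN f x M * f M (x M) = _
    rw [hx M hM, map_one, mul_one, ih]

lemma PN_eq (x : ∀ n, Y n) (N N' : ℕ) (hx : ∀ n, N ≤ n → x n = 1) (hx' : ∀ n, N' ≤ n → x n = 1) :
    PN f x N = PN f x N' := by
  rcases le_total N N' with h | h
  · exact (PN_stable x N hx N' h).symm
  · exact PN_stable x N' hx' N h

/-- The homomorphism from the restricted product determined by commuting homomorphisms. -/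
noncomputable def glue (hf : ∀ m n, m ≠ n → ∀ x y, Commute (f m x) (f n y)) : RP Y →* M where
  toFun x := PN f x.1 x.2.choose
  map_one' := by
    show PN f (1 : ∀ n, Y n) _ = 1
    rw [PN_eq (f := f) (1 : ∀ n, Y n) _ 0 (fun n _ => rfl) (fun n _ => rfl)]
    rfl
  map_mul' x y := by
    have hx := x.2.choose_spec
    have hy := y.2.choose_spec
    have hxy := (x * y).2.choose_spec
    show PN f (x * y).1 _ = PN f x.1 _ * PN f y.1 _
    have e1 : ∀ n, max x.2.choose y.2.choose ≤ n → x.1 n = 1 := fun n hn =>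
      hx n (le_trans (le_max_left _ _) hn)
    have e2 : ∀ n, max x.2.choose y.2.choose ≤ n → y.1 n = 1 := fun n hn =>
      hy n (le_trans (le_max_right _ _) hn)
    have e3 : ∀ n, max x.2.choose y.2.choose ≤ n → (x * y).1 n = 1 := fun n hn => by
      show x.1 n * y.1 n = 1
      rw [e1 n hn, e2 n hn, one_mul]
    rw [PN_eq (f := f) _ _ _ hxy e3, PN_eq (f := f) _ _ _ hx e1, PN_eq (f := f) _ _ _ hy e2]
    exact PN_mul hf x.1 y.1 _

lemma glue_iot (hf : ∀ m n, m ≠ n → ∀ x y, Commute (f m x) (f n y)) (n : ℕ) (y : Y n) :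
    glue hf (iot n y) = f n y := by
  show PN f (iot n y).1 _ = _
  have h1 := (iot n y).2.choose_spec
  rw [PN_eq (f := f) _ _ (n + 1) h1 (fun m hm => iot_ne (by omega) y)]
  show PN f (iot n y).1 n * f n ((iot n y).1 n) = f n y
  have h2 : ∀ N, N ≤ n → PN f (iot n y).1 N = 1 := by
    intro N
    induction N with
    | zero => intro _; rfl
    | succ N ih =>
      intro hN
      show PN f (iot n y).1 N * f N ((iot n y).1 N) = 1
      rw [ih (by omega), iot_ne (by omega), map_one, one_mul]
  rw [h2 n le_rfl, iot_same, one_mul]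

end Glue

section RingMap

open MonoidAlgebra

variable {Y : ℕ → Type} [∀ n, Group (Y n)]

lemma commute_map_iot {m n : ℕ} (h : m ≠ n) (a : MonoidAlgebra ℤ (Y m))
    (b : MonoidAlgebra ℤ (Y n)) :
    Commute (mapDomainRingHom ℤ (iot m) a) (mapDomainRingHom ℤ (iot n) b) := by
  induction a using MonoidAlgebra.induction_on with
  | of y =>
    induction b using MonoidAlgebra.induction_on with
    | of z =>
      show _ * _ = _ * _
      simp only [of_apply, mapDomainRingHom_apply, mapDomain_single, single_mul_single, mul_one]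
      rw [iot_comm]
      exact iot_ne h z
    | add x y hx hy => rw [map_add]; exact hx.add_right hy
    | smul r x hx =>
      rw [map_zsmul]
      show _ * (r • _) = (r • _) * _
      rw [mul_smul_comm, smul_mul_assoc, hx.eq]
  | add x y hx hy => rw [map_add]; exact hx.add_left hy
  | smul r x hx =>
    rw [map_zsmul]
    show (r • _) * _ = _ * (r • _)
    rw [mul_smul_comm, smul_mul_assoc, hx.eq]

/-- If `ℤ[Y_{n+1}]` maps onto `ℤ[Y_n]` for all `n`, then the group ring of the restricted product
is not Hopfian. -/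
theorem ring_not_hopfian (τ : ∀ n, Y (n + 1) →* MonoidAlgebra ℤ (Y n))
    (hτ : ∀ n, Function.Surjective (lift ℤ (MonoidAlgebra ℤ (Y n)) (Y (n + 1)) (τ n)))
    (h0 : Nontrivial (Y 0)) :
    ∃ φ : MonoidAlgebra ℤ (RP Y) →+* MonoidAlgebra ℤ (RP Y),
      Function.Surjective φ ∧ ¬ Function.Injective φ := by
  let f : ∀ n, Y n →* MonoidAlgebra ℤ (RP Y) := fun n => match n with
    | 0 => 1
    | n + 1 => ((mapDomainRingHom ℤ (iot (Y := Y) n)) :
        MonoidAlgebra ℤ (Y n) →* MonoidAlgebra ℤ (RP Y)).comp (τ n)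
  have hf : ∀ m n, m ≠ n → ∀ x y, Commute (f m x) (f n y) := by
    intro m n hmn x y
    cases m with
    | zero => exact Commute.one_left _
    | succ m =>
      cases n with
      | zero => exact Commute.one_right _
      | succ n => exact commute_map_iot (by omega) _ _
  let φ : MonoidAlgebra ℤ (RP Y) →+* MonoidAlgebra ℤ (RP Y) :=
    (lift ℤ (MonoidAlgebra ℤ (RP Y)) (RP Y) (glue hf)).toRingHom
  have hφ : ∀ g, φ (single g 1) = glue hf g := by
    intro g
    show lift ℤ _ _ _ (single g 1) = _
    rw [lift_single, one_smul]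
  refine ⟨φ, ?_, ?_⟩
  · have h1 : ∀ n (a : MonoidAlgebra ℤ (Y n)), mapDomainRingHom ℤ (iot n) a ∈ φ.range := by
      intro n a
      obtain ⟨b, rfl⟩ := hτ n a
      refine ⟨mapDomainRingHom ℤ (iot (n + 1)) b, ?_⟩
      induction b using MonoidAlgebra.induction_on with
      | of z =>
        simp only [of_apply, mapDomainRingHom_apply, mapDomain_single, lift_single, one_smul]
        rw [hφ, glue_iot]
        rfl
      | add x y hx hy => simp only [map_add, hx, hy]
      | smul r x hx =>
        rw [map_zsmul, map_zsmul, map_zsmul, map_zsmul, hx]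
    have h2 : ∀ g : RP Y, single g (1 : ℤ) ∈ φ.range := by
      let S : Subgroup (RP Y) :=
        { carrier := {g | single g (1 : ℤ) ∈ φ.range ∧ single g⁻¹ (1 : ℤ) ∈ φ.range}
          one_mem' := by
            constructor
            · exact φ.range.one_mem
            · rw [inv_one]; exact φ.range.one_mem
          mul_mem' := by
            rintro a b ⟨ha, ha'⟩ ⟨hb, hb'⟩
            constructor
            · have := φ.range.mul_mem ha hb
              rwa [single_mul_single, mul_one] at this
            · have := φ.range.mul_mem hb' ha'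
              rw [single_mul_single, mul_one] at this
              rwa [mul_inv_rev]
          inv_mem' := by
            rintro a ⟨ha, ha'⟩
            exact ⟨ha', by rwa [inv_inv]⟩ }
      have hS : S = ⊤ := by
        apply mem_of_iot_mem
        intro n y
        constructor
        · have := h1 n (single y 1)
          rwa [mapDomainRingHom_apply, mapDomain_single] at this
        · have := h1 n (single y⁻¹ 1)
          rwa [mapDomainRingHom_apply, mapDomain_single, map_inv] at this
      intro g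
      have : g ∈ S := by rw [hS]; trivial
      exact this.1
    intro a
    have h3 : a ∈ φ.range := by
      induction a using MonoidAlgebra.induction_on with
      | of z => exact h2 z
      | add x y hx hy => exact φ.range.add_mem hx hy
      | smul r x hx => exact φ.range.zsmul_mem hx r
    exact h3
  · intro hinj
    obtain ⟨y, hy⟩ := exists_ne (1 : Y 0)
    have h1 : φ (single (iot 0 y) 1) = φ (single 1 1) := by
      rw [hφ, hφ, glue_iot, map_one]
      rfl
    have h2 := hinj h1
    have h3 : iot (Y := Y) 0 y = 1 := of_injective (R := ℤ) h2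
    apply hy
    have := congrArg (fun x : RP Y => x.1 0) h3
    simpa using this

end RingMap

end Pool.Agent.HopfZG
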