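import Mathlib
import Pool.Agent.Lib_helper96.HopfSum

set_option autoImplicit false

namespace Pool.Agent.HopfZG

open SemidirectProduct MonoidAlgebra

section General

variable {G : Type} [Group G]

/-- group elements as units of the group ring -/
noncomputable def ofU : G →* (MonoidAlgebra ℤ G)ˣ :=
  (Units.map (MonoidAlgebra.of ℤ G)).comp (toUnits (G := G)).toMonoidHom

@[simp] lemma coe_ofU (g : G) : ((ofU g : (MonoidAlgebra ℤ G)ˣ) : MonoidAlgebra ℤ G)
    = single g 1 := rfl

/-- A subring of the group ring containing generators of the group (and their inverses) is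
everything. -/
lemma subring_eq_top (R : Subring (MonoidAlgebra ℤ G)) (S : Set G)
    (hS : Subgroup.closure S = ⊤) (h : ∀ g ∈ S, single g (1 : ℤ) ∈ R ∧ single g⁻¹ (1 : ℤ) ∈ R)
    (a : MonoidAlgebra ℤ G) : a ∈ R := by
  let T : Subgroup G :=
    { carrier := {g | single g (1 : ℤ) ∈ R ∧ single g⁻¹ (1 : ℤ) ∈ R}
      one_mem' := by
        constructor
        · exact R.one_mem
        · rw [inv_one]; exact R.one_mem
      mul_mem' := by
        rintro a b ⟨ha, ha'⟩ ⟨hb, hb'⟩
        constructor
        · have := R.mul_mem ha hb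
          rwa [single_mul_single, mul_one] at this
        · have := R.mul_mem hb' ha'
          rw [single_mul_single, mul_one] at this
          rwa [mul_inv_rev]
      inv_mem' := by
        rintro a ⟨ha, ha'⟩
        exact ⟨ha', by rwa [inv_inv]⟩ }
  have hT : T = ⊤ := by
    rw [eq_top_iff, ← hS, Subgroup.closure_le]
    exact h
  induction a using MonoidAlgebra.induction_on with
  | of z =>
    have : z ∈ T := by rw [hT]; trivial
    exact this.1
  | add x y hx hy => exact R.add_mem hx hy
  | smul r x hx => exact R.zsmul_mem hx r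

end General

section Ring

variable {V : ℕ → Bool → Type} [∀ j b, CommGroup (V j b)]
  {Γ : ℕ → Type} [∀ j, Group (Γ j)]
  {α : ∀ j b, Γ j →* MulAut (V j b)} {θ : ∀ j b, MulAut (V j b)}

variable (α) in
/-- action of `Γ_j` on `V_j` -/
def actA (j : ℕ) : Γ j →* MulAut (∀ b, V j b) :=
  (piAut (fun b => V j b)).comp (MonoidHom.pi fun b => α j b)

@[simp] lemma actA_apply (j : ℕ) (γ : Γ j) (c : ∀ b, V j b) (b : Bool) :
    actA α j γ c b = α j b γ (c b) := rfl

/-- restriction of the index set -/
def resC (n : ℕ) : CC V (n + 1) →* CC V n where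
  toFun c := fun j => c (Fin.castSucc j)
  map_one' := rfl
  map_mul' _ _ := rfl

def resK (n : ℕ) : KK Γ (n + 1) →* KK Γ n where
  toFun c := fun j => c (Fin.castSucc j)
  map_one' := rfl
  map_mul' _ _ := rfl

lemma resC_surjective (n : ℕ) : Function.Surjective (resC (V := V) n) := by
  intro c
  refine ⟨Fin.snoc (α := fun j : Fin (n + 2) => ∀ b : Bool, V j b) c 1, ?_⟩
  funext j
  exact Fin.snoc_castSucc (α := fun j : Fin (n + 2) => ∀ b : Bool, V j b) 1 c j

lemma resK_surjective (n : ℕ) : Function.Surjective (resK (Γ := Γ) n) := by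
  intro c
  refine ⟨Fin.snoc (α := fun j : Fin (n + 2) => Γ j) c 1, ?_⟩
  funext j
  exact Fin.snoc_castSucc (α := fun j : Fin (n + 2) => Γ j) 1 c j

variable (α θ) in
/-- embedding of `V_n ⋊ Γ_n` into `Y_n` -/
def emb (n : ℕ) : (∀ b, V n b) ⋊[actA α n] Γ n →* YY α θ n :=
  SemidirectProduct.map (MonoidHom.mulSingle (fun j : Fin (n + 1) => ∀ b : Bool, V j b)
      (Fin.last n))
    (inr.comp (MonoidHom.mulSingle (fun j : Fin (n + 1) => Γ j) (Fin.last n))) (by
      intro γ
      refine MonoidHom.ext fun w => ?_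
      show Pi.mulSingle (Fin.last n) (actA α n γ w)
        = rho α θ n (inr (Pi.mulSingle (Fin.last n) γ)) (Pi.mulSingle (Fin.last n) w)
      funext j b
      rw [rho_apply, rhoc_inr]
      by_cases hj : j = Fin.last n
      · subst hj
        rw [Pi.mulSingle_eq_same, Pi.mulSingle_eq_same, Pi.mulSingle_eq_same]
        rfl
      · rw [Pi.mulSingle_eq_of_ne hj, Pi.mulSingle_eq_of_ne hj, Pi.mulSingle_eq_of_ne hj,
          map_one, MulAut.one_apply])

lemma emb_inl (n : ℕ) (w : ∀ b, V n b) :
    emb α θ n (inl w) = inl (Pi.mulSingle (Fin.last n) w) := by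
  simp [emb]

lemma emb_inr (n : ℕ) (γ : Γ n) :
    emb α θ n (inr γ) = inr (inr (Pi.mulSingle (Fin.last n) γ)) := by
  simp [emb]

/-- elements of `C_n` with trivial last coordinate commute with `V_n ⋊ Γ_n` -/
lemma emb_comm (n : ℕ) (a : (∀ b, V n b) ⋊[actA α n] Γ n) (c : CC V n)
    (hc : c (Fin.last n) = 1) : emb α θ n a * inl c = inl c * emb α θ n a := by
  rw [← inl_left_mul_inr_right a, map_mul, emb_inl, emb_inr]
  have h1 : rho α θ n (inr (Pi.mulSingle (Fin.last n) a.right)) c = c := by
    funext j b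
    rw [rho_apply, rhoc_inr]
    by_cases hj : j = Fin.last n
    · subst hj
      rw [hc, Pi.one_apply, map_one]
    · rw [Pi.mulSingle_eq_of_ne hj, map_one, MulAut.one_apply]
  have h2 : (inr (inr (Pi.mulSingle (Fin.last n) a.right)) : YY α θ n) * inl c
      = inl c * inr (inr (Pi.mulSingle (Fin.last n) a.right)) := by
    have h3 := inl_aut (φ := rho α θ n) (inr (Pi.mulSingle (Fin.last n) a.right)) c
    rw [h1, map_inv] at h3
    exact (eq_mul_inv_iff_mul_eq.1 h3).symm
  rw [mul_assoc, h2, ← mul_assoc, ← mul_assoc, ← map_mul inl, ← map_mul inl, mul_comm]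

/-- The hypothesis on units. -/
def HasUnits (α : ∀ j b, Γ j →* MulAut (V j b)) (θ : ∀ j b, MulAut (V j b)) : Prop :=
  ∀ n, ∃ u : (MonoidAlgebra ℤ ((∀ b, V n b) ⋊[actA α n] Γ n))ˣ, ∀ c : ∀ b, V n b,
    u.1 * single (inl c) 1 = single (inl fun b => θ n b (c b)) 1 * u.1

lemma exists_unit (hU : HasUnits α θ) (n : ℕ) :
    ∃ U : (MonoidAlgebra ℤ (YY α θ n))ˣ,
      (∃ u : (MonoidAlgebra ℤ ((∀ b, V n b) ⋊[actA α n] Γ n))ˣ,
        U = Units.map (mapDomainRingHom ℤ (emb α θ n)) u) ∧
      ∀ c : CC V n, U * ofU (inl c) = ofU (inl (rho α θ n rr c)) * U := by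
  obtain ⟨u, hu⟩ := hU n
  refine ⟨Units.map (mapDomainRingHom ℤ (emb α θ n)) u, ⟨u, rfl⟩, ?_⟩
  intro c
  apply Units.ext
  show mapDomainRingHom ℤ (emb α θ n) u.1 * single (inl c) 1
    = single (inl (rho α θ n rr c)) 1 * mapDomainRingHom ℤ (emb α θ n) u.1
  obtain ⟨c', hc1, hc2⟩ : ∃ c' : CC V n, c' (Fin.last n) = 1 ∧
      c = Pi.mulSingle (Fin.last n) (c (Fin.last n)) * c' := by
    refine ⟨(Pi.mulSingle (Fin.last n) (c (Fin.last n)))⁻¹ * c, ?_, ?_⟩
    · rw [Pi.mul_apply, Pi.inv_apply, Pi.mulSingle_eq_same, inv_mul_cancel]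
    · rw [mul_inv_cancel_left]
  have hc3 : rho α θ n rr c
      = Pi.mulSingle (Fin.last n) (fun b => θ n b (c (Fin.last n) b)) * c' := by
    funext j b
    rw [rho_apply, Pi.mul_apply, Pi.mul_apply]
    by_cases hj : j = Fin.last n
    · subst hj
      rw [rhoc_rr_last, Pi.mulSingle_eq_same, hc1, Pi.one_apply, mul_one]
    · rw [rhoc_rr_ne _ _ _ _ _ (fun h => hj (Fin.ext h)), Pi.mulSingle_eq_of_ne hj,
        MulAut.one_apply, Pi.one_apply, one_mul]
      conv_lhs => rw [hc2]
      rw [Pi.mul_apply, Pi.mulSingle_eq_of_ne hj, one_mul]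
  have h1 : ∀ a : MonoidAlgebra ℤ ((∀ b, V n b) ⋊[actA α n] Γ n),
      mapDomainRingHom ℤ (emb α θ n) a * single (inl c') 1
        = single (inl c') 1 * mapDomainRingHom ℤ (emb α θ n) a := by
    intro a
    induction a using MonoidAlgebra.induction_on with
    | of z =>
      simp only [of_apply, mapDomainRingHom_apply, mapDomain_single, single_mul_single, mul_one]
      rw [emb_comm n z c' hc1]
    | add x y hx hy => rw [map_add, add_mul, mul_add, hx, hy]
    | smul r x hx => rw [map_zsmul, smul_mul_assoc, mul_smul_comm, hx]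
  have h2 : ∀ w : ∀ b, V n b, (single (inl (Pi.mulSingle (Fin.last n) w)) 1 :
      MonoidAlgebra ℤ (YY α θ n)) = mapDomainRingHom ℤ (emb α θ n) (single (inl w) 1) := by
    intro w
    rw [mapDomainRingHom_apply, mapDomain_single, emb_inl]
  have h3 : (single (inl c) 1 : MonoidAlgebra ℤ (YY α θ n))
      = mapDomainRingHom ℤ (emb α θ n) (single (inl (c (Fin.last n))) 1) * single (inl c') 1 := by
    rw [← h2, single_mul_single, mul_one, ← map_mul, ← hc2]
  have h4 : (single (inl (rho α θ n rr c)) 1 : MonoidAlgebra ℤ (YY α θ n))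
      = mapDomainRingHom ℤ (emb α θ n) (single (inl fun b => θ n b (c (Fin.last n) b)) 1)
        * single (inl c') 1 := by
    rw [← h2, single_mul_single, mul_one, ← map_mul, ← hc3]
  rw [h3, h4, ← mul_assoc, ← map_mul, hu, map_mul, mul_assoc, h1, ← mul_assoc]

lemma mul_conj_eq {M : Type} [Group M] {a b c d : M} (h : a * b = c * a)
    (hd : d = a⁻¹ * (c * a)) : d = b := by
  rw [hd, ← h, inv_mul_cancel_left]

/-- The homomorphism `Y_{n+1} → ℤ[Y_n]ˣ`. -/
noncomputable def tau (n : ℕ) (U : (MonoidAlgebra ℤ (YY α θ n))ˣ)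
    (hU : ∀ c : CC V n, U * ofU (inl c) = ofU (inl (rho α θ n rr c)) * U) :
    YY α θ (n + 1) →* (MonoidAlgebra ℤ (YY α θ n))ˣ :=
  SemidirectProduct.lift ((ofU.comp inl).comp (resC n))
    (liftH ((ofU.comp (inr.comp inr)).comp (resK n)) (U⁻¹ * ofU (inr rr))) (by
      intro g
      refine MonoidHom.ext fun c => ?_
      show ofU (inl (resC n (rho α θ (n + 1) g c)))
        = liftH ((ofU.comp (inr.comp inr)).comp (resK n)) (U⁻¹ * ofU (inr rr)) g
          * ofU (inl (resC n c))
          * (liftH ((ofU.comp (inr.comp inr)).comp (resK n)) (U⁻¹ * ofU (inr rr)) g)⁻¹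
      set F := liftH ((ofU.comp (inr.comp inr)).comp (resK n)) (U⁻¹ * ofU (inr rr)) with hF
      let S : Subgroup (FH (KK Γ (n + 1))) :=
        { carrier := {g | ∀ c, ofU (inl (resC n (rho α θ (n + 1) g c)))
            = F g * ofU (inl (resC n c)) * (F g)⁻¹}
          one_mem' := by
            intro c
            rw [map_one, map_one, MulAut.one_apply, one_mul, inv_one, mul_one]
          mul_mem' := by
            intro a b ha hb c
            rw [map_mul, map_mul, MulAut.mul_apply, ha, hb, mul_inv_rev]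
            simp only [mul_assoc]
          inv_mem' := by
            intro a ha c
            have h1 := ha ((rho α θ (n + 1) a)⁻¹ c)
            rw [← MulAut.mul_apply, mul_inv_cancel, MulAut.one_apply] at h1
            rw [map_inv, map_inv, h1]
            group }
      have hS : S = ⊤ := by
        apply subgroup_eq_top
        · intro k c
          rw [hF, liftH_inr]
          have h1 : resC n (rho α θ (n + 1) (inr k) c)
              = rho α θ n (inr (resK n k)) (resC n c) := by
            funext j b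
            show rho α θ (n + 1) (inr k) c (Fin.castSucc j) b = _
            rw [rho_apply, rho_apply, rhoc_inr, rhoc_inr]
            rfl
          rw [h1, inl_aut, map_mul, map_mul, map_inv inr, map_inv]
          rfl
        · intro c
          rw [hF, liftH_rr]
          have h1 : resC n (rho α θ (n + 1) rr c) = resC n c := by
            funext j b
            show rho α θ (n + 1) rr c (Fin.castSucc j) b = _
            have hj : ((Fin.castSucc j : Fin (n + 2)) : ℕ) ≠ n + 1 := by
              have := j.2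
              rw [Fin.val_castSucc]
              omega
            rw [rho_apply, rhoc_rr_ne _ _ _ _ _ hj]
            rfl
          have h2 := hU (resC n c)
          rw [inl_aut, map_mul, map_mul, map_inv inr, map_inv] at h2
          rw [h1]
          refine (mul_conj_eq h2 ?_).symm
          group
      have : g ∈ S := by rw [hS]; trivial
      exact this c)

theorem tau_surjective (n : ℕ) (U : (MonoidAlgebra ℤ (YY α θ n))ˣ)
    (hu : ∃ u : (MonoidAlgebra ℤ ((∀ b, V n b) ⋊[actA α n] Γ n))ˣ,
        U = Units.map (mapDomainRingHom ℤ (emb α θ n)) u)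
    (hU : ∀ c : CC V n, U * ofU (inl c) = ofU (inl (rho α θ n rr c)) * U) :
    Function.Surjective (MonoidAlgebra.lift ℤ (MonoidAlgebra ℤ (YY α θ n)) (YY α θ (n + 1))
      ((Units.coeHom (MonoidAlgebra ℤ (YY α θ n))).comp (tau n U hU))) := by
  set L := MonoidAlgebra.lift ℤ (MonoidAlgebra ℤ (YY α θ n)) (YY α θ (n + 1))
      ((Units.coeHom (MonoidAlgebra ℤ (YY α θ n))).comp (tau n U hU)) with hL
  let R : Subring (MonoidAlgebra ℤ (YY α θ n)) := L.toRingHom.range
  have hR : ∀ y, ((tau n U hU y : (MonoidAlgebra ℤ (YY α θ n))ˣ) :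
      MonoidAlgebra ℤ (YY α θ n)) ∈ R := by
    intro y
    refine ⟨single y 1, ?_⟩
    show L (single y 1) = _
    rw [hL, lift_single, one_smul]
    rfl
  have hC : ∀ c : CC V n, single (inl c) (1 : ℤ) ∈ R := by
    intro c
    obtain ⟨c', rfl⟩ := resC_surjective n c
    have := hR (inl c')
    rw [tau, SemidirectProduct.lift_inl] at this
    exact this
  have hK : ∀ k : KK Γ n, single (inr (inr k)) (1 : ℤ) ∈ R := by
    intro k
    obtain ⟨k', rfl⟩ := resK_surjective n k
    have := hR (inr (inr k'))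
    rw [tau, SemidirectProduct.lift_inr, liftH_inr] at this
    exact this
  have hA : ∀ a : MonoidAlgebra ℤ ((∀ b, V n b) ⋊[actA α n] Γ n),
      mapDomainRingHom ℤ (emb α θ n) a ∈ R := by
    intro a
    induction a using MonoidAlgebra.induction_on with
    | of z =>
      have e : mapDomainRingHom ℤ (emb α θ n) (of ℤ _ z)
          = single (inl (Pi.mulSingle (Fin.last n) z.left)) 1
            * single (inr (inr (Pi.mulSingle (Fin.last n) z.right))) 1 := by
        rw [of_apply, mapDomainRingHom_apply, mapDomain_single, single_mul_single, mul_one,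
          ← emb_inl, ← emb_inr, ← map_mul, inl_left_mul_inr_right]
      rw [e]
      exact R.mul_mem (hC _) (hK _)
    | add x y hx hy => rw [map_add]; exact R.add_mem hx hy
    | smul r x hx => rw [map_zsmul]; exact R.zsmul_mem hx r
  obtain ⟨u, hu⟩ := hu
  have hU1 : (U : MonoidAlgebra ℤ (YY α θ n)) ∈ R := by
    rw [hu]
    exact hA u.1
  have hU2 : ((U⁻¹ : (MonoidAlgebra ℤ (YY α θ n))ˣ) : MonoidAlgebra ℤ (YY α θ n)) ∈ R := by
    rw [hu, ← map_inv]
    exact hA (u⁻¹).1
  have hr1 : single (inr rr : YY α θ n) (1 : ℤ) ∈ R := by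
    have h1 := hR (inr rr)
    rw [tau, SemidirectProduct.lift_inr, liftH_rr] at h1
    have h2 := R.mul_mem hU1 h1
    rw [← Units.val_mul, mul_inv_cancel_left] at h2
    exact h2
  have hr2 : single ((inr rr : YY α θ n)⁻¹) (1 : ℤ) ∈ R := by
    have h1 := hR (inr rr)⁻¹
    rw [map_inv, tau, SemidirectProduct.lift_inr, liftH_rr, mul_inv_rev, inv_inv] at h1
    have h2 := R.mul_mem h1 hU2
    rw [← Units.val_mul, mul_inv_cancel_right, ← map_inv] at h2
    exact h2
  intro a
  have ha : a ∈ R := by
    let S : Set (YY α θ n) := Set.range inl ∪ Set.range (fun k : KK Γ n => inr (inr k)) ∪ {inr rr}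
    refine subring_eq_top R S ?_ ?_ a
    · rw [eq_top_iff]
      intro y _
      rw [← inl_left_mul_inr_right y]
      refine Subgroup.mul_mem _ (Subgroup.subset_closure (Or.inl (Or.inl ⟨_, rfl⟩))) ?_
      have h1 : (Subgroup.closure S).comap (inr : FH (KK Γ n) →* YY α θ n) = ⊤ := by
        apply subgroup_eq_top
        · intro k
          exact Subgroup.subset_closure (Or.inl (Or.inr ⟨k, rfl⟩))
        · exact Subgroup.subset_closure (Or.inr rfl)
      have h2 : y.right ∈ (Subgroup.closure S).comap (inr : FH (KK Γ n) →* YY α θ n) := by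
        rw [h1]; trivial
      exact h2
    · rintro g ((⟨c, rfl⟩ | ⟨k, rfl⟩) | rfl)
      · exact ⟨hC c, by rw [← map_inv]; exact hC _⟩
      · refine ⟨hK k, ?_⟩
        have := hK k⁻¹
        rwa [map_inv, map_inv] at this
      · exact ⟨hr1, hr2⟩
  exact ha

/-- The group ring of the restricted product of all `Y_n` is not Hopfian. -/
theorem ring_side (hG : Good α θ) (hU : HasUnits α θ) :
    ∃ φ : MonoidAlgebra ℤ (RP (fun n => YY α θ n)) →+* MonoidAlgebra ℤ (RP (fun n => YY α θ n)),
      Function.Surjective φ ∧ ¬ Function.Injective φ := by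
  have h1 := fun n => exists_unit hU n
  choose U hu hc using h1
  refine ring_not_hopfian (Y := fun n => YY α θ n)
    (fun n => (Units.coeHom _).comp (tau n (U n) (hc n)))
    (fun n => tau_surjective n (U n) (hu n) (hc n)) ?_
  have := nontrivial_KK hG 0
  obtain ⟨k, hk⟩ := exists_ne (1 : KK Γ 0)
  refine ⟨⟨inr (inr k), 1, ?_⟩⟩
  intro h
  exact hk (inr_injective (inr_injective (h.trans (by rw [map_one, map_one]))))

theorem group_side [∀ j b, Finite (V j b)] [∀ j, Finite (Γ j)] (hG : Good α θ)
    (f : RP (fun n => YY α θ n) →* RP (fun n => YY α θ n)) (hf : Function.Surjective f) :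
    Function.Injective f := by
  refine hopfian_RP ?_ ?_ ?_ ?_ f hf
  · intro n N₁ N₂ h1 h2
    have := nontrivial_KK hG n
    exact indec (fix_CC hG n) N₁ N₂ h1 h2
  · intro n
    have := nontrivial_KK hG n
    obtain ⟨k, hk⟩ := exists_ne (1 : KK Γ n)
    refine ⟨⟨inr (inr k), 1, ?_⟩⟩
    intro h
    exact hk (inr_injective (inr_injective (h.trans (by rw [map_one, map_one]))))
  · intro m n f hf
    exact surj_eq f hG hf
  · intro n f hf
    exact hopfian_Y _ f hf

end Ring

end Pool.Agent.HopfZG
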