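import Mathlib
import Pool.Agent.Lib_helper96.HopfRing

set_option autoImplicit false

namespace Pool.Agent.HopfZG

open SemidirectProduct Multiplicative

/-- The homomorphism `ℤ/8 → G` determined by an element with `σ ^ 8 = 1`. -/
def zpow8 {G : Type} [Group G] (σ : G) (h : σ ^ 8 = 1) : Multiplicative (ZMod 8) →* G where
  toFun k := σ ^ (toAdd k).val
  map_one' := by simp
  map_mul' a b := by
    rw [← pow_add, toAdd_mul, ZMod.val_add, ← pow_eq_pow_mod _ h]

/-- the automorphism of the unit group induced by a ring automorphism -/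
def uAut (F : Type) [Field F] : RingAut F →* MulAut Fˣ where
  toFun σ := Units.mapEquiv (σ : F ≃* F)
  map_one' := by ext x; rfl
  map_mul' σ τ := by ext x; rfl

@[simp] lemma coe_uAut (F : Type) [Field F] (σ : RingAut F) (x : Fˣ) :
    ((uAut F σ x : Fˣ) : F) = σ x := rfl

/-- the automorphism of the additive group (written multiplicatively) -/
def autV (F : Type) [Field F] : RingAut F →* MulAut (Multiplicative F) where
  toFun σ := AddEquiv.toMultiplicative (σ : F ≃+ F)
  map_one' := by ext x; rfl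
  map_mul' σ τ := by ext x; rfl

@[simp] lemma autV_apply (F : Type) [Field F] (σ : RingAut F) (x : F) :
    autV F σ (ofAdd x) = ofAdd (σ x) := rfl

/-- multiplication by units -/
def mulU (F : Type) [Field F] : Fˣ →* MulAut (Multiplicative F) where
  toFun n :=
    { toFun := fun v => ofAdd (n * toAdd v)
      invFun := fun v => ofAdd ((n⁻¹ : Fˣ) * toAdd v)
      left_inv := fun v => by simp
      right_inv := fun v => by simp
      map_mul' := fun v w => by simp [mul_add] }
  map_one' := by ext x; simp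
  map_mul' m n := by
    ext x
    simp [mul_assoc]

@[simp] lemma mulU_apply (F : Type) [Field F] (n : Fˣ) (x : F) :
    mulU F n (ofAdd x) = ofAdd (n * x) := rfl

section Gam

variable {F : Bool → Type} [∀ b, Field (F b)] (φ : ∀ b, RingAut (F b)) (h8 : ∀ b, φ b ^ 8 = 1)

/-- the action of `ℤ/8` on the unit groups -/
def actQ : Multiplicative (ZMod 8) →* MulAut (∀ b, (F b)ˣ) :=
  (piAut (fun b => (F b)ˣ)).comp (MonoidHom.pi fun b => (uAut (F b)).comp (zpow8 (φ b) (h8 b)))

/-- The group `Γ`. -/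
abbrev Gam : Type := (∀ b, (F b)ˣ) ⋊[actQ φ h8] Multiplicative (ZMod 8)

/-- The action of `Γ` on the coordinate `b`. -/
def afc (b : Bool) : Gam φ h8 →* MulAut (Multiplicative (F b)) :=
  SemidirectProduct.lift ((mulU (F b)).comp (Pi.evalMonoidHom (fun b => (F b)ˣ) b))
    ((autV (F b)).comp (zpow8 (φ b) (h8 b))) (by
      intro k
      refine MonoidHom.ext fun n => ?_
      ext x
      show _ = (autV (F b) (zpow8 (φ b) (h8 b) k) * mulU (F b) (n b)
        * (autV (F b) (zpow8 (φ b) (h8 b) k))⁻¹) x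
      set σ := zpow8 (φ b) (h8 b) k with hσ
      rw [← map_inv]
      show (σ (n b : F b)) * toAdd x = σ ((n b : F b) * (σ⁻¹ (toAdd x)))
      rw [map_mul]
      congr 1
      show toAdd x = (σ * σ⁻¹) (toAdd x)
      rw [mul_inv_cancel]
      rfl)

lemma afc_apply (b : Bool) (g : Gam φ h8) (x : F b) :
    afc φ h8 b g (ofAdd x) = ofAdd (g.left b * (φ b ^ (toAdd g.right).val) x) := rfl

end Gam

/-- the two characteristics -/
def pr : Bool → ℕ
  | true => 11
  | false => 7

instance (b : Bool) : Fact (pr b).Prime := ⟨by cases b <;> (unfold pr; norm_num)⟩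

lemma mod11 (j : ℕ) : 7 ^ (8 * 2 ^ j) % 11 = 9 ∨ 7 ^ (8 * 2 ^ j) % 11 = 4 ∨
    7 ^ (8 * 2 ^ j) % 11 = 5 ∨ 7 ^ (8 * 2 ^ j) % 11 = 3 := by
  induction j with
  | zero => left; norm_num
  | succ j ih =>
    have e : 7 ^ (8 * 2 ^ (j + 1)) % 11 = (7 ^ (8 * 2 ^ j) % 11) ^ 2 % 11 := by
      rw [← Nat.pow_mod, ← pow_mul]
      congr 2
      ring
    rw [e]
    rcases ih with h | h | h | h <;> rw [h] <;> norm_num

lemma mod7 (j : ℕ) : 11 ^ (8 * 2 ^ j) % 7 = 2 ∨ 11 ^ (8 * 2 ^ j) % 7 = 4 := by
  induction j with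
  | zero => left; norm_num
  | succ j ih =>
    have e : 11 ^ (8 * 2 ^ (j + 1)) % 7 = (11 ^ (8 * 2 ^ j) % 7) ^ 2 % 7 := by
      rw [← Nat.pow_mod, ← pow_mul]
      congr 2
      ring
    rw [e]
    rcases ih with h | h <;> rw [h] <;> norm_num

lemma pr_cop (b b' : Bool) (j : ℕ) : (pr b).Coprime (pr b' ^ (8 * 2 ^ j) - 1) := by
  have hpos : 1 ≤ pr b' ^ (8 * 2 ^ j) := Nat.one_le_pow _ _ (by cases b' <;> simp [pr])
  rw [Nat.Prime.coprime_iff_not_dvd (Fact.out)]
  intro h
  have h2 : 8 * 2 ^ j ≠ 0 := by positivity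
  cases b <;> cases b'
  · simp only [pr] at *
    have h3 : 7 ∣ 7 ^ (8 * 2 ^ j) := dvd_pow_self 7 h2
    omega
  · simp only [pr] at *
    have := mod7 j
    omega
  · simp only [pr] at *
    have := mod11 j
    omega
  · simp only [pr] at *
    have h3 : 11 ∣ 11 ^ (8 * 2 ^ j) := dvd_pow_self 11 h2
    omega

lemma pr_cop8 (b : Bool) : (pr b).Coprime 8 := by
  cases b <;> (unfold pr; norm_num)

lemma card_inj (b b' : Bool) (j j' : ℕ) (h : pr b ^ (8 * 2 ^ j) = pr b' ^ (8 * 2 ^ j')) :
    j = j' ∧ b = b' := by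
  have h2 : ∀ j, 8 * 2 ^ j ≠ 0 := fun j => by positivity
  have hne : ∀ b b' : Bool, pr b ^ (8 * 2 ^ j) = pr b' ^ (8 * 2 ^ j') → pr b ∣ pr b' := by
    intro b b' h
    have h3 : pr b ∣ pr b ^ (8 * 2 ^ j) := dvd_pow_self _ (h2 j)
    rw [h] at h3
    exact (Fact.out : (pr b).Prime).dvd_of_dvd_pow h3
  have hb : b = b' := by
    have h3 := hne b b' h
    cases b <;> cases b' <;> simp [pr] at h3 ⊢
  subst hb
  refine ⟨?_, rfl⟩
  have h4 := Nat.pow_right_injective (Fact.out : (pr b).Prime).two_le h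
  have h5 : 2 ^ j = 2 ^ j' := by omega
  exact Nat.pow_right_injective le_rfl h5

section GoodFam

/-- the twist -/
def theta {F : Bool → Type} [∀ b, Field (F b)] (φ : ∀ b, RingAut (F b)) :
    ∀ b, MulAut (Multiplicative (F b))
  | true => autV (F true) (φ true ^ 4)
  | false => 1

variable {F : ℕ → Bool → Type} [∀ j b, Field (F j b)] {φ : ∀ j b, RingAut (F j b)}
  {h8 : ∀ j b, φ j b ^ 8 = 1}

lemma card_Gam {F : Bool → Type} [∀ b, Field (F b)] [∀ b, Finite (F b)]
    {φ : ∀ b, RingAut (F b)} {h8 : ∀ b, φ b ^ 8 = 1} :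
    Nat.card (Gam φ h8) = (∏ b, (Nat.card (F b) - 1)) * 8 := by
  rw [SemidirectProduct.card, Nat.card_pi, Nat.card_congr (toAdd (α := ZMod 8)), Nat.card_zmod]
  congr 1
  exact Finset.prod_congr rfl fun b _ => Nat.card_units _

lemma act_triv_false {F : Bool → Type} [∀ b, Field (F b)]
    {φ : ∀ b, RingAut (F b)} {h8 : ∀ b, φ b ^ 8 = 1}
    (h1 : ∀ k : ℕ, φ false ^ k = 1 → 8 ∣ k)
    (g : Gam φ h8) (hg : ∀ v, afc φ h8 false g v = v) : g.right = 1 := by
  have h2 : ∀ x : F false, (g.left false : F false) * (φ false ^ (toAdd g.right).val) x = x := by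
    intro x
    have := hg (ofAdd x)
    rw [afc_apply] at this
    exact ofAdd.injective this
  have h3 : (g.left false : F false) = 1 := by
    have := h2 1
    rwa [map_one, mul_one] at this
  have h4 : φ false ^ (toAdd g.right).val = 1 := by
    ext x
    have := h2 x
    rw [h3, one_mul] at this
    exact this
  have h5 := h1 _ h4
  have h6 : (toAdd g.right).val < 8 := ZMod.val_lt _
  have h7 : (toAdd g.right).val = 0 := by omega
  rw [ZMod.val_eq_zero] at h7
  exact h7

theorem good_fam [∀ j b, Finite (F j b)] (hcard : ∀ j b, Nat.card (F j b) = pr b ^ (8 * 2 ^ j))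
    (h1 : ∀ j (k : ℕ), φ j false ^ k = 1 → 8 ∣ k) (h2 : ∀ j, φ j true ^ 4 ≠ 1) :
    Good (V := fun j b => Multiplicative (F j b)) (Γ := fun j => Gam (φ j) (h8 j))
      (fun j b => afc (φ j) (h8 j) b) (fun j b => theta (φ j) b) where
  fix := by
    intro j b v hv
    have hc : 2 < Nat.card (F j b) := by
      rw [hcard]
      have h3 : 7 ≤ pr b := by cases b <;> simp [pr]
      calc 2 < 7 := by norm_num
        _ ≤ pr b := h3
        _ ≤ pr b ^ (8 * 2 ^ j) := Nat.le_self_pow (by positivity) _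
    have hn : Nontrivial (F j b)ˣ := by
      rw [← Finite.one_lt_card_iff_nontrivial, Nat.card_units]
      omega
    obtain ⟨n, hn⟩ := exists_ne (1 : (F j b)ˣ)
    have h3 := hv (inl (Pi.mulSingle b n))
    have h4 : ((n : F j b)) * toAdd v = toAdd v := by
      have h5 := afc_apply (φ j) (h8 j) b (inl (Pi.mulSingle b n)) (toAdd v)
      rw [ofAdd_toAdd, h3] at h5
      have h6 := congrArg toAdd h5
      simp only [left_inl, right_inl, toAdd_one, ZMod.val_zero, pow_zero, toAdd_ofAdd,
        Pi.mulSingle_eq_same] at h6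
      exact h6.symm
    have h5 : ((n : F j b) - 1) * toAdd v = 0 := by rw [sub_mul, h4, one_mul, sub_self]
    rcases mul_eq_zero.1 h5 with h6 | h6
    · exfalso
      apply hn
      ext
      exact sub_eq_zero.1 h6
    · exact h6
  trans := by
    intro j b v w hv hw
    have hv' : toAdd v ≠ 0 := hv
    have hw' : toAdd w ≠ 0 := hw
    refine ⟨inl (Pi.mulSingle b (Units.mk0 (toAdd w / toAdd v) (div_ne_zero hw' hv'))), ?_⟩
    have h5 := afc_apply (φ j) (h8 j) b
      (inl (Pi.mulSingle b (Units.mk0 (toAdd w / toAdd v) (div_ne_zero hw' hv')))) (toAdd v)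
    rw [ofAdd_toAdd] at h5
    rw [h5]
    simp only [left_inl, right_inl, toAdd_one, ZMod.val_zero, pow_zero, Pi.mulSingle_eq_same,
      Units.val_mk0]
    show ofAdd (toAdd w / toAdd v * toAdd v) = w
    rw [div_mul_cancel₀ _ hv']
    rfl
  nontriv := fun j b => inferInstance
  card := by
    intro j b j' b' h
    have e : ∀ j b, Nat.card (Multiplicative (F j b)) = pr b ^ (8 * 2 ^ j) := by
      intro j b
      rw [← hcard]
      exact Nat.card_congr toAdd
    rw [e, e] at h
    exact card_inj b b' j j' h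
  cop := by
    intro j b j'
    have e : Nat.card (Multiplicative (F j b)) = pr b ^ (8 * 2 ^ j) := by
      rw [← hcard]
      exact Nat.card_congr toAdd
    rw [e, card_Gam]
    apply Nat.Coprime.pow_left
    apply Nat.Coprime.mul_right
    · apply Nat.Coprime.prod_right
      intro b' _
      rw [hcard]
      exact pr_cop b b' j'
    · exact pr_cop8 b
  comm := by
    intro j γ γ' hγ hγ' v
    have e1 := act_triv_false (h1 j) γ hγ
    have e2 := act_triv_false (h1 j) γ' hγ'
    have e3 : ∀ γ : Gam (φ j) (h8 j), γ.right = 1 → ∀ v, afc (φ j) (h8 j) true γ v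
        = ofAdd ((γ.left true : F j true) * toAdd v) := by
      intro γ hγ v
      have h5 := afc_apply (φ j) (h8 j) true γ (toAdd v)
      rw [ofAdd_toAdd] at h5
      rw [h5, hγ]
      simp
    rw [e3 γ e1, e3 γ' e2, e3 γ' e2, e3 γ e1]
    simp only [toAdd_ofAdd]
    rw [mul_left_comm]
  theta := fun j => rfl
  noncomm := by
    intro j
    obtain ⟨a, ha⟩ : ∃ a : F j true, (φ j true ^ 4) a ≠ a := by
      by_contra hcon
      push Not at hcon
      apply h2 j
      ext x
      exact hcon x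
    have ha0 : a ≠ 0 := by
      rintro rfl
      exact ha (map_zero _)
    refine ⟨inl (Pi.mulSingle true (Units.mk0 a ha0)), ?_, ofAdd 1, ?_⟩
    · intro v
      have h5 := afc_apply (φ j) (h8 j) false (inl (Pi.mulSingle true (Units.mk0 a ha0))) (toAdd v)
      rw [ofAdd_toAdd] at h5
      rw [h5]
      simp
    · rw [afc_apply]
      show autV (F j true) (φ j true ^ 4) _ ≠ afc (φ j) (h8 j) true _
        (autV (F j true) (φ j true ^ 4) (ofAdd 1))
      rw [autV_apply, autV_apply, afc_apply]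
      simp
      exact ha

end GoodFam

end Pool.Agent.HopfZG
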