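import Mathlib

set_option autoImplicit false

namespace Pool.Agent.HopfZG

/-- forgetting the algebra structure -/
def toRA (p : ℕ) [Fact p.Prime] (F : Type) [Field F] [Algebra (ZMod p) F] :
    (F ≃ₐ[ZMod p] F) →* RingAut F where
  toFun e := e.toRingEquiv
  map_one' := rfl
  map_mul' _ _ := rfl

lemma toRA_injective (p : ℕ) [Fact p.Prime] (F : Type) [Field F] [Algebra (ZMod p) F] :
    Function.Injective (toRA p F) := by
  intro e f h
  ext x
  exact DFunLike.congr_fun h x

lemma trace_nondeg (p : ℕ) [Fact p.Prime] (F : Type) [Field F] [Finite F] [Algebra (ZMod p) F]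
    {a : F} (ha : a ≠ 0) : ∃ b : F, Algebra.trace (ZMod p) F (a * b) ≠ 0 := by
  have htr := (traceForm_nondegenerate (ZMod p) F).1 a
  simp_rw [Algebra.traceForm_apply] at htr
  by_contra! hf
  exact ha (htr hf)

theorem field_data (p : ℕ) [Fact p.Prime] (F : Type) [Field F] [Fintype F] [DecidableEq F]
    [Algebra (ZMod p) F] (d : ℕ) (hd : 0 < d) (hfin : Module.finrank (ZMod p) F = 8 * d) :
    ∃ (φ : RingAut F) (ψ : AddChar F ℂ), φ ^ 8 = 1 ∧ (∀ k : ℕ, φ ^ k = 1 → 8 ∣ k) ∧
      (∀ x, ψ (φ x) = ψ x) ∧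
      ∀ x : F, ∑ y, ψ (x * y) = if x = 0 then (Fintype.card F : ℂ) else 0 := by
  have hord : orderOf (FiniteField.frobeniusAlgEquivOfAlgebraic (ZMod p) F) = 8 * d := by
    rw [FiniteField.orderOf_frobeniusAlgEquivOfAlgebraic, hfin]
  set fr := FiniteField.frobeniusAlgEquivOfAlgebraic (ZMod p) F with hfr
  let tr : F →+ ZMod p := (Algebra.trace (ZMod p) F).toAddMonoidHom
  let ψ : AddChar F ℂ := (ZMod.stdAddChar (N := p)).compAddMonoidHom tr
  refine ⟨toRA p F (fr ^ d), ψ, ?_, ?_, ?_, ?_⟩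
  · rw [← map_pow, ← pow_mul, mul_comm, ← hord, pow_orderOf_eq_one, map_one]
  · intro k hk
    rw [← map_pow, ← pow_mul] at hk
    have h1 : fr ^ (d * k) = 1 := toRA_injective p F (hk.trans (map_one _).symm)
    have h2 := orderOf_dvd_of_pow_eq_one h1
    rw [hord, mul_comm] at h2
    exact (Nat.mul_dvd_mul_iff_left hd).1 h2
  · intro x
    show ZMod.stdAddChar (Algebra.trace (ZMod p) F ((fr ^ d) x))
      = ZMod.stdAddChar (Algebra.trace (ZMod p) F x)
    rw [Algebra.trace_eq_of_algEquiv]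
  · intro x
    have hprim : ψ.IsPrimitive := by
      intro a ha h
      obtain ⟨b, hb⟩ := trace_nondeg p F ha
      apply hb
      have h2 : ψ (a * b) = 1 := by
        have := DFunLike.congr_fun h b
        rwa [AddChar.mulShift_apply, AddChar.one_apply] at this
      apply ZMod.injective_stdAddChar (N := p)
      rw [AddChar.map_zero_eq_one]
      exact h2
    have h1 := AddChar.sum_mulShift x hprim
    rw [← Finset.sum_congr rfl (fun y _ => by rw [mul_comm])] at h1
    rw [h1]
    split_ifs <;> simp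

end Pool.Agent.HopfZG
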