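import Mathlib

set_option autoImplicit false

namespace Pool.Agent.HopfZG

lemma pell11 {x y : ℤ} (h : x ^ 2 - 2 * y ^ 2 = 1) {e f : ℕ} (he : 1 ≤ e)
    (hx : (11 : ℤ) ^ e ∣ x) (hy : (7 : ℤ) ^ f ∣ y) :
    ∃ x' y' : ℤ, x' ^ 2 - 2 * y' ^ 2 = 1 ∧ (11 : ℤ) ^ (e + 1) ∣ x' ∧ (7 : ℤ) ^ f ∣ y' := by
  refine ⟨x * (352 * y ^ 10 + x ^ 2 * (2640 * y ^ 8 + 3696 * x ^ 2 * y ^ 6
      + 1320 * x ^ 4 * y ^ 4 + 110 * x ^ 6 * y ^ 2 + x ^ 8)),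
    y * (32 * y ^ 10 + 880 * x ^ 2 * y ^ 8 + 2640 * x ^ 4 * y ^ 6 + 1848 * x ^ 6 * y ^ 4
      + 330 * x ^ 8 * y ^ 2 + 11 * x ^ 10), ?_, ?_, ?_⟩
  · have h2 : (x ^ 2 - 2 * y ^ 2) ^ 11 = 1 := by rw [h, one_pow]
    rw [← h2]
    ring
  · rw [pow_succ]
    apply mul_dvd_mul hx
    have h3 : (11 : ℤ) ∣ x := (dvd_pow_self (11 : ℤ) (by omega : e ≠ 0)).trans hx
    have h4 : (11 : ℤ) ∣ x ^ 2 := dvd_pow h3 two_ne_zero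
    refine dvd_add ?_ (Dvd.dvd.mul_right h4 _)
    exact ⟨32 * y ^ 10, by ring⟩
  · exact Dvd.dvd.mul_right hy _

lemma pell7 {x y : ℤ} (h : x ^ 2 - 2 * y ^ 2 = 1) {e f : ℕ} (hf : 1 ≤ f)
    (hx : (11 : ℤ) ^ e ∣ x) (hy : (7 : ℤ) ^ f ∣ y) :
    ∃ x' y' : ℤ, x' ^ 2 - 2 * y' ^ 2 = 1 ∧ (11 : ℤ) ^ e ∣ x' ∧ (7 : ℤ) ^ (f + 1) ∣ y' := by
  refine ⟨x * (x ^ 6 + 42 * x ^ 4 * y ^ 2 + 140 * x ^ 2 * y ^ 4 + 56 * y ^ 6),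
    y * (7 * x ^ 6 + 70 * x ^ 4 * y ^ 2 + 84 * x ^ 2 * y ^ 4 + 8 * y ^ 6), ?_, ?_, ?_⟩
  · have h2 : (x ^ 2 - 2 * y ^ 2) ^ 7 = 1 := by rw [h, one_pow]
    rw [← h2]
    ring
  · exact Dvd.dvd.mul_right hx _
  · rw [pow_succ]
    apply mul_dvd_mul hy
    have h3 : (7 : ℤ) ∣ y := (dvd_pow_self (7 : ℤ) (by omega : f ≠ 0)).trans hy
    obtain ⟨k, rfl⟩ := h3
    exact ⟨x ^ 6 + 70 * x ^ 4 * k * (7 * k) + 84 * x ^ 2 * k * (7 * k) ^ 3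
      + 8 * k * (7 * k) ^ 5, by ring⟩

lemma pell_exists (e : ℕ) (he : 1 ≤ e) :
    ∃ x y : ℤ, x ^ 2 - 2 * y ^ 2 = 1 ∧ (11 : ℤ) ^ e ∣ x ∧ (7 : ℤ) ^ e ∣ y := by
  induction e, he using Nat.le_induction with
  | base => exact ⟨99, 70, by norm_num, by norm_num, by norm_num⟩
  | succ e he ih =>
    obtain ⟨x, y, h, hx, hy⟩ := ih
    obtain ⟨x', y', h', hx', hy'⟩ := pell11 h he hx hy
    exact pell7 h' he hx' hy'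

/-- The arithmetic data. -/
lemma arith_exists (e : ℕ) (he : 1 ≤ e) :
    ∃ α β : ℤ, 2 * β ^ 2 = α ^ 2 + α ∧ (11 : ℤ) ^ e ∣ 1 + α ∧ (7 : ℤ) ^ e ∣ α ∧
      (11 : ℤ) ^ e * 7 ^ e ∣ β := by
  obtain ⟨x, y, h, hx, hy⟩ := pell_exists e he
  refine ⟨2 * y ^ 2, x * y, ?_, ?_, ?_, mul_dvd_mul hx hy⟩
  · linear_combination 2 * y ^ 2 * h
  · have e1 : 1 + 2 * y ^ 2 = x * x := by linear_combination -h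
    rw [e1]
    exact Dvd.dvd.mul_right hx _
  · exact Dvd.dvd.mul_left (Dvd.dvd.pow hy two_ne_zero) _

end Pool.Agent.HopfZG
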