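import Mathlib

set_option autoImplicit false

namespace Pool.Agent.HopfZG

open Polynomial in
/-- the polynomial `ξ` -/
noncomputable def xiP (α β : ℤ) : ℤ[X] :=
  (1 + C α) - C α * X ^ 4 + C β * (X - X ^ 3 - X ^ 5 + X ^ 7)

/-- the unit `ξ` evaluated at a ring element -/
def xi {B : Type} [Ring B] (α β : ℤ) (x : B) : B :=
  (1 + (α : B)) - (α : B) * x ^ 4 + (β : B) * (x - x ^ 3 - x ^ 5 + x ^ 7)

lemma xi_eq {B : Type} [Ring B] (α β : ℤ) (x : B) : xi α β x = Polynomial.aeval x (xiP α β) := by
  simp [xi, xiP]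

lemma xi_mul {B : Type} [Ring B] {α β : ℤ} (h : 2 * β ^ 2 = α ^ 2 + α) {x : B} (hx : x ^ 8 = 1) :
    xi α β x * xi α (-β) x = 1 := by
  rw [xi_eq, xi_eq, ← map_mul]
  have h1 : xiP α β * xiP α (-β) = 1 + (Polynomial.X ^ 8 - 1) *
      (Polynomial.C α ^ 2 - Polynomial.C β ^ 2 * (-Polynomial.X ^ 2 + Polynomial.X ^ 6 + 4
        - 2 * Polynomial.X ^ 4)) := by
    have h2 : (2 : Polynomial ℤ) * Polynomial.C β ^ 2 = Polynomial.C α ^ 2 + Polynomial.C α := by
      have := congrArg (Polynomial.C : ℤ →+* Polynomial ℤ) h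
      simpa using this
    unfold xiP
    rw [Polynomial.C_neg]
    linear_combination (-2 + 2 * Polynomial.X ^ 4) * h2
  rw [h1, map_add, map_mul]
  simp [hx]

lemma semiconj_xi {B : Type} [Ring B] (α β : ℤ) {m x y : B} (h : SemiconjBy m x y) :
    SemiconjBy m (xi α β x) (xi α β y) := by
  have hc : ∀ n : ℤ, SemiconjBy m (n : B) (n : B) := fun n => (Int.cast_commute n m).symm
  unfold xi
  refine SemiconjBy.add_right (SemiconjBy.sub_right ?_ ?_) ?_
  · exact SemiconjBy.add_right (SemiconjBy.one_right m) (hc α)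
  · exact (hc α).mul_right (h.pow_right 4)
  · refine (hc β).mul_right ?_
    exact SemiconjBy.add_right (SemiconjBy.sub_right (SemiconjBy.sub_right h (h.pow_right 3))
      (h.pow_right 5)) (h.pow_right 7)

section Abstract

variable {B X : Type} [Ring B] [Fintype X] [DecidableEq X] (e g m : X → B)

/-- the element `∑ e_a ξ(g_a) m_a` -/
def Ufun (α β : ℤ) : B := ∑ a, e a * xi α β (g a) * m a

variable {e g m} {τ : X → X}

lemma absorb (hee : ∀ a a', e a * e a' = if a = a' then e a else 0)
    (hge : ∀ a, e a * g a = g a * e a)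
    (hme : ∀ a, m a * e (τ a) = e a * m a) (α β : ℤ) (a : X) :
    e a * xi α β (g a) * m a = e a * xi α β (g a) * m a * e (τ a) := by
  have hxe : ∀ (β : ℤ) a, e a * xi α β (g a) = xi α β (g a) * e a := fun β a =>
    (semiconj_xi α β (show SemiconjBy (e a) (g a) (g a) from hge a)).eq
  symm
  calc e a * xi α β (g a) * m a * e (τ a) = e a * xi α β (g a) * (m a * e (τ a)) := by
        simp only [mul_assoc]
    _ = e a * (xi α β (g a) * e a) * m a := by rw [hme]; simp only [mul_assoc]
    _ = e a * (e a * xi α β (g a)) * m a := by rw [hxe]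
    _ = (e a * e a) * xi α β (g a) * m a := by simp only [mul_assoc]
    _ = e a * xi α β (g a) * m a := by rw [hee, if_pos rfl]

lemma Ufun_mul (hee : ∀ a a', e a * e a' = if a = a' then e a else 0) (hsum : ∑ a, e a = 1)
    (hge : ∀ a, e a * g a = g a * e a) (hg8 : ∀ a, g a ^ 8 = 1)
    (hme : ∀ a, m a * e (τ a) = e a * m a) (hmm : ∀ a, m a * m (τ a) = 1)
    (hmg : ∀ a, m a * g (τ a) = g a * m a) {α β : ℤ} (h : 2 * β ^ 2 = α ^ 2 + α) :
    Ufun e g m α β * Ufun e g m α (-β) = 1 := by
  have hxe : ∀ (β : ℤ) a, e a * xi α β (g a) = xi α β (g a) * e a := fun β a =>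
    (semiconj_xi α β (show SemiconjBy (e a) (g a) (g a) from hge a)).eq
  have hxm : ∀ (β : ℤ) a, m a * xi α β (g (τ a)) = xi α β (g a) * m a := fun β a =>
    (semiconj_xi α β (show SemiconjBy (m a) (g (τ a)) (g a) from hmg a)).eq
  have key : ∀ a a', (e a * xi α β (g a) * m a) * (e a' * xi α (-β) (g a') * m a')
      = if a' = τ a then e a else 0 := by
    intro a a'
    -- absorb the idempotent on the right
    have h1 : e a * xi α β (g a) * m a = e a * xi α β (g a) * m a * e (τ a) := by
      symm
      calc e a * xi α β (g a) * m a * e (τ a) = e a * xi α β (g a) * (m a * e (τ a)) := by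
            simp only [mul_assoc]
        _ = e a * (xi α β (g a) * e a) * m a := by rw [hme]; simp only [mul_assoc]
        _ = e a * (e a * xi α β (g a)) * m a := by rw [hxe]
        _ = (e a * e a) * xi α β (g a) * m a := by simp only [mul_assoc]
        _ = e a * xi α β (g a) * m a := by rw [hee, if_pos rfl]
    split_ifs with haa
    · subst haa
      calc (e a * xi α β (g a) * m a) * (e (τ a) * xi α (-β) (g (τ a)) * m (τ a))
          = e a * xi α β (g a) * (m a * e (τ a)) * xi α (-β) (g (τ a)) * m (τ a) := by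
            simp only [mul_assoc]
        _ = e a * (xi α β (g a) * e a) * (m a * xi α (-β) (g (τ a))) * m (τ a) := by
            rw [hme]; simp only [mul_assoc]
        _ = e a * (e a * xi α β (g a)) * (xi α (-β) (g a) * m a) * m (τ a) := by
            rw [← hxe, hxm]
        _ = (e a * e a) * (xi α β (g a) * xi α (-β) (g a)) * (m a * m (τ a)) := by
            simp only [mul_assoc]
        _ = e a := by rw [hee, if_pos rfl, xi_mul h (hg8 a), hmm, mul_one, mul_one]
    · rw [h1]
      calc (e a * xi α β (g a) * m a * e (τ a)) * (e a' * xi α (-β) (g a') * m a')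
          = e a * xi α β (g a) * m a * (e (τ a) * e a') * xi α (-β) (g a') * m a' := by
            simp only [mul_assoc]
        _ = 0 := by
            rw [hee, if_neg (fun h => haa h.symm)]
            simp
  unfold Ufun
  rw [Finset.sum_mul]
  have h2 : ∀ a, (e a * xi α β (g a) * m a) * ∑ a', e a' * xi α (-β) (g a') * m a' = e a := by
    intro a
    rw [Finset.mul_sum, Finset.sum_congr rfl (fun a' _ => key a a')]
    simp
  rw [Finset.sum_congr rfl (fun a _ => h2 a), hsum]

end Abstract

end Pool.Agent.HopfZG
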