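import Mathlib
import Pool.Agent.Lib_helper96.HopfData
import Pool.Agent.Lib_helper96.HopfUnit

set_option autoImplicit false

namespace Pool.Agent.HopfZG

open SemidirectProduct Multiplicative MonoidAlgebra

section Chi

variable {F : Bool → Type} [∀ b, Field (F b)] [∀ b, Fintype (F b)]
  (ψ : ∀ b, AddChar (F b) ℂ)

/-- the character of the group `∏ F_b` with parameter `a` -/
noncomputable def chi (a : ∀ b, F b) (c : ∀ b, Multiplicative (F b)) : ℂ :=
  ∏ b, ψ b (a b * toAdd (c b))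

variable {ψ}

omit [∀ b, Fintype (F b)] in
lemma chi_mul (a : ∀ b, F b) (c c' : ∀ b, Multiplicative (F b)) :
    chi ψ a (c * c') = chi ψ a c * chi ψ a c' := by
  unfold chi
  rw [← Finset.prod_mul_distrib]
  refine Finset.prod_congr rfl fun b _ => ?_
  rw [Pi.mul_apply, toAdd_mul, mul_add, AddChar.map_add_eq_mul]

omit [∀ b, Fintype (F b)] in
@[simp] lemma chi_one (a : ∀ b, F b) : chi ψ a 1 = 1 := by
  unfold chi
  simp

omit [∀ b, Fintype (F b)] in
lemma chi_inv_mul (a : ∀ b, F b) (c : ∀ b, Multiplicative (F b)) :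
    chi ψ a c⁻¹ * chi ψ a c = 1 := by
  rw [← chi_mul, inv_mul_cancel, chi_one]

omit [∀ b, Fintype (F b)] in
lemma chi_sub (a a' : ∀ b, F b) (c : ∀ b, Multiplicative (F b)) :
    chi ψ a c * chi ψ a' c⁻¹ = chi ψ (a - a') c := by
  unfold chi
  rw [← Finset.prod_mul_distrib]
  refine Finset.prod_congr rfl fun b _ => ?_
  rw [← AddChar.map_add_eq_mul]
  congr 1
  rw [Pi.inv_apply, toAdd_inv, Pi.sub_apply]
  ring

variable [∀ b, DecidableEq (F b)] (hψ : ∀ b (x : F b), ∑ y, ψ b (x * y) = if x = 0 then (Fintype.card (F b) : ℂ) else 0)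

include hψ in
lemma sum_chi (a : ∀ b, F b) :
    ∑ c : (∀ b, Multiplicative (F b)), chi ψ a c
      = if a = 0 then (∏ b, (Fintype.card (F b) : ℂ)) else 0 := by
  classical
  unfold chi
  have h1 := Finset.prod_univ_sum (fun b => (Finset.univ : Finset (Multiplicative (F b))))
    (fun b c => ψ b (a b * toAdd c))
  rw [Fintype.piFinset_univ] at h1
  rw [← h1]
  have h2 : ∀ b, ∑ c : Multiplicative (F b), ψ b (a b * toAdd c)
      = if a b = 0 then (Fintype.card (F b) : ℂ) else 0 := by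
    intro b
    rw [← hψ b (a b)]
    exact Fintype.sum_equiv toAdd _ _ (fun _ => rfl)
  rw [Finset.prod_congr rfl (fun b _ => h2 b)]
  split_ifs with h
  · refine Finset.prod_congr rfl fun b _ => if_pos ?_
    rw [h]
    rfl
  · obtain ⟨b, hb⟩ := Function.ne_iff.1 h
    exact Finset.prod_eq_zero (Finset.mem_univ b) (if_neg hb)

include hψ in
lemma sum_chi' (c : ∀ b, Multiplicative (F b)) :
    ∑ a : (∀ b, F b), chi ψ a c
      = if c = 1 then (∏ b, (Fintype.card (F b) : ℂ)) else 0 := by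
  classical
  unfold chi
  have h1 := Finset.prod_univ_sum (fun b => (Finset.univ : Finset (F b)))
    (fun b a => ψ b (a * toAdd (c b)))
  rw [Fintype.piFinset_univ] at h1
  rw [← h1]
  have h2 : ∀ b, ∑ a : F b, ψ b (a * toAdd (c b))
      = if c b = 1 then (Fintype.card (F b) : ℂ) else 0 := by
    intro b
    have h3 := hψ b (toAdd (c b))
    rw [Finset.sum_congr rfl (fun y _ => by rw [mul_comm])] at h3
    rw [h3]
    rfl
  rw [Finset.prod_congr rfl (fun b _ => h2 b)]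
  split_ifs with h
  · refine Finset.prod_congr rfl fun b _ => if_pos ?_
    rw [h]
    rfl
  · obtain ⟨b, hb⟩ := Function.ne_iff.1 h
    exact Finset.prod_eq_zero (Finset.mem_univ b) (if_neg hb)

end Chi

section Idem

variable {F : Bool → Type} [∀ b, Field (F b)] [∀ b, Fintype (F b)]
  {ψ : ∀ b, AddChar (F b) ℂ}
  {P : Type} [Group P] {ρ : P →* MulAut (∀ b, Multiplicative (F b))}

/-- `|C|` -/
noncomputable def NN (F : Bool → Type) [∀ b, Fintype (F b)] : ℂ := ∏ b, (Fintype.card (F b) : ℂ)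

lemma NN_ne_zero : NN F ≠ 0 :=
  Finset.prod_ne_zero_iff.2 fun _ _ => Nat.cast_ne_zero.2 Fintype.card_ne_zero

variable (ψ ρ) in
/-- the primitive idempotents -/
noncomputable def ee (a : ∀ b, F b) :
    MonoidAlgebra ℂ ((∀ b, Multiplicative (F b)) ⋊[ρ] P) :=
  ∑ c, single (inl c) ((NN F)⁻¹ * chi ψ a c⁻¹)

lemma inl_mul_ee (a : ∀ b, F b) (c : ∀ b, Multiplicative (F b)) :
    single (inl c) 1 * ee ψ ρ a = chi ψ a c • ee ψ ρ a := by
  unfold ee
  rw [Finset.mul_sum, Finset.smul_sum]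
  refine Fintype.sum_equiv (Equiv.mulLeft c) _ _ fun c' => ?_
  rw [single_mul_single, one_mul, ← map_mul, smul_single, Equiv.coe_mulLeft, smul_eq_mul]
  congr 1
  rw [mul_inv, chi_mul, mul_left_comm, ← mul_assoc (chi ψ a c), mul_comm (chi ψ a c),
    chi_inv_mul, one_mul]

lemma ee_mul_inl (a : ∀ b, F b) (c : ∀ b, Multiplicative (F b)) :
    ee ψ ρ a * single (inl c) 1 = chi ψ a c • ee ψ ρ a := by
  rw [← inl_mul_ee]
  unfold ee
  rw [Finset.mul_sum, Finset.sum_mul]
  refine Finset.sum_congr rfl fun c' _ => ?_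
  rw [single_mul_single, single_mul_single, one_mul, mul_one, ← map_mul, ← map_mul, mul_comm]

variable [∀ b, DecidableEq (F b)] (hψ : ∀ b (x : F b), ∑ y, ψ b (x * y) = if x = 0 then (Fintype.card (F b) : ℂ) else 0)

include hψ in
lemma ee_mul_ee (a a' : ∀ b, F b) :
    ee ψ ρ a * ee ψ ρ a' = if a = a' then ee ψ ρ a else 0 := by
  conv_lhs => rw [ee.eq_1 ψ ρ a', Finset.mul_sum]
  have h1 : ∀ c, ee ψ ρ a * single (inl c) ((NN F)⁻¹ * chi ψ a' c⁻¹)
      = ((NN F)⁻¹ * chi ψ (a - a') c) • ee ψ ρ a := by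
    intro c
    have e : (single (inl c) ((NN F)⁻¹ * chi ψ a' c⁻¹) :
        MonoidAlgebra ℂ ((∀ b, Multiplicative (F b)) ⋊[ρ] P))
        = ((NN F)⁻¹ * chi ψ a' c⁻¹) • single (inl c) 1 := by
      rw [smul_single, smul_eq_mul, mul_one]
    rw [e, mul_smul_comm, ee_mul_inl, smul_smul]
    congr 1
    rw [mul_assoc, mul_comm (chi ψ a' c⁻¹), chi_sub]
  rw [Finset.sum_congr rfl (fun c _ => h1 c), ← Finset.sum_smul, ← Finset.mul_sum, sum_chi hψ]
  by_cases h : a = a'
  · rw [if_pos h, if_pos (sub_eq_zero.2 h)]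
    have : (NN F)⁻¹ * ∏ b, (Fintype.card (F b) : ℂ) = 1 := inv_mul_cancel₀ NN_ne_zero
    rw [this, one_smul]
  · rw [if_neg h, if_neg (fun h2 => h (sub_eq_zero.1 h2)), mul_zero, zero_smul]

include hψ in
lemma sum_ee : ∑ a, ee ψ ρ a = 1 := by
  unfold ee
  rw [Finset.sum_comm]
  have h1 : ∀ c : (∀ b, Multiplicative (F b)),
      ∑ a : (∀ b, F b), (single (inl c) ((NN F)⁻¹ * chi ψ a c⁻¹) :
        MonoidAlgebra ℂ ((∀ b, Multiplicative (F b)) ⋊[ρ] P))
      = if c = 1 then 1 else 0 := by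
    intro c
    have e : ∀ z : (∀ b, F b) → ℂ, ∑ a : (∀ b, F b), (single (inl c) (z a) :
        MonoidAlgebra ℂ ((∀ b, Multiplicative (F b)) ⋊[ρ] P)) = single (inl c) (∑ a, z a) :=
      fun z => (map_sum (singleAddHom (R := ℂ)
        (inl c : (∀ b, Multiplicative (F b)) ⋊[ρ] P)) _ _).symm
    rw [e, ← Finset.mul_sum, sum_chi' hψ]
    by_cases h : c = 1
    · subst h
      rw [if_pos rfl, if_pos inv_one]
      have : (NN F)⁻¹ * ∏ b, (Fintype.card (F b) : ℂ) = 1 := inv_mul_cancel₀ NN_ne_zero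
      rw [this, map_one]
      rfl
    · rw [if_neg h, if_neg (fun h2 => h (inv_eq_one.1 h2)), mul_zero, single_zero]
  rw [Finset.sum_congr rfl (fun c _ => h1 c)]
  simp

omit [∀ b, DecidableEq (F b)] in
lemma inr_mul_ee {a a' : ∀ b, F b} {g : P} (h : ∀ c, chi ψ a' c = chi ψ a (ρ g c)) :
    single (inr g) 1 * ee ψ ρ a' = ee ψ ρ a * single (inr g) 1 := by
  unfold ee
  rw [Finset.mul_sum, Finset.sum_mul]
  refine Fintype.sum_equiv (ρ g).toEquiv _ _ fun c => ?_
  rw [single_mul_single, single_mul_single, one_mul, mul_one, h]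
  have e1 : (ρ g).toEquiv c = ρ g c := rfl
  rw [e1, map_inv]
  congr 1
  rw [inl_aut, map_inv, inv_mul_cancel_right]

end Idem

end Pool.Agent.HopfZG
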