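import Mathlib
import Pool.Agent.Lib_helper96.HopfFourier

set_option autoImplicit false

namespace Pool.Agent.HopfZG

open SemidirectProduct Multiplicative MonoidAlgebra

section Q

variable {F : Type} [Field F] [DecidableEq F]

/-- `σ(a)/a` as a unit (and `1` for `a = 0`) -/
def q1 (σ : RingAut F) (a : F) : Fˣ :=
  if h : a = 0 then 1 else Units.mk0 (σ a / a)
    (div_ne_zero (by rwa [Ne, EmbeddingLike.map_eq_zero_iff]) h)

lemma q1_zero (σ : RingAut F) : q1 σ 0 = 1 := by simp [q1]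

lemma coe_q1 (σ : RingAut F) {a : F} (h : a ≠ 0) : (q1 σ a : F) = σ a / a := by
  simp [q1, h]

lemma q1_mul_self (σ : RingAut F) (a : F) : a * (q1 σ a : F) = σ a := by
  by_cases h : a = 0
  · subst h
    simp
  · rw [coe_q1 σ h, mul_div_cancel₀ _ h]

lemma q1_mul (σ τ : RingAut F) (a : F) : q1 (σ * τ) a = q1 σ (τ a) * q1 τ a := by
  by_cases h : a = 0
  · subst h
    rw [map_zero, q1_zero, q1_zero, q1_zero, one_mul]
  · have h2 : τ a ≠ 0 := by rwa [Ne, EmbeddingLike.map_eq_zero_iff]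
    ext
    rw [Units.val_mul, coe_q1 _ h, coe_q1 _ h, coe_q1 _ h2, div_mul_div_cancel₀ h2]
    rfl

lemma uAut_q1 {σ τ : RingAut F} (hc : σ * τ = τ * σ) (a : F) :
    uAut F σ (q1 τ a) = q1 τ (σ a) := by
  by_cases h : a = 0
  · subst h
    rw [map_zero, q1_zero, map_one]
  · have h2 : σ a ≠ 0 := by rwa [Ne, EmbeddingLike.map_eq_zero_iff]
    ext
    rw [coe_uAut, coe_q1 _ h, coe_q1 _ h2, map_div₀]
    congr 1
    exact DFunLike.congr_fun hc a

lemma q1_one (a : F) : q1 (1 : RingAut F) a = 1 := by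
  by_cases h : a = 0
  · rw [h, q1_zero]
  · ext
    rw [coe_q1 _ h]
    exact div_self h

end Q

section Elements

variable {F : Bool → Type} [∀ b, Field (F b)] [∀ b, DecidableEq (F b)]
  {φ : ∀ b, RingAut (F b)} {h8 : ∀ b, φ b ^ 8 = 1}

/-- componentwise version -/
def qq (σ : ∀ b, RingAut (F b)) (a : ∀ b, F b) : ∀ b, (F b)ˣ := fun b => q1 (σ b) (a b)

/-- componentwise application -/
def ap (σ : ∀ b, RingAut (F b)) (a : ∀ b, F b) : ∀ b, F b := fun b => σ b (a b)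

lemma qq_mul (σ τ : ∀ b, RingAut (F b)) (a : ∀ b, F b) :
    qq (σ * τ) a = qq σ (ap τ a) * qq τ a := by
  funext b
  exact q1_mul (σ b) (τ b) (a b)

lemma qq_one (a : ∀ b, F b) : qq (1 : ∀ b, RingAut (F b)) a = 1 := by
  funext b
  exact q1_one (a b)

/-- the ring automorphism twisting the first coordinate -/
def th (φ : ∀ b, RingAut (F b)) : ∀ b, RingAut (F b)
  | true => φ true ^ 4
  | false => 1

omit [∀ b, DecidableEq (F b)] in
lemma th_comm (k : ℕ) : th φ * φ ^ k = φ ^ k * th φ := by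
  funext b
  cases b
  · show 1 * φ false ^ k = φ false ^ k * 1
    rw [one_mul, mul_one]
  · show φ true ^ 4 * φ true ^ k = φ true ^ k * φ true ^ 4
    rw [← pow_add, ← pow_add, add_comm]

omit [∀ b, DecidableEq (F b)] in
include h8 in
lemma th_sq : th φ * th φ = 1 := by
  funext b
  cases b
  · rfl
  · show φ true ^ 4 * φ true ^ 4 = 1
    rw [← pow_add]
    exact h8 true

lemma actQ_qq (k : ℕ) (σ : ∀ b, RingAut (F b)) (hσ : σ * φ ^ k = φ ^ k * σ) (a : ∀ b, F b) :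
    actQ φ h8 (ofAdd (k : ZMod 8)) (qq σ a) = qq σ (ap (φ ^ k) a) := by
  funext b
  have h1 : zpow8 (φ b) (h8 b) (ofAdd (k : ZMod 8)) = φ b ^ k := by
    show φ b ^ (k : ZMod 8).val = φ b ^ k
    rw [ZMod.val_natCast, ← pow_eq_pow_mod _ (h8 b)]
  show uAut (F b) (zpow8 (φ b) (h8 b) (ofAdd (k : ZMod 8))) (q1 (σ b) (a b)) = _
  rw [h1]
  exact uAut_q1 (congrFun hσ b).symm (a b)

variable (φ h8) in
/-- the elements `γ_a` -/
def gam (a : ∀ b, F b) : Gam φ h8 := ⟨qq φ a, ofAdd 1⟩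

variable (φ h8) in
/-- the elements `μ_a` -/
def mu (a : ∀ b, F b) : Gam φ h8 := inl (qq (th φ) a)

lemma gam_pow (a : ∀ b, F b) (k : ℕ) :
    gam φ h8 a ^ k = ⟨qq (φ ^ k) a, ofAdd (k : ZMod 8)⟩ := by
  induction k with
  | zero =>
    rw [pow_zero, pow_zero, qq_one, Nat.cast_zero]
    rfl
  | succ k ih =>
    rw [pow_succ, ih, gam, SemidirectProduct.mul_def]
    apply SemidirectProduct.ext
    · show qq (φ ^ k) a * actQ φ h8 (ofAdd (k : ZMod 8)) (qq φ a) = qq (φ ^ (k + 1)) a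
      rw [actQ_qq k φ (by rw [← pow_succ', ← pow_succ]), pow_succ', qq_mul, mul_comm]
    · show ofAdd (k : ZMod 8) * ofAdd 1 = ofAdd ((k + 1 : ℕ) : ZMod 8)
      rw [← ofAdd_add, Nat.cast_add, Nat.cast_one]

lemma gam_pow8 (a : ∀ b, F b) : gam φ h8 a ^ 8 = 1 := by
  rw [gam_pow]
  have h1 : φ ^ 8 = 1 := funext h8
  rw [h1, qq_one]
  rfl

lemma gam_pow_mul_mu (a : ∀ b, F b) (k : ℕ) :
    gam φ h8 a ^ k * mu φ h8 a = ⟨qq (th φ * φ ^ k) a, ofAdd (k : ZMod 8)⟩ := by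
  rw [gam_pow, mu, SemidirectProduct.mul_def]
  apply SemidirectProduct.ext
  · show qq (φ ^ k) a * actQ φ h8 (ofAdd (k : ZMod 8)) (qq (th φ) a) = _
    rw [actQ_qq k (th φ) (th_comm k), qq_mul, mul_comm]
  · show ofAdd (k : ZMod 8) * 1 = _
    rw [mul_one]

lemma mu_mul_mu (a : ∀ b, F b) : mu φ h8 a * mu φ h8 (ap (th φ) a) = 1 := by
  unfold mu
  rw [← map_mul, mul_comm, ← qq_mul, th_sq (h8 := h8), qq_one, map_one]

lemma mu_mul_gam (a : ∀ b, F b) :
    mu φ h8 a * gam φ h8 (ap (th φ) a) = gam φ h8 a * mu φ h8 a := by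
  have h1 := gam_pow_mul_mu (h8 := h8) a 1
  rw [pow_one, pow_one] at h1
  rw [h1]
  apply SemidirectProduct.ext
  · show qq (th φ) a * actQ φ h8 1 (qq φ (ap (th φ) a)) = qq (th φ * φ) a
    rw [map_one, MulAut.one_apply, mul_comm, ← qq_mul]
    have := th_comm (φ := φ) 1
    rw [pow_one] at this
    rw [this]
  · show 1 * ofAdd (1 : ZMod 8) = ofAdd ((1 : ℕ) : ZMod 8)
    rw [one_mul, Nat.cast_one]

end Elements

end Pool.Agent.HopfZG
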