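import Mathlib
import Pool.Agent.Lib_helper96.HopfTwist

set_option autoImplicit false

namespace Pool.Agent.HopfZG

open SemidirectProduct Multiplicative MonoidAlgebra

section OneField

variable {F : Type} [Field F] [Fintype F] [DecidableEq F]

omit [DecidableEq F] in
lemma sum_subgroup_int (L : AddSubgroup F) (ψ : AddChar F ℂ) (s : Finset F)
    (hs : ∀ x, x ∈ s ↔ x ∈ L) : ∃ z : ℤ, ∑ x ∈ s, ψ x = z := by
  by_cases h : ∀ x ∈ L, ψ x = 1
  · refine ⟨s.card, ?_⟩
    rw [Finset.sum_congr rfl (fun x hx => h x ((hs x).1 hx))]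
    simp
  · push Not at h
    obtain ⟨x₀, hx₀, hne⟩ := h
    refine ⟨0, ?_⟩
    have h1 : ∑ x ∈ s, ψ x = ψ x₀ * ∑ x ∈ s, ψ x := by
      rw [Finset.mul_sum]
      symm
      refine Finset.sum_bij (fun x _ => x₀ + x) ?_ ?_ ?_ ?_
      · intro x hx
        rw [hs] at hx ⊢
        exact L.add_mem hx₀ hx
      · intro x _ y _ hxy
        exact add_left_cancel hxy
      · intro x hx
        refine ⟨-x₀ + x, ?_, by simp⟩
        rw [hs] at hx ⊢
        exact L.add_mem (L.neg_mem hx₀) hx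
      · intro x _
        rw [AddChar.map_add_eq_mul]
    have h2 : (ψ x₀ - 1) * ∑ x ∈ s, ψ x = 0 := by
      rw [sub_mul, ← h1, one_mul, sub_self]
    rcases mul_eq_zero.1 h2 with h3 | h3
    · exact absurd (sub_eq_zero.1 h3) hne
    · rw [h3, Int.cast_zero]

/-- the additive subgroup `{x | σ x = n x}` -/
def Lsub (σ : RingAut F) (n : F) : AddSubgroup F where
  carrier := {x | σ x = n * x}
  zero_mem' := by simp
  add_mem' := by
    intro x y hx hy
    show σ (x + y) = n * (x + y)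
    rw [map_add, mul_add, show σ x = n * x from hx, show σ y = n * y from hy]
  neg_mem' := by
    intro x hx
    show σ (-x) = n * (-x)
    rw [map_neg, show σ x = n * x from hx, mul_neg]

lemma s_int (σ : RingAut F) (ψ : AddChar F ℂ) (n : Fˣ) (y : F) :
    ∃ z : ℤ, ∑ x ∈ Finset.univ.filter (fun x => q1 σ x = n), ψ (x * y) = z := by
  have e : ∀ x, ψ (x * y) = ψ.mulShift y x := by
    intro x
    rw [AddChar.mulShift_apply, mul_comm]
  rw [Finset.sum_congr rfl (fun x _ => e x)]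
  obtain ⟨z, hz⟩ := sum_subgroup_int (Lsub σ n) (ψ.mulShift y)
    (Finset.univ.filter (fun x => σ x = n * x)) (fun x => by simp [Lsub])
  have h0 : (0 : F) ∈ Finset.univ.filter (fun x => σ x = n * x) := by simp
  have hmem : ∀ x : F, x ≠ 0 → (q1 σ x = n ↔ σ x = n * x) := by
    intro x hx
    rw [Units.ext_iff, coe_q1 _ hx, div_eq_iff hx]
  by_cases hn : n = 1
  · refine ⟨z, ?_⟩
    rw [← hz]
    refine Finset.sum_congr ?_ fun _ _ => rfl
    ext x
    simp only [Finset.mem_filter, Finset.mem_univ, true_and]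
    by_cases hx : x = 0
    · subst hx
      simp [q1_zero, hn]
    · exact hmem x hx
  · refine ⟨z - 1, ?_⟩
    push_cast
    rw [← hz, ← Finset.add_sum_erase _ _ h0, AddChar.map_zero_eq_one, add_sub_cancel_left]
    refine Finset.sum_congr ?_ fun _ _ => rfl
    ext x
    simp only [Finset.mem_filter, Finset.mem_univ, true_and, Finset.mem_erase]
    by_cases hx : x = 0
    · subst hx
      simp only [q1_zero, ne_eq, not_true_eq_false, false_and, iff_false]
      exact fun h => hn h.symm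
    · rw [hmem x hx]
      simp [hx]

lemma s_one (ψ : AddChar F ℂ) (hψ : ∀ x : F, ∑ y, ψ (x * y) = if x = 0 then
      (Fintype.card F : ℂ) else 0) (n : Fˣ) (y : F) :
    ∃ z : ℤ, ∑ x ∈ Finset.univ.filter (fun x => q1 (1 : RingAut F) x = n), ψ (x * y)
      = z * Fintype.card F := by
  by_cases hn : n = 1
  · subst hn
    have e : Finset.univ.filter (fun x => q1 (1 : RingAut F) x = 1) = Finset.univ := by
      ext x
      simp [q1_one]
    rw [e, Finset.sum_congr rfl (fun x _ => by rw [mul_comm]), hψ]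
    by_cases hy : y = 0
    · exact ⟨1, by rw [if_pos hy]; simp⟩
    · exact ⟨0, by rw [if_neg hy]; simp⟩
  · refine ⟨0, ?_⟩
    have e : Finset.univ.filter (fun x => q1 (1 : RingAut F) x = n) = ∅ := by
      ext x
      simp only [q1_one, Finset.mem_filter, Finset.mem_univ, true_and, Finset.notMem_empty,
        iff_false]
      exact fun h => hn h.symm
    rw [e]
    simp

end OneField

section Coef

variable {F : Bool → Type} [∀ b, Field (F b)] [∀ b, Fintype (F b)] [∀ b, DecidableEq (F b)]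
  {ψ : ∀ b, AddChar (F b) ℂ}

lemma sum_filter_chi (σ : ∀ b, RingAut (F b)) (n : ∀ b, (F b)ˣ)
    (c : ∀ b, Multiplicative (F b)) :
    ∑ a ∈ Finset.univ.filter (fun a => qq σ a = n), (NN F)⁻¹ * chi ψ a c
      = ∏ b, ((Fintype.card (F b) : ℂ)⁻¹ *
        ∑ x ∈ Finset.univ.filter (fun x => q1 (σ b) x = n b), ψ b (x * toAdd (c b))) := by
  rw [← Finset.mul_sum, Finset.prod_mul_distrib, NN, ← Finset.prod_inv_distrib]
  congr 1
  rw [Finset.prod_univ_sum]
  refine Finset.sum_congr ?_ fun _ _ => rfl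
  ext a
  simp only [Finset.mem_filter, Finset.mem_univ, true_and, Fintype.mem_piFinset]
  exact funext_iff

/-- the denominator of the coordinate `b` -/
noncomputable def den (σ : ∀ b, RingAut (F b)) (b : Bool) : ℤ := by
  classical
  exact if σ b = 1 then 1 else Fintype.card (F b)

lemma coef_int (hψ : ∀ b (x : F b), ∑ y, ψ b (x * y) = if x = 0 then
      (Fintype.card (F b) : ℂ) else 0) (σ : ∀ b, RingAut (F b)) (n : ∀ b, (F b)ˣ)
    (c : ∀ b, Multiplicative (F b)) (M : ℤ) (hM : den σ true * den σ false ∣ M) :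
    ∃ z : ℤ, (M : ℂ) * ∑ a ∈ Finset.univ.filter (fun a => qq σ a = n), (NN F)⁻¹ * chi ψ a c
      = z := by
  have key : ∀ b, ∃ z : ℤ, (den σ b : ℂ) * ((Fintype.card (F b) : ℂ)⁻¹ *
        ∑ x ∈ Finset.univ.filter (fun x => q1 (σ b) x = n b), ψ b (x * toAdd (c b))) = z := by
    intro b
    have hc : (Fintype.card (F b) : ℂ) ≠ 0 := Nat.cast_ne_zero.2 Fintype.card_ne_zero
    unfold den
    split_ifs with h
    · rw [h]
      obtain ⟨z, hz⟩ := s_one (ψ b) (hψ b) (n b) (toAdd (c b))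
      refine ⟨z, ?_⟩
      rw [hz, Int.cast_one, one_mul, mul_comm, mul_assoc, mul_inv_cancel₀ hc, mul_one]
    · obtain ⟨z, hz⟩ := s_int (σ b) (ψ b) (n b) (toAdd (c b))
      refine ⟨z, ?_⟩
      rw [hz]
      push_cast
      rw [mul_inv_cancel_left₀ hc]
  obtain ⟨k, rfl⟩ := hM
  obtain ⟨z₁, h₁⟩ := key true
  obtain ⟨z₂, h₂⟩ := key false
  refine ⟨k * (z₁ * z₂), ?_⟩
  rw [sum_filter_chi, Fintype.prod_bool]
  push_cast
  rw [← h₁, ← h₂]
  ring

end Coef

section Alg

variable {F : Bool → Type} [∀ b, Field (F b)] [∀ b, Fintype (F b)] [∀ b, DecidableEq (F b)]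
  {ψ : ∀ b, AddChar (F b) ℂ} {φ : ∀ b, RingAut (F b)} {h8 : ∀ b, φ b ^ 8 = 1}

variable (φ h8) in
/-- the action of `Γ` on `∏ F_b` -/
def actG : Gam φ h8 →* MulAut (∀ b, Multiplicative (F b)) :=
  (piAut (fun b => Multiplicative (F b))).comp (MonoidHom.pi fun b => afc φ h8 b)

omit [∀ b, Fintype (F b)] [∀ b, DecidableEq (F b)] in
lemma toAdd_actG (g : Gam φ h8) (c : ∀ b, Multiplicative (F b)) (b : Bool) :
    toAdd (actG φ h8 g c b) = g.left b * (φ b ^ (toAdd g.right).val) (toAdd (c b)) := rfl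

/-- integral elements -/
noncomputable def ZR (A : Type) [Group A] : Subring (MonoidAlgebra ℂ A) :=
  (mapRingHom A (Int.castRingHom ℂ)).range

lemma single_mem_ZR {A : Type} [Group A] (x : A) (z : ℤ) : single x (z : ℂ) ∈ ZR A :=
  ⟨single x z, by simp⟩

variable (ψ φ h8) in
/-- the sums `T_k` -/
noncomputable def TT (σ : ∀ b, RingAut (F b)) (k : ZMod 8) :
    MonoidAlgebra ℂ ((∀ b, Multiplicative (F b)) ⋊[actG φ h8] Gam φ h8) :=
  ∑ a, ee ψ (actG φ h8) a * single (inr (⟨qq σ a, ofAdd k⟩ : Gam φ h8)) 1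

lemma TT_mem (hψ : ∀ b (x : F b), ∑ y, ψ b (x * y) = if x = 0 then
      (Fintype.card (F b) : ℂ) else 0) (σ : ∀ b, RingAut (F b)) (k : ZMod 8) (M : ℤ)
    (hM : den σ true * den σ false ∣ M) : (M : ℂ) • TT ψ φ h8 σ k ∈ ZR _ := by
  have e1 : TT ψ φ h8 σ k = ∑ c : (∀ b, Multiplicative (F b)), ∑ n : (∀ b, (F b)ˣ),
      single (inl c * inr (⟨n, ofAdd k⟩ : Gam φ h8))
        (∑ a ∈ Finset.univ.filter (fun a => qq σ a = n), (NN F)⁻¹ * chi ψ a c⁻¹) := by
    unfold TT ee
    have h1 : ∀ a : (∀ b, F b), (∑ c : (∀ b, Multiplicative (F b)),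
        (single (inl c) ((NN F)⁻¹ * chi ψ a c⁻¹) :
          MonoidAlgebra ℂ ((∀ b, Multiplicative (F b)) ⋊[actG φ h8] Gam φ h8)))
          * single (inr (⟨qq σ a, ofAdd k⟩ : Gam φ h8)) 1
        = ∑ c : (∀ b, Multiplicative (F b)),
          single (inl c * inr (⟨qq σ a, ofAdd k⟩ : Gam φ h8)) ((NN F)⁻¹ * chi ψ a c⁻¹) := by
      intro a
      rw [Finset.sum_mul]
      exact Finset.sum_congr rfl fun c _ => by rw [single_mul_single, mul_one]
    rw [Finset.sum_congr rfl (fun a _ => h1 a), Finset.sum_comm]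
    refine Finset.sum_congr rfl fun c _ => ?_
    rw [← Finset.sum_fiberwise (s := Finset.univ) (g := fun a => qq σ a)]
    refine Finset.sum_congr rfl fun n _ => ?_
    have h2 : ∀ a ∈ Finset.univ.filter (fun a => qq σ a = n),
        (single (inl c * inr (⟨qq σ a, ofAdd k⟩ : Gam φ h8)) ((NN F)⁻¹ * chi ψ a c⁻¹) :
          MonoidAlgebra ℂ ((∀ b, Multiplicative (F b)) ⋊[actG φ h8] Gam φ h8))
        = singleAddHom (inl c * inr (⟨n, ofAdd k⟩ : Gam φ h8)) ((NN F)⁻¹ * chi ψ a c⁻¹) := by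
      intro a ha
      rw [(Finset.mem_filter.1 ha).2]
      rfl
    rw [Finset.sum_congr rfl h2, ← map_sum]
    rfl
  rw [e1, Finset.smul_sum]
  refine Subring.sum_mem _ fun c _ => ?_
  rw [Finset.smul_sum]
  refine Subring.sum_mem _ fun n _ => ?_
  rw [smul_single, smul_eq_mul]
  obtain ⟨z, hz⟩ := coef_int hψ σ n c⁻¹ M hM
  rw [hz]
  exact single_mem_ZR _ z

end Alg

end Pool.Agent.HopfZG
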