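import Mathlib
import Pool.Agent.Lib_helper96.HopfInt

set_option autoImplicit false

namespace Pool.Agent.HopfZG

open SemidirectProduct Multiplicative MonoidAlgebra

variable {F : Bool → Type} [∀ b, Field (F b)] [∀ b, Fintype (F b)] [∀ b, DecidableEq (F b)]
  {ψ : ∀ b, AddChar (F b) ℂ} {φ : ∀ b, RingAut (F b)} {h8 : ∀ b, φ b ^ 8 = 1}

lemma psi_pow (hφ : ∀ b (x : F b), ψ b (φ b x) = ψ b x) (b : Bool) (k : ℕ) (x : F b) :
    ψ b ((φ b ^ k) x) = ψ b x := by
  induction k with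
  | zero => rfl
  | succ k ih =>
    rw [pow_succ']
    exact (hφ b _).trans ih

lemma chi_gam (hφ : ∀ b (x : F b), ψ b (φ b x) = ψ b x) (a : ∀ b, F b)
    (c : ∀ b, Multiplicative (F b)) :
    chi ψ a c = chi ψ a (actG φ h8 (gam φ h8 a) c) := by
  unfold chi
  refine Finset.prod_congr rfl fun b _ => ?_
  rw [toAdd_actG, ← mul_assoc]
  show _ = ψ b (a b * ((q1 (φ b) (a b) : (F b)ˣ) : F b) * (φ b ^ (1 : ZMod 8).val) (toAdd (c b)))
  rw [q1_mul_self]
  have e : (1 : ZMod 8).val = 1 := rfl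
  rw [e, pow_one, ← map_mul, hφ]

lemma chi_mu (a : ∀ b, F b) (c : ∀ b, Multiplicative (F b)) :
    chi ψ (ap (th φ) a) c = chi ψ a (actG φ h8 (mu φ h8 a) c) := by
  unfold chi
  refine Finset.prod_congr rfl fun b _ => ?_
  rw [toAdd_actG, ← mul_assoc]
  show _ = ψ b (a b * ((q1 (th φ b) (a b) : (F b)ˣ) : F b) * (φ b ^ (0 : ZMod 8).val)
    (toAdd (c b)))
  rw [q1_mul_self, ZMod.val_zero, pow_zero]
  rfl

include h8 in
lemma chi_theta (hφ : ∀ b (x : F b), ψ b (φ b x) = ψ b x) (a : ∀ b, F b)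
    (c : ∀ b, Multiplicative (F b)) :
    chi ψ (ap (th φ) a) c = chi ψ a (fun b => theta φ b (c b)) := by
  unfold chi
  refine Finset.prod_congr rfl fun b _ => ?_
  cases b
  · rfl
  · show ψ true ((φ true ^ 4) (a true) * toAdd (c true))
      = ψ true (a true * (φ true ^ 4) (toAdd (c true)))
    rw [← psi_pow hφ true 4, map_mul]
    congr 2
    show (φ true ^ 4 * φ true ^ 4) (a true) = a true
    rw [← pow_add]
    have := h8 true
    rw [show 4 + 4 = 8 from rfl, this]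
    rfl

variable (ψ φ h8) in
/-- The unit in `ℂ[A]`. -/
noncomputable def UU (α β : ℤ) :
    MonoidAlgebra ℂ ((∀ b, Multiplicative (F b)) ⋊[actG φ h8] Gam φ h8) :=
  Ufun (ee ψ (actG φ h8)) (fun a => single (inr (gam φ h8 a)) 1)
    (fun a => single (inr (mu φ h8 a)) 1) α β

section
variable (hφ : ∀ b (x : F b), ψ b (φ b x) = ψ b x)
  (hψ : ∀ b (x : F b), ∑ y, ψ b (x * y) = if x = 0 then (Fintype.card (F b) : ℂ) else 0)

lemma c_ge (hφ : ∀ b (x : F b), ψ b (φ b x) = ψ b x) (a : ∀ b, F b) :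
    ee ψ (actG φ h8) a * single (inr (gam φ h8 a)) 1
      = single (inr (gam φ h8 a)) 1 * ee ψ (actG φ h8) a :=
  (inr_mul_ee (fun c => chi_gam hφ a c)).symm

lemma c_me (a : ∀ b, F b) :
    single (inr (mu φ h8 a)) 1 * ee ψ (actG φ h8) (ap (th φ) a)
      = ee ψ (actG φ h8) a * single (inr (mu φ h8 a)) 1 :=
  inr_mul_ee (fun c => chi_mu a c)

include hφ hψ in
lemma UU_mul {α β : ℤ} (h : 2 * β ^ 2 = α ^ 2 + α) :
    UU ψ φ h8 α β * UU ψ φ h8 α (-β) = 1 := by
  refine Ufun_mul (τ := ap (th φ)) (ee_mul_ee hψ) (sum_ee hψ) (c_ge hφ) ?_ c_me ?_ ?_ h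
  · intro a
    rw [single_pow, one_pow, ← map_pow, gam_pow8, map_one]
    rfl
  · intro a
    rw [single_mul_single, one_mul, ← map_mul, mu_mul_mu, map_one]
    rfl
  · intro a
    rw [single_mul_single, single_mul_single, ← map_mul, ← map_mul, mu_mul_gam]

include hφ hψ in
lemma UU_inl (α β : ℤ) (c : ∀ b, Multiplicative (F b)) :
    UU ψ φ h8 α β * single (inl c) 1 = single (inl fun b => theta φ b (c b)) 1 * UU ψ φ h8 α β := by
  unfold UU Ufun
  rw [Finset.sum_mul, Finset.mul_sum]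
  refine Finset.sum_congr rfl fun a _ => ?_
  have h1 := absorb (τ := ap (th φ)) (ee_mul_ee (ρ := actG φ h8) hψ) (c_ge (h8 := h8) hφ) c_me α β a
  conv_lhs => rw [h1, mul_assoc, ee_mul_inl, mul_smul_comm, ← h1]
  rw [← mul_assoc, ← mul_assoc, inl_mul_ee, smul_mul_assoc, smul_mul_assoc,
    chi_theta (h8 := h8) hφ]

lemma UU_eq (α β : ℤ) : UU ψ φ h8 α β
    = (1 + α) • TT ψ φ h8 (th φ * φ ^ 0) ((0 : ℕ) : ZMod 8)
      - α • TT ψ φ h8 (th φ * φ ^ 4) ((4 : ℕ) : ZMod 8)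
      + (β • TT ψ φ h8 (th φ * φ ^ 1) ((1 : ℕ) : ZMod 8)
        - β • TT ψ φ h8 (th φ * φ ^ 3) ((3 : ℕ) : ZMod 8)
        - β • TT ψ φ h8 (th φ * φ ^ 5) ((5 : ℕ) : ZMod 8)
        + β • TT ψ φ h8 (th φ * φ ^ 7) ((7 : ℕ) : ZMod 8)) := by
  unfold UU Ufun TT
  simp only [Finset.smul_sum, ← Finset.sum_sub_distrib, ← Finset.sum_add_distrib]
  refine Finset.sum_congr rfl fun a _ => ?_
  have hk : ∀ k : ℕ, (single (inr (⟨qq (th φ * φ ^ k) a, ofAdd (k : ZMod 8)⟩ : Gam φ h8)) 1 :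
      MonoidAlgebra ℂ ((∀ b, Multiplicative (F b)) ⋊[actG φ h8] Gam φ h8))
      = (single (inr (gam φ h8 a)) 1) ^ k * single (inr (mu φ h8 a)) 1 := by
    intro k
    rw [← gam_pow_mul_mu, single_pow, one_pow, single_mul_single, one_mul, map_mul, map_pow]
  rw [hk, hk, hk, hk, hk, hk]
  unfold xi
  simp only [zsmul_eq_mul, pow_zero, pow_one, one_mul]
  have hc : ∀ (n : ℤ) (x : MonoidAlgebra ℂ ((∀ b, Multiplicative (F b)) ⋊[actG φ h8] Gam φ h8)),
      x * (n : MonoidAlgebra ℂ ((∀ b, Multiplicative (F b)) ⋊[actG φ h8] Gam φ h8)) = n * x :=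
    fun n x => (Int.cast_commute n x).eq.symm
  push_cast
  simp only [mul_add, mul_sub, add_mul, sub_mul, ← mul_assoc, hc, mul_one, one_mul]

lemma mapRingHom_int_injective (A : Type) [Group A] :
    Function.Injective (mapRingHom A (Int.castRingHom ℂ)) := by
  intro x y hxy
  ext a
  have h1 := congrArg (fun z => z.coeff a) hxy
  simp only [coeff_mapRingHom] at h1
  exact Int.cast_injective (α := ℂ) h1

lemma den_dvd (σ : ∀ b, RingAut (F b)) (b : Bool) : den σ b ∣ Fintype.card (F b) := by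
  unfold den
  split_ifs
  · exact one_dvd _
  · exact dvd_rfl

include hψ in
lemma UU_mem {α β : ℤ} (h1 : (Fintype.card (F true) : ℤ) ∣ 1 + α)
    (h2 : (Fintype.card (F false) : ℤ) ∣ α)
    (h3 : (Fintype.card (F true) : ℤ) * Fintype.card (F false) ∣ β) :
    UU ψ φ h8 α β ∈ ZR _ := by
  have hT : ∀ (σ : ∀ b, RingAut (F b)) (k : ZMod 8) (M : ℤ),
      den σ true * den σ false ∣ M → M • TT ψ φ h8 σ k ∈ ZR _ := by
    intro σ k M hM
    have := TT_mem (h8 := h8) hψ σ k M hM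
    rwa [Int.cast_smul_eq_zsmul] at this
  have hb : ∀ (σ : ∀ b, RingAut (F b)), den σ true * den σ false ∣ β := fun σ =>
    (mul_dvd_mul (den_dvd σ true) (den_dvd σ false)).trans h3
  rw [UU_eq]
  refine (ZR _).add_mem ((ZR _).sub_mem (hT _ _ _ ?_) (hT _ _ _ ?_)) ((ZR _).add_mem
    ((ZR _).sub_mem ((ZR _).sub_mem (hT _ _ _ (hb _)) (hT _ _ _ (hb _))) (hT _ _ _ (hb _)))
    (hT _ _ _ (hb _)))
  · have e : den (th φ * φ ^ 0) false = 1 := by
      unfold den
      rw [if_pos]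
      show (1 : RingAut (F false)) * φ false ^ 0 = 1
      rw [pow_zero, one_mul]
    rw [e, mul_one]
    exact (den_dvd _ true).trans h1
  · have e : den (th φ * φ ^ 4) true = 1 := by
      unfold den
      rw [if_pos]
      show φ true ^ 4 * φ true ^ 4 = 1
      rw [← pow_add]
      exact h8 true
    rw [e, one_mul]
    exact (den_dvd _ false).trans h2

include hφ hψ in
/-- The unit in the integral group ring. -/
theorem exists_unit_ZA {α β : ℤ} (h : 2 * β ^ 2 = α ^ 2 + α)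
    (h1 : (Fintype.card (F true) : ℤ) ∣ 1 + α)
    (h2 : (Fintype.card (F false) : ℤ) ∣ α)
    (h3 : (Fintype.card (F true) : ℤ) * Fintype.card (F false) ∣ β) :
    ∃ u : (MonoidAlgebra ℤ ((∀ b, Multiplicative (F b)) ⋊[actG φ h8] Gam φ h8))ˣ,
      ∀ c : ∀ b, Multiplicative (F b),
        u.1 * single (inl c) 1 = single (inl fun b => theta φ b (c b)) 1 * u.1 := by
  obtain ⟨u, hu⟩ : UU ψ φ h8 α β ∈ ZR _ := UU_mem hψ h1 h2 h3
  obtain ⟨v, hv⟩ : UU ψ φ h8 α (-β) ∈ ZR _ := UU_mem hψ h1 h2 (h3.trans (dvd_neg.2 dvd_rfl))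
  have huv : u * v = 1 := by
    apply mapRingHom_int_injective
    rw [map_mul, hu, hv, UU_mul hφ hψ h, map_one]
  have hvu : v * u = 1 := by
    apply mapRingHom_int_injective
    have h4 := UU_mul (h8 := h8) hφ hψ (α := α) (β := -β) (by rw [neg_sq]; exact h)
    rw [neg_neg] at h4
    rw [map_mul, hu, hv, h4, map_one]
  refine ⟨⟨u, v, huv, hvu⟩, fun c => ?_⟩
  apply mapRingHom_int_injective
  show mapRingHom _ (Int.castRingHom ℂ) (u * single (inl c) 1)
    = mapRingHom _ (Int.castRingHom ℂ) (single (inl fun b => theta φ b (c b)) 1 * u)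
  rw [map_mul, map_mul, hu, mapRingHom_single, mapRingHom_single, map_one, UU_inl hφ hψ]

end

end Pool.Agent.HopfZG
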