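import Mathlib
import Pool.Agent.Lib_helper96.HopfUnit2
import Pool.Agent.Lib_helper96.HopfPell
import Pool.Agent.Lib_helper96.HopfField

set_option autoImplicit false

namespace Pool.Agent.HopfZG

open SemidirectProduct Multiplicative MonoidAlgebra

/-- the fields used in the construction -/
abbrev FF (j : ℕ) (b : Bool) : Type := GaloisField (pr b) (8 * 2 ^ j)

noncomputable instance (j : ℕ) (b : Bool) : Fintype (FF j b) := Fintype.ofFinite _

noncomputable instance (j : ℕ) (b : Bool) : DecidableEq (FF j b) := Classical.decEq _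

lemma card_FF (j : ℕ) (b : Bool) : Nat.card (FF j b) = pr b ^ (8 * 2 ^ j) :=
  GaloisField.card _ _ (by positivity)

/-- A Hopfian group with non-Hopfian integral group ring. -/
theorem main : ∃ (G : Type) (_ : Group G),
    (∀ f : G →* G, Function.Surjective f → Function.Injective f) ∧
    ∃ φ : MonoidAlgebra ℤ G →+* MonoidAlgebra ℤ G,
      Function.Surjective φ ∧ ¬ Function.Injective φ := by
  have h0 : ∀ (j : ℕ) (b : Bool), ∃ (φ : RingAut (FF j b)) (ψ : AddChar (FF j b) ℂ),
      φ ^ 8 = 1 ∧ (∀ k : ℕ, φ ^ k = 1 → 8 ∣ k) ∧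
      (∀ x, ψ (φ x) = ψ x) ∧
      ∀ x : FF j b, ∑ y, ψ (x * y) = if x = 0 then (Fintype.card (FF j b) : ℂ) else 0 := by
    intro j b
    exact field_data (pr b) (FF j b) (2 ^ j) (by positivity)
      (GaloisField.finrank _ (by positivity))
  choose φ ψ h8 hord hinv horth using h0
  have hG : Good (V := fun j b => Multiplicative (FF j b)) (Γ := fun j => Gam (φ j) (h8 j))
      (fun j b => afc (φ j) (h8 j) b) (fun j b => theta (φ j) b) := by
    refine good_fam card_FF (fun j k => hord j false k) (fun j h => ?_)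
    have := hord j true 4 h
    omega
  have hU : HasUnits (V := fun j b => Multiplicative (FF j b)) (Γ := fun j => Gam (φ j) (h8 j))
      (fun j b => afc (φ j) (h8 j) b) (fun j b => theta (φ j) b) := by
    intro n
    obtain ⟨α, β, h1, h2, h3, h4⟩ := arith_exists (8 * 2 ^ n) (Nat.one_le_iff_ne_zero.2 (by positivity))
    have hc : ∀ b, (Fintype.card (FF n b) : ℤ) = (pr b : ℤ) ^ (8 * 2 ^ n) := by
      intro b
      rw [← Nat.card_eq_fintype_card, card_FF]
      push_cast
      rfl
    exact exists_unit_ZA (F := FF n) (ψ := ψ n) (φ := φ n) (h8 := h8 n) (hinv n) (horth n)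
      h1 (by rw [hc]; exact h2) (by rw [hc]; exact h3) (by rw [hc, hc]; exact h4)
  have hfin : ∀ j, Finite (Gam (φ j) (h8 j)) := fun j =>
    Finite.of_equiv _ (SemidirectProduct.equivProd (φ := actQ (φ j) (h8 j))).symm
  exact ⟨RP (fun n => YY (fun j b => afc (φ j) (h8 j) b) (fun j b => theta (φ j) b) n),
    inferInstance, group_side hG, ring_side hG hU⟩

end Pool.Agent.HopfZG
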